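import Pool.Agent.Lib.MP_2a99c0_nt.H73.Cov
import Pool.Agent.Lib.MP_6bc78b_nt.SW.Close

/-!
# Primes in progressions to small moduli, from the theorem of Siegel and Walfisz
-/

set_option autoImplicit false

namespace Pool.Agent.Lib.MP_2a99c0_nt.H73

open Finset
open ArithmeticFunction (vonMangoldt)
open scoped Classical

/-- `ψ(4Z) - ψ(Z)` -/
noncomputable def Psi (Z : ℕ) : ℝ := ∑ n ∈ Ioc Z (4 * Z), vonMangoldt n

lemma ev_pow (m : ℕ) (C r : ℝ) (hr : 0 < r) : ∃ x₀ : ℕ, ∀ x : ℕ, x₀ ≤ x →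
    C * Real.log x ^ m ≤ (x : ℝ) ^ r := by
  have hlo := (isLittleO_log_rpow_rpow_atTop (m : ℝ) hr).bound
    (show (0 : ℝ) < 1 / (|C| + 1) by positivity)
  rw [Filter.eventually_atTop] at hlo
  obtain ⟨T, hT⟩ := hlo
  refine ⟨⌈T⌉₊ + 1, fun x hx => ?_⟩
  have hxT : T ≤ (x : ℝ) := by
    have h1 : ⌈T⌉₊ ≤ x := by omega
    exact (Nat.le_ceil T).trans (by exact_mod_cast h1)
  have h1 := hT x hxT
  have hx1 : (1 : ℝ) ≤ x := by
    have : 1 ≤ x := by omega
    exact_mod_cast this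
  have hl : 0 ≤ Real.log x := Real.log_nonneg hx1
  have hr' : 0 ≤ (x : ℝ) ^ r := by positivity
  rw [Real.rpow_natCast, Real.norm_eq_abs, Real.norm_eq_abs,
    abs_of_nonneg (pow_nonneg hl m), abs_of_nonneg hr'] at h1
  have hC : C ≤ |C| + 1 := (le_abs_self C).trans (by linarith)
  calc C * Real.log x ^ m ≤ (|C| + 1) * Real.log x ^ m :=
        mul_le_mul_of_nonneg_right hC (pow_nonneg hl m)
    _ ≤ (|C| + 1) * (1 / (|C| + 1) * (x : ℝ) ^ r) :=
        mul_le_mul_of_nonneg_left h1 (by positivity)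
    _ = (x : ℝ) ^ r := by field_simp

lemma ortho (d c : ℕ) (hd : 1 ≤ d) (hc : c.Coprime d) (I : Finset ℕ) (a : ℕ → ℂ) :
    (d.totient : ℂ) * ∑ n ∈ I.filter (fun n => n ≡ c [MOD d]), a n =
      ∑ χ : DirichletCharacter ℂ d, χ (c : ZMod d)⁻¹ * ∑ n ∈ I, χ (n : ZMod d) * a n := by
  haveI : NeZero d := ⟨by omega⟩
  have hu : IsUnit (c : ZMod d) := (ZMod.isUnit_iff_coprime c d).2 hc
  simp_rw [Finset.mul_sum]
  rw [Finset.sum_comm, Finset.sum_filter]
  apply Finset.sum_congr rfl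
  intro n _
  have h1 : ∑ χ : DirichletCharacter ℂ d, χ (c : ZMod d)⁻¹ * (χ (n : ZMod d) * a n) =
      (∑ χ : DirichletCharacter ℂ d, χ (c : ZMod d)⁻¹ * χ (n : ZMod d)) * a n := by
    rw [Finset.sum_mul]
    apply Finset.sum_congr rfl
    intro χ _
    ring
  rw [h1, DirichletCharacter.sum_char_inv_mul_char_eq ℂ hu]
  by_cases h : n ≡ c [MOD d]
  · have h2 : (c : ZMod d) = (n : ZMod d) := ((ZMod.natCast_eq_natCast_iff n c d).2 h).symm
    rw [if_pos h, if_pos h2]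
  · have h2 : ¬ (c : ZMod d) = (n : ZMod d) := fun h3 =>
      h ((ZMod.natCast_eq_natCast_iff n c d).1 h3.symm)
    rw [if_neg h, if_neg h2, zero_mul]

/-- distribution in progressions for small moduli -/
theorem ap (A B : ℕ) (hA : 1 ≤ A) : ∃ Z₀ : ℕ, ∀ Z : ℕ, Z₀ ≤ Z → ∀ d c : ℕ, 1 ≤ d →
    (d : ℝ) ≤ Real.log Z ^ A → c.Coprime d →
    |∑ n ∈ (Ioc Z (4 * Z)).filter (fun n => n ≡ c [MOD d]), vonMangoldt n -
      Psi Z / d.totient| ≤ Z / Real.log Z ^ B := by
  obtain ⟨C, hC, hSW⟩ := Pool.Agent.Lib.MP_6bc78b_nt.SW.siegel_walfisz (A : ℝ) ((B + 1 : ℕ) : ℝ)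
    (by exact_mod_cast hA) (by positivity)
  obtain ⟨x₁, hx₁⟩ := ev_pow A 1 1 one_pos
  obtain ⟨x₂, hx₂⟩ := ev_pow (B + 1) 16 (1 / 2) (by norm_num)
  refine ⟨x₁ + x₂ + 4 + ⌈Real.exp (10 * C)⌉₊, fun Z hZ d c hd hdA hc => ?_⟩
  have hZ4 : (4 : ℝ) ≤ Z := by
    have : 4 ≤ Z := by omega
    exact_mod_cast this
  have hZ0 : (0 : ℝ) < Z := by linarith
  obtain ⟨L, hL⟩ : ∃ L, L = Real.log Z := ⟨_, rfl⟩
  have hLC : 10 * C ≤ L := by
    rw [hL, Real.le_log_iff_exp_le hZ0]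
    have h1 : ⌈Real.exp (10 * C)⌉₊ ≤ Z := by omega
    exact (Nat.le_ceil _).trans (by exact_mod_cast h1)
  have hL0 : 0 < L := by linarith
  have hA1 : L ^ A ≤ Z := by
    have := hx₁ Z (by omega)
    rwa [one_mul, Real.rpow_one, ← hL] at this
  have hB1 : 16 * L ^ (B + 1) ≤ Real.sqrt Z := by
    have := hx₂ Z (by omega)
    rwa [← Real.sqrt_eq_rpow, ← hL] at this
  haveI : NeZero d := ⟨by omega⟩
  have hφ0 : (0 : ℝ) < d.totient := by exact_mod_cast Nat.totient_pos.2 hd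
  have hφ1 : (1 : ℝ) ≤ d.totient := by exact_mod_cast Nat.totient_pos.2 hd
  rw [← hL] at hdA ⊢
  have hdZ : d ≤ Z := by
    have : (d : ℝ) ≤ Z := hdA.trans hA1
    exact_mod_cast this
  obtain ⟨K, hK⟩ : ∃ K, K = 5 * C * Z / L ^ (B + 1) := ⟨_, rfl⟩
  have hK0 : 0 ≤ K := by rw [hK]; positivity
  -- one character
  have hχ : ∀ χ : DirichletCharacter ℂ d, χ ≠ 1 →
      ‖∑ n ∈ Ioc Z (4 * Z), χ (n : ZMod d) * (vonMangoldt n : ℂ)‖ ≤ K := by
    intro χ h1
    have hs : ∀ N : ℕ, Z ≤ N → ‖∑ n ∈ Icc 1 N, χ (n : ZMod d) * (vonMangoldt n : ℂ)‖ ≤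
        C * N / L ^ (B + 1) := by
      intro N hN
      have hN' : (Z : ℝ) ≤ N := by exact_mod_cast hN
      have hLN : L ≤ Real.log N := by rw [hL]; exact Real.log_le_log hZ0 hN'
      have h2 := hSW N (by linarith) d hd ?_ χ h1
      · rw [Nat.floor_natCast, Real.rpow_neg (by linarith), Real.rpow_natCast,
          ← div_eq_mul_inv] at h2
        refine h2.trans ?_
        apply div_le_div_of_nonneg_left (by positivity) (by positivity)
        exact pow_le_pow_left₀ hL0.le hLN _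
      · rw [Real.rpow_natCast]
        exact hdA.trans (pow_le_pow_left₀ hL0.le hLN A)
    have h2 : ∑ n ∈ Ioc Z (4 * Z), χ (n : ZMod d) * (vonMangoldt n : ℂ) =
        ∑ n ∈ Icc 1 (4 * Z), χ (n : ZMod d) * (vonMangoldt n : ℂ) -
        ∑ n ∈ Icc 1 Z, χ (n : ZMod d) * (vonMangoldt n : ℂ) := by
      rw [eq_sub_iff_add_eq, ← Finset.sum_union]
      · apply Finset.sum_congr _ (fun _ _ => rfl)
        ext n
        simp only [mem_union, mem_Ioc, mem_Icc]
        omega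
      · rw [Finset.disjoint_left]
        intro n hn hn'
        rw [mem_Ioc] at hn
        rw [mem_Icc] at hn'
        omega
    rw [h2]
    refine (norm_sub_le _ _).trans ((add_le_add (hs (4 * Z) (by omega)) (hs Z le_rfl)).trans ?_)
    rw [hK]
    push_cast
    apply le_of_eq
    ring
  -- the principal character
  obtain ⟨T, hT⟩ : ∃ T : ℝ, T = ∑ n ∈ (Ioc Z (4 * Z)).filter (fun n => n ≡ c [MOD d]),
      vonMangoldt n := ⟨_, rfl⟩
  obtain ⟨T₁, hT₁⟩ : ∃ T : ℝ, T = ∑ n ∈ (Ioc Z (4 * Z)).filter (fun n => n.Coprime d),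
      vonMangoldt n := ⟨_, rfl⟩
  have hu : IsUnit (c : ZMod d) := (ZMod.isUnit_iff_coprime c d).2 hc
  have hui : IsUnit (c : ZMod d)⁻¹ := by
    have h1 := ZMod.inv_mul_of_unit _ hu
    exact IsUnit.of_mul_eq_one _ h1
  have h1 := ortho d c hd hc (Ioc Z (4 * Z)) (fun n => (vonMangoldt n : ℂ))
  rw [← Finset.add_sum_erase _ _ (Finset.mem_univ (1 : DirichletCharacter ℂ d))] at h1
  have h2 : (1 : DirichletCharacter ℂ d) (c : ZMod d)⁻¹ *
      ∑ n ∈ Ioc Z (4 * Z), (1 : DirichletCharacter ℂ d) (n : ZMod d) * (vonMangoldt n : ℂ) =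
      (T₁ : ℂ) := by
    rw [MulChar.one_apply hui, one_mul, hT₁, Complex.ofReal_sum, Finset.sum_filter]
    apply Finset.sum_congr rfl
    intro n _
    by_cases h : n.Coprime d
    · rw [if_pos h, MulChar.one_apply ((ZMod.isUnit_iff_coprime n d).2 h), one_mul]
    · rw [if_neg h, MulChar.map_nonunit _ (fun h3 => h ((ZMod.isUnit_iff_coprime n d).1 h3)),
        zero_mul]
  have h3 : ((d.totient : ℝ) * T - T₁ : ℝ) = (d.totient : ℝ) * T - T₁ := rfl
  have h4 : (((d.totient : ℝ) * T - T₁ : ℝ) : ℂ) =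
      ∑ χ ∈ (Finset.univ.erase (1 : DirichletCharacter ℂ d)), χ (c : ZMod d)⁻¹ *
        ∑ n ∈ Ioc Z (4 * Z), χ (n : ZMod d) * (vonMangoldt n : ℂ) := by
    rw [h2] at h1
    rw [hT]
    push_cast
    rw [h1]
    ring
  have h5 : |(d.totient : ℝ) * T - T₁| ≤ d.totient * K := by
    have h6 : ‖(((d.totient : ℝ) * T - T₁ : ℝ) : ℂ)‖ ≤ d.totient * K := by
      rw [h4]
      refine (norm_sum_le _ _).trans ?_
      have h7 : ∀ χ ∈ (Finset.univ.erase (1 : DirichletCharacter ℂ d)),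
          ‖χ (c : ZMod d)⁻¹ * ∑ n ∈ Ioc Z (4 * Z), χ (n : ZMod d) * (vonMangoldt n : ℂ)‖ ≤ K := by
        intro χ hχ1
        rw [norm_mul]
        have h8 := hχ χ (Finset.ne_of_mem_erase hχ1)
        have h9 := DirichletCharacter.norm_le_one χ (c : ZMod d)⁻¹
        calc _ ≤ 1 * K := mul_le_mul h9 h8 (norm_nonneg _) zero_le_one
          _ = K := one_mul K
      refine (Finset.sum_le_card_nsmul _ _ _ h7).trans ?_
      rw [nsmul_eq_mul]
      apply mul_le_mul_of_nonneg_right _ hK0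
      have h8 : (Finset.univ.erase (1 : DirichletCharacter ℂ d)).card ≤ d.totient := by
        refine (Finset.card_erase_le).trans ?_
        rw [Finset.card_univ, ← Nat.card_eq_fintype_card,
          DirichletCharacter.card_eq_totient_of_hasEnoughRootsOfUnity]
      exact_mod_cast h8
    rwa [Complex.norm_real, Real.norm_eq_abs] at h6
  have h6 : |T - T₁ / d.totient| ≤ K := by
    have h7 : T - T₁ / d.totient = ((d.totient : ℝ) * T - T₁) / d.totient := by
      field_simp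
    rw [h7, abs_div, abs_of_pos hφ0, div_le_iff₀ hφ0]
    linarith
  -- elements not coprime to `d`
  have h7 : |T₁ / d.totient - Psi Z / d.totient| ≤ 2 * Real.sqrt (4 * Z) * Real.log (4 * Z) := by
    have h8 : Psi Z - T₁ = ∑ n ∈ (Ioc Z (4 * Z)).filter (fun n => ¬ n.Coprime d),
        vonMangoldt n := by
      rw [hT₁, Psi, ← Finset.sum_filter_add_sum_filter_not (Ioc Z (4 * Z))
        (fun n => n.Coprime d)]
      ring
    have h9 : Psi Z - T₁ ≤ Chebyshev.psi ((4 * Z : ℕ) : ℝ) - Chebyshev.theta ((4 * Z : ℕ) : ℝ) := by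
      rw [h8, Chebyshev.psi_sub_theta_eq_sum_not_prime, Nat.floor_natCast]
      apply Finset.sum_le_sum_of_subset_of_nonneg
      · intro n hn
        rw [mem_filter, mem_Ioc] at hn
        rw [mem_filter, mem_Ioc]
        refine ⟨⟨by omega, hn.1.2⟩, fun hp => hn.2 ?_⟩
        rw [hp.coprime_iff_not_dvd]
        intro hnd
        have := Nat.le_of_dvd (by omega) hnd
        omega
      · intro n _ _
        exact ArithmeticFunction.vonMangoldt_nonneg
    have h10 : 0 ≤ Psi Z - T₁ := by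
      rw [h8]
      exact Finset.sum_nonneg fun n _ => ArithmeticFunction.vonMangoldt_nonneg
    have h11 := Chebyshev.psi_sub_theta_le (x := ((4 * Z : ℕ) : ℝ)) (by
      push_cast
      linarith)
    push_cast at h9 h11
    rw [abs_sub_comm, ← sub_div, abs_div, abs_of_nonneg h10, abs_of_pos hφ0,
      div_le_iff₀ hφ0]
    have h12 : 0 ≤ 2 * Real.sqrt (4 * Z) * Real.log (4 * Z) := by
      have : 0 ≤ Real.log (4 * (Z : ℝ)) := Real.log_nonneg (by linarith)
      positivity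
    nlinarith
  rw [← hT]
  have h8 : |T - Psi Z / d.totient| ≤ K + 2 * Real.sqrt (4 * Z) * Real.log (4 * Z) := by
    have h9 : T - Psi Z / d.totient = (T - T₁ / d.totient) + (T₁ / d.totient - Psi Z / d.totient) := by
      ring
    rw [h9]
    exact (abs_add_le _ _).trans (add_le_add h6 h7)
  refine h8.trans ?_
  have h9 : K ≤ Z / L ^ B / 2 := by
    rw [hK, pow_succ, div_div, div_le_div_iff₀ (by positivity) (by positivity)]
    have h10 : 0 ≤ (Z : ℝ) * L ^ B := by positivity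
    nlinarith
  have h10 : 2 * Real.sqrt (4 * Z) * Real.log (4 * Z) ≤ Z / L ^ B / 2 := by
    have h11 : Real.sqrt (4 * Z) = 2 * Real.sqrt Z := by
      rw [Real.sqrt_mul (by norm_num), show (4 : ℝ) = 2 ^ 2 by norm_num,
        Real.sqrt_sq (by norm_num)]
    have h12 : Real.log (4 * Z) ≤ 2 * L := by
      rw [Real.log_mul (by norm_num) (by linarith), hL]
      have := Real.log_le_log (by norm_num) hZ4
      linarith
    have h13 := Real.mul_self_sqrt hZ0.le
    have h14 : 0 < Real.sqrt Z := Real.sqrt_pos.2 hZ0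
    rw [h11, div_div, le_div_iff₀ (by positivity)]
    calc 2 * (2 * Real.sqrt Z) * Real.log (4 * Z) * (L ^ B * 2)
        ≤ 2 * (2 * Real.sqrt Z) * (2 * L) * (L ^ B * 2) := by gcongr
      _ = Real.sqrt Z * (16 * L ^ (B + 1)) := by ring
      _ ≤ Real.sqrt Z * Real.sqrt Z := mul_le_mul_of_nonneg_left hB1 h14.le
      _ = Z := h13
  linarith

end Pool.Agent.Lib.MP_2a99c0_nt.H73
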