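import Pool.Agent.Lib.MP_ba0fa5_ag.AA.H54.Bt
import Pool.Agent.Lib.MP_ba0fa5_ag.AA.H54.Rankb
import Pool.Agent.Lib.MP_ba0fa5_ag.AA.H30.FLU
import Pool.Agent.Lib.MP_ba0fa5_ag.AA.H30.SELB
import Pool.Agent.Lib.MP_ba0fa5_ag.AA.H15.Recg
import Pool.Agent.Lib.MP_ba0fa5_ag.AA.H15.Vbnd
import Pool.Agent.Lib.MP_ba0fa5_ag.H72.Nmert1

/-!
# Brun and Titchmarsh for all moduli up to half the length
-/

set_option autoImplicit false

namespace Pool.Agent.Lib.MP_2a99c0_nt.H73

open Finset Pool.Agent.Lib.MP_ba0fa5_ag Pool.Agent.Lib.MP_ba0fa5_ag.AA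
open Pool.Agent.Lib.MP_ba0fa5_ag.AA.H54
open scoped Classical

theorem b_vbnd : VbndStmt := H15.vbnd H15.recg

theorem b_flu : FluStmt := H30.flu H30.selb (H54.rankb H72.nmert1) b_vbnd

/-- primes in `(x, 2x]` in one class modulo `q ≤ x / 2` -/
theorem bt_tot : ∃ C : ℝ, 0 < C ∧ ∀ q a x : ℕ, 1 ≤ q → 2 * q ≤ x →
    (((Ioc x (2 * x)).filter (fun l => l.Prime ∧ l ≡ a [MOD q])).card : ℝ) ≤
      C * x / (q.totient * Real.log (x / q)) := by
  obtain ⟨B₀, c, C, hc, hC, hF⟩ := b_flu
  obtain ⟨c', C', hc', hC', hV⟩ := b_vbnd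
  obtain ⟨B, hB⟩ : ∃ B, B = B₀ + 2 := ⟨_, rfl⟩
  have hB1 : (1 : ℝ) ≤ B := by
    rw [hB]
    push_cast
    linarith [(Nat.cast_nonneg B₀ : (0 : ℝ) ≤ B₀)]
  have hl3 : 0 < Real.log 3 := Real.log_pos (by norm_num)
  refine ⟨4 * (1 + C) * C' * Real.log 3 * B + 2 * B * Real.log 3, by positivity,
    fun q a x hq hqx => ?_⟩
  have hx0 : (0 : ℝ) < x := by
    have : 0 < x := by omega
    exact_mod_cast this
  have hq0 : (0 : ℝ) < q := by exact_mod_cast hq
  have hφ0 : (0 : ℝ) < q.totient := by exact_mod_cast Nat.totient_pos.2 hq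
  have hφq : (q.totient : ℝ) ≤ q := by exact_mod_cast Nat.totient_le q
  have hqx' : 2 * (q : ℝ) ≤ x := by exact_mod_cast hqx
  have hratio : (2 : ℝ) ≤ (x : ℝ) / q := by
    rw [le_div_iff₀ hq0]
    exact hqx'
  obtain ⟨L, hL⟩ : ∃ L, L = Real.log ((x : ℝ) / q) := ⟨_, rfl⟩
  have hL0 : 0 < L := by
    rw [hL]
    exact Real.log_pos (by linarith)
  rw [← hL]
  obtain ⟨M, hM⟩ : ∃ M, M = x / q + 1 := ⟨_, rfl⟩
  have hM1 : (x : ℝ) / q ≤ M := by
    rw [div_le_iff₀ hq0]
    have h1 : x < (x / q + 1) * q := by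
      have := Nat.div_add_mod x q
      have h2 := Nat.mod_lt x hq
      nlinarith
    rw [hM]
    exact_mod_cast h1.le
  have hM2 : (M : ℝ) ≤ 2 * (x / q) := by
    have h1 : ((x / q : ℕ) : ℝ) ≤ (x : ℝ) / q := Nat.cast_div_le
    rw [hM]
    push_cast
    linarith
  have hM0 : (0 : ℝ) < M := by
    rw [hM]
    push_cast
    positivity
  have hlogM : L ≤ Real.log M := by
    rw [hL]
    exact Real.log_le_log (by linarith) hM1
  by_cases hbig : 3 ^ B ≤ M
  · obtain ⟨z, hz3, hzM, hlog⟩ := exists_root B M (by omega) hbig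
    have hzx : z ≤ x := by
      have h3 : z ^ 2 ≤ M := (Nat.pow_le_pow_right (by omega) (by omega)).trans hzM
      have h4 : x / q ≤ x := Nat.div_le_self x q
      rw [hM] at h3
      nlinarith
    have hz0 : (0 : ℝ) < z := by
      have : 0 < z := by omega
      exact_mod_cast this
    have hlz : 0 < Real.log z := by
      apply Real.log_pos
      have : 1 < z := by omega
      exact_mod_cast this
    have hcount := count_le q a x z hq hzx
    rw [← hM] at hcount
    have hcard : ∀ l ∈ (primesIn 3 z).filter (fun l => ¬ l ∣ q),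
        ((range l).filter (fun r =>
          l ∣ x + 1 + (a + (q - (x + 1) % q)) % q + q * r)).card = 1 := by
      intro l hl
      rw [mem_filter, primesIn, mem_filter] at hl
      exact card_class l q _ hl.1.2 hl.2
    have hFz := hF z M (by omega) ((Nat.pow_le_pow_right (by omega) (by omega)).trans hzM)
      ((primesIn 3 z).filter (fun l => ¬ l ∣ q))
      (fun l => (range l).filter (fun r =>
          l ∣ x + 1 + (a + (q - (x + 1) % q)) % q + q * r)) (by
        intro l hl
        refine ⟨?_, ?_, ?_, ?_, ?_, ?_⟩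
        · rw [mem_filter, primesIn, mem_filter] at hl
          exact hl.1.2
        · rw [mem_filter, primesIn, mem_filter, mem_Ioc] at hl
          have h1 : l ≠ 4 := by
            rintro rfl
            exact absurd hl.1.2 (by norm_num)
          omega
        · rw [mem_filter, primesIn, mem_filter, mem_Ioc] at hl
          exact hl.1.1.2
        · intro r hr
          rw [mem_filter, mem_range] at hr
          exact hr.1
        · rw [hcard l hl]
        · rw [hcard l hl]
          norm_num)
    have hprod : ∏ l ∈ (primesIn 3 z).filter (fun l => ¬ l ∣ q),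
        (1 - (((range l).filter (fun r =>
          l ∣ x + 1 + (a + (q - (x + 1) % q)) % q + q * r)).card : ℝ) / l) ≤
        C' * Real.log 3 / Real.log z * (q / q.totient) := by
      have h1 : ∏ l ∈ (primesIn 3 z).filter (fun l => ¬ l ∣ q),
        (1 - (((range l).filter (fun r =>
          l ∣ x + 1 + (a + (q - (x + 1) % q)) % q + q * r)).card : ℝ) / l) =
          ∏ l ∈ (primesIn 3 z).filter (fun l => ¬ l ∣ q), (1 - 1 / (l : ℝ)) := by
        apply Finset.prod_congr rfl
        intro l hl
        rw [hcard l hl, Nat.cast_one]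
      rw [h1]
      refine (prod_le q z hq).trans ?_
      have h2 := (hV 3 z le_rfl hz3).2
      apply mul_le_mul_of_nonneg_right _ (by positivity)
      exact_mod_cast h2
    have hexp : 1 + C * Real.exp (-c * (Real.log M / Real.log z)) ≤ 1 + C := by
      have h1 : Real.exp (-c * (Real.log M / Real.log z)) ≤ 1 := by
        rw [Real.exp_le_one_iff]
        have h2 : 0 ≤ Real.log M / Real.log z := by
          have : 0 ≤ Real.log M := by linarith
          positivity
        nlinarith
      nlinarith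
    have h5 : ((((Ioc x (2 * x)).filter (fun l => l.Prime ∧ l ≡ a [MOD q])).card : ℕ) : ℝ) ≤
        (1 + C) * (2 * (x / q)) * (C' * Real.log 3 / Real.log z * (q / q.totient)) := by
      refine ((Nat.cast_le (α := ℝ)).2 hcount).trans (hFz.trans ?_)
      apply mul_le_mul
      · exact mul_le_mul hexp hM2 hM0.le (by positivity)
      · exact hprod
      · apply Finset.prod_nonneg
        intro l hl
        rw [hcard l hl, Nat.cast_one, sub_nonneg]
        rw [mem_filter, primesIn, mem_filter] at hl
        have h7 : (1 : ℝ) ≤ l := by exact_mod_cast hl.1.2.one_lt.le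
        rw [div_le_one (by linarith)]
        exact h7
      · positivity
    refine h5.trans ?_
    have h7 : (1 + C) * (2 * (x / q)) * (C' * Real.log 3 / Real.log z * (q / q.totient)) =
        (2 * (1 + C) * C' * Real.log 3) * (x / q.totient) * (1 / Real.log z) := by
      field_simp
    have h8 : 1 / Real.log z ≤ 2 * B * (1 / L) := by
      rw [mul_one_div, div_le_div_iff₀ hlz hL0]
      nlinarith
    rw [h7]
    have h9 : (0 : ℝ) ≤ (2 * (1 + C) * C' * Real.log 3) * (x / q.totient) := by positivity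
    refine (mul_le_mul_of_nonneg_left h8 h9).trans ?_
    have h10 : (4 * (1 + C) * C' * Real.log 3 * B + 2 * B * Real.log 3) * x /
        (q.totient * L) = (4 * (1 + C) * C' * Real.log 3 * B + 2 * B * Real.log 3) *
        (x / q.totient) * (1 / L) := by
      field_simp
    rw [h10]
    have h12 : (0 : ℝ) ≤ 2 * B * Real.log 3 * ((x / q.totient) * (1 / L)) := by positivity
    have h13 : 2 * (1 + C) * C' * Real.log 3 * (x / q.totient) * (2 * B * (1 / L)) =
        4 * (1 + C) * C' * Real.log 3 * B * ((x / q.totient) * (1 / L)) := by ring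
    have h14 : (4 * (1 + C) * C' * Real.log 3 * B + 2 * B * Real.log 3) *
        (x / q.totient) * (1 / L) =
        4 * (1 + C) * C' * Real.log 3 * B * ((x / q.totient) * (1 / L)) +
        2 * B * Real.log 3 * ((x / q.totient) * (1 / L)) := by ring
    rw [h13, h14]
    linarith
  · have hcount : (((Ioc x (2 * x)).filter (fun l => l.Prime ∧ l ≡ a [MOD q])).card) ≤ M := by
      have h1 := count_le q a x 0 hq (Nat.zero_le _)
      refine h1.trans ((Finset.card_filter_le _ _).trans ?_)
      rw [card_range, hM]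
    have h1 : ((((Ioc x (2 * x)).filter (fun l => l.Prime ∧ l ≡ a [MOD q])).card : ℕ) : ℝ) ≤
        2 * (x / q) := by
      refine le_trans ?_ hM2
      exact_mod_cast hcount
    have h2 : Real.log M ≤ B * Real.log 3 := by
      rw [not_le] at hbig
      have h3 : (M : ℝ) ≤ 3 ^ B := by exact_mod_cast hbig.le
      have h4 := Real.log_le_log hM0 h3
      rwa [Real.log_pow] at h4
    have h3 : L ≤ B * Real.log 3 := hlogM.trans h2
    refine h1.trans ?_
    rw [le_div_iff₀ (by positivity)]
    have h4 : 2 * ((x : ℝ) / q) * (q.totient * L) =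
        2 * x * (q.totient / q) * L := by
      field_simp
    rw [h4]
    have h5 : (q.totient : ℝ) / q ≤ 1 := by
      rw [div_le_one hq0]
      exact hφq
    have h6 : 2 * (x : ℝ) * (q.totient / q) * L ≤ 2 * x * 1 * (B * Real.log 3) := by
      apply mul_le_mul _ h3 hL0.le (by positivity)
      exact mul_le_mul_of_nonneg_left h5 (by positivity)
    have h7 : (0 : ℝ) ≤ 4 * (1 + C) * C' * Real.log 3 * B * x := by positivity
    have h8 : (4 * (1 + C) * C' * Real.log 3 * B + 2 * B * Real.log 3) * x =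
        4 * (1 + C) * C' * Real.log 3 * B * x + 2 * x * 1 * (B * Real.log 3) := by ring
    rw [h8]
    linarith

/-- the same for prime moduli -/
theorem bt_prime : ∃ C : ℝ, 0 < C ∧ ∀ q a x : ℕ, q.Prime → 2 * q ≤ x →
    (((Ioc x (2 * x)).filter (fun l => l.Prime ∧ l ≡ a [MOD q])).card : ℝ) ≤
      C * x / (q * Real.log (x / q)) := by
  obtain ⟨C, hC, h⟩ := bt_tot
  refine ⟨2 * C, by positivity, fun q a x hq hqx => (h q a x hq.one_lt.le hqx).trans ?_⟩
  have hq2 : (2 : ℝ) ≤ q := by exact_mod_cast hq.two_le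
  have hq0 : (0 : ℝ) < q := by linarith
  have hqx' : 2 * (q : ℝ) ≤ x := by exact_mod_cast hqx
  have hratio : (2 : ℝ) ≤ (x : ℝ) / q := by
    rw [le_div_iff₀ hq0]
    exact hqx'
  have hL0 : 0 < Real.log ((x : ℝ) / q) := Real.log_pos (by linarith)
  have hx0 : (0 : ℝ) < x := by linarith
  have ht : (q : ℝ) / 2 ≤ q.totient := by
    rw [Nat.totient_prime hq, Nat.cast_sub hq.one_lt.le, Nat.cast_one]
    linarith
  have ht0 : (0 : ℝ) < q.totient := by linarith
  rw [div_le_div_iff₀ (by positivity) (by positivity)]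
  have h1 : C * x * (q * Real.log (x / q)) ≤ C * x * ((2 * q.totient) * Real.log (x / q)) := by
    apply mul_le_mul_of_nonneg_left _ (by positivity)
    apply mul_le_mul_of_nonneg_right _ hL0.le
    linarith
  linarith

end Pool.Agent.Lib.MP_2a99c0_nt.H73
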