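import Pool.Agent.Lib.MP_2a99c0_nt.H73.Hoo

/-!
# The coefficients of the sieve of Brun and Hooley
-/

set_option autoImplicit false

namespace Pool.Agent.Lib.MP_2a99c0_nt.H73

open Finset
open scoped Classical

/-- product of the truncated coefficients over the levels -/
noncomputable def cP : ℕ → ℕ → ℕ → Finset ℕ → ℝ
  | 0, _, _, _ => 1
  | r + 1, z, k, S => cU (2 * k) (S.filter (fun p => ¬ p ≤ Nat.sqrt z)) *
      cP r (Nat.sqrt z) (k + 1) (S.filter (fun p => p ≤ Nat.sqrt z))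

/-- the lower bound coefficients -/
noncomputable def cQ : ℕ → ℕ → ℕ → Finset ℕ → ℝ
  | 0, _, _, _ => 1
  | r + 1, z, k, S => cU (2 * k) (S.filter (fun p => ¬ p ≤ Nat.sqrt z)) *
      cQ r (Nat.sqrt z) (k + 1) (S.filter (fun p => p ≤ Nat.sqrt z)) -
      cX (2 * k + 1) (S.filter (fun p => ¬ p ≤ Nat.sqrt z)) *
      cP r (Nat.sqrt z) (k + 1) (S.filter (fun p => p ≤ Nat.sqrt z))

lemma Gen_split (E : Finset ℕ) (τ : ℕ → ℝ) (t : ℕ) (c c' : Finset ℕ → ℝ) :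
    Gen E τ (fun S => c (S.filter (fun p => ¬ p ≤ t)) * c' (S.filter (fun p => p ≤ t))) =
      Gen (E.filter (fun p => ¬ p ≤ t)) τ c * Gen (E.filter (fun p => p ≤ t)) τ c' := by
  have hd : Disjoint (E.filter (fun p => ¬ p ≤ t)) (E.filter (fun p => p ≤ t)) := by
    rw [Finset.disjoint_left]
    intro p hp hp'
    exact (mem_filter.1 hp).2 (mem_filter.1 hp').2
  have hE : E.filter (fun p => ¬ p ≤ t) ∪ E.filter (fun p => p ≤ t) = E := by
    ext p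
    rw [mem_union, mem_filter, mem_filter]
    tauto
  rw [← Gen_union τ _ _ hd c c', hE]
  apply Gen_congr
  intro S hS
  rw [mem_powerset] at hS
  beta_reduce
  have h1 : S ∩ E.filter (fun p => ¬ p ≤ t) = S.filter (fun p => ¬ p ≤ t) := by
    ext p
    rw [mem_inter, mem_filter, mem_filter]
    constructor
    · rintro ⟨h1, -, h2⟩
      exact ⟨h1, h2⟩
    · rintro ⟨h1, h2⟩
      exact ⟨h1, hS h1, h2⟩
  have h2 : S ∩ E.filter (fun p => p ≤ t) = S.filter (fun p => p ≤ t) := by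
    ext p
    rw [mem_inter, mem_filter, mem_filter]
    constructor
    · rintro ⟨h1, -, h2⟩
      exact ⟨h1, h2⟩
    · rintro ⟨h1, h2⟩
      exact ⟨h1, hS h1, h2⟩
  rw [h1, h2]

lemma Gen_sub (E : Finset ℕ) (τ : ℕ → ℝ) (c c' : Finset ℕ → ℝ) :
    Gen E τ (fun S => c S - c' S) = Gen E τ c - Gen E τ c' := by
  unfold Gen
  rw [← Finset.sum_sub_distrib]
  apply Finset.sum_congr rfl
  intro S _
  ring

lemma Gen_cP_step (E : Finset ℕ) (τ : ℕ → ℝ) (r z k : ℕ) :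
    Gen E τ (cP (r + 1) z k) = Gen (E.filter (fun p => ¬ p ≤ Nat.sqrt z)) τ (cU (2 * k)) *
      Gen (E.filter (fun p => p ≤ Nat.sqrt z)) τ (cP r (Nat.sqrt z) (k + 1)) := by
  rw [← Gen_split]
  rfl

lemma Gen_cQ_step (E : Finset ℕ) (τ : ℕ → ℝ) (r z k : ℕ) :
    Gen E τ (cQ (r + 1) z k) = Gen (E.filter (fun p => ¬ p ≤ Nat.sqrt z)) τ (cU (2 * k)) *
      Gen (E.filter (fun p => p ≤ Nat.sqrt z)) τ (cQ r (Nat.sqrt z) (k + 1)) -
      Gen (E.filter (fun p => ¬ p ≤ Nat.sqrt z)) τ (cX (2 * k + 1)) *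
      Gen (E.filter (fun p => p ≤ Nat.sqrt z)) τ (cP r (Nat.sqrt z) (k + 1)) := by
  rw [← Gen_split, ← Gen_split, ← Gen_sub]
  rfl

/-- every element lies in one of the levels -/
def Lev (r z : ℕ) (E : Finset ℕ) : Prop := ∀ p ∈ E, Nat.sqrt^[r] z < p ∧ p ≤ z

lemma Lev_step (r z : ℕ) (E : Finset ℕ) (h : Lev (r + 1) z E) :
    Lev r (Nat.sqrt z) (E.filter (fun p => p ≤ Nat.sqrt z)) := by
  intro p hp
  rw [mem_filter] at hp
  have h1 := (h p hp.1).1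
  rw [Function.iterate_succ_apply] at h1
  exact ⟨h1, hp.2⟩

lemma Lev_zero (z : ℕ) (E : Finset ℕ) (h : Lev 0 z E) : E = ∅ := by
  rw [Finset.eq_empty_iff_forall_notMem]
  intro p hp
  have h1 := h p hp
  rw [Function.iterate_zero_apply] at h1
  omega

lemma prod_split (E : Finset ℕ) (τ : ℕ → ℝ) (t : ℕ) :
    ∏ p ∈ E, (1 - τ p) = (∏ p ∈ E.filter (fun p => ¬ p ≤ t), (1 - τ p)) *
      ∏ p ∈ E.filter (fun p => p ≤ t), (1 - τ p) := by
  rw [mul_comm, Finset.prod_filter_mul_prod_filter_not]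

theorem Gen_cP_ge (τ : ℕ → ℝ) : ∀ (r z k : ℕ) (E : Finset ℕ), Lev r z E →
    (∀ p ∈ E, 0 ≤ τ p ∧ τ p ≤ 1) → ∏ p ∈ E, (1 - τ p) ≤ Gen E τ (cP r z k) := by
  intro r
  induction r with
  | zero =>
    intro z k E hE _
    rw [Lev_zero z E hE]
    simp [Gen, cP]
  | succ r ih =>
    intro z k E hE hτ
    rw [Gen_cP_step, prod_split E τ (Nat.sqrt z)]
    have h1 : ∀ p ∈ E.filter (fun p => ¬ p ≤ Nat.sqrt z), 0 ≤ τ p ∧ τ p ≤ 1 :=
      fun p hp => hτ p (mem_filter.1 hp).1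
    have h2 : ∀ p ∈ E.filter (fun p => p ≤ Nat.sqrt z), 0 ≤ τ p ∧ τ p ≤ 1 :=
      fun p hp => hτ p (mem_filter.1 hp).1
    have h3 := ih (Nat.sqrt z) (k + 1) _ (Lev_step r z E hE) h2
    have h4 := (Gen_alt τ _ h1 (2 * k)).1 (by simp)
    have h5 := prod_nonneg' _ τ h1
    have h6 := prod_nonneg' _ τ h2
    exact mul_le_mul h4 h3 h6 (h5.trans h4)

theorem Gen_cQ_le (τ : ℕ → ℝ) : ∀ (r z k : ℕ) (E : Finset ℕ), Lev r z E →
    (∀ p ∈ E, 0 ≤ τ p ∧ τ p ≤ 1) → Gen E τ (cQ r z k) ≤ ∏ p ∈ E, (1 - τ p) := by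
  intro r
  induction r with
  | zero =>
    intro z k E hE _
    rw [Lev_zero z E hE]
    simp [Gen, cQ]
  | succ r ih =>
    intro z k E hE hτ
    rw [Gen_cQ_step, prod_split E τ (Nat.sqrt z)]
    have h1 : ∀ p ∈ E.filter (fun p => ¬ p ≤ Nat.sqrt z), 0 ≤ τ p ∧ τ p ≤ 1 :=
      fun p hp => hτ p (mem_filter.1 hp).1
    have h2 : ∀ p ∈ E.filter (fun p => p ≤ Nat.sqrt z), 0 ≤ τ p ∧ τ p ≤ 1 :=
      fun p hp => hτ p (mem_filter.1 hp).1
    have h3 := ih (Nat.sqrt z) (k + 1) _ (Lev_step r z E hE) h2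
    have h3' := Gen_cP_ge τ r (Nat.sqrt z) (k + 1) _ (Lev_step r z E hE) h2
    have h4 := (Gen_alt τ _ h1 (2 * k)).1 (by simp)
    have h4' := Gen_up τ _ h1 k
    have h5 := prod_nonneg' _ τ h1
    have h6 := prod_nonneg' _ τ h2
    have h7 := Gen_cX_nonneg τ _ (fun p hp => (h1 p hp).1) (2 * k + 1)
    have h8 := mul_le_mul_of_nonneg_left h3 (h5.trans h4)
    have h9 := mul_le_mul_of_nonneg_left h3' h7
    have h10 := mul_le_mul_of_nonneg_right h4' h6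
    linarith

lemma eta_bound : ∀ k : ℕ, 3 ≤ k →
    21 * (3 / 2 : ℝ) ^ (2 * k + 1) * 2 ^ k ≤ 2 * (2 * k + 1).factorial := by
  intro k hk
  induction k, hk using Nat.le_induction with
  | base => norm_num [Nat.factorial]
  | succ k hk ih =>
    have h1 : ((2 * (k + 1) + 1).factorial : ℝ) =
        (2 * k + 3) * ((2 * k + 2) * (2 * k + 1).factorial) := by
      have h2 : 2 * (k + 1) + 1 = (2 * k + 1) + 1 + 1 := by ring
      rw [h2, Nat.factorial_succ, Nat.factorial_succ]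
      push_cast
      ring
    have h3 : 21 * (3 / 2 : ℝ) ^ (2 * (k + 1) + 1) * 2 ^ (k + 1) =
        (9 / 2) * (21 * (3 / 2 : ℝ) ^ (2 * k + 1) * 2 ^ k) := by
      have h4 : 2 * (k + 1) + 1 = (2 * k + 1) + 2 := by ring
      rw [h4, pow_add, pow_succ]
      ring
    rw [h1, h3]
    have hk3 : (3 : ℝ) ≤ k := by exact_mod_cast hk
    have h5 : (0 : ℝ) < (2 * k + 1).factorial := by exact_mod_cast Nat.factorial_pos _
    have h6 : (9 / 2 : ℝ) ≤ (2 * k + 3) * (2 * k + 2) := by nlinarith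
    calc (9 / 2 : ℝ) * (21 * (3 / 2 : ℝ) ^ (2 * k + 1) * 2 ^ k)
        ≤ (9 / 2) * (2 * (2 * k + 1).factorial) := by
          apply mul_le_mul_of_nonneg_left ih (by norm_num)
      _ ≤ ((2 * k + 3) * (2 * k + 2)) * (2 * (2 * k + 1).factorial) :=
          mul_le_mul_of_nonneg_right h6 (by positivity)
      _ = _ := by ring

lemma one_sub_ge (t : ℝ) (h0 : 0 ≤ t) (h1 : t ≤ 1 / 2) : Real.exp (-(2 * t)) ≤ 1 - t := by
  have h2 : (1 : ℝ) + 2 * t ≤ Real.exp (2 * t) := by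
    have := Real.add_one_le_exp (2 * t)
    linarith
  have h3 : 0 < 1 + 2 * t := by linarith
  rw [Real.exp_neg]
  have h4 : (Real.exp (2 * t))⁻¹ ≤ (1 + 2 * t)⁻¹ := inv_anti₀ h3 h2
  refine h4.trans ?_
  rw [inv_le_iff_one_le_mul₀ h3]
  nlinarith

lemma prod_exp_ge (E : Finset ℕ) (τ : ℕ → ℝ) (hτ : ∀ p ∈ E, 0 ≤ τ p ∧ τ p ≤ 1 / 2)
    (hs : ∑ p ∈ E, τ p ≤ 3 / 2) : 1 / 21 ≤ ∏ p ∈ E, (1 - τ p) := by
  have h1 : ∏ p ∈ E, Real.exp (-(2 * τ p)) ≤ ∏ p ∈ E, (1 - τ p) :=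
    Finset.prod_le_prod (fun p _ => (Real.exp_pos _).le)
      (fun p hp => one_sub_ge (τ p) (hτ p hp).1 (hτ p hp).2)
  refine le_trans ?_ h1
  rw [← Real.exp_sum]
  have h2 : -3 ≤ ∑ p ∈ E, (-(2 * τ p)) := by
    rw [Finset.sum_neg_distrib, ← Finset.mul_sum]
    linarith
  refine le_trans ?_ (Real.exp_le_exp.2 h2)
  rw [Real.exp_neg, one_div]
  apply inv_anti₀ (Real.exp_pos _)
  have h3 := Real.exp_one_lt_d9
  have h4 : Real.exp 3 = Real.exp 1 ^ 3 := by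
    rw [← Real.exp_nat_mul]
    norm_num
  rw [h4]
  calc Real.exp 1 ^ 3 ≤ (2.7182818286 : ℝ) ^ 3 := by
        apply pow_le_pow_left₀ (Real.exp_pos 1).le h3.le
    _ ≤ 21 := by norm_num

theorem model_ge (τ : ℕ → ℝ) : ∀ (r z k : ℕ) (E : Finset ℕ), 3 ≤ k → Lev r z E →
    (∀ p ∈ E, 0 ≤ τ p ∧ τ p ≤ 1 / 2) →
    (∀ t : ℕ, ∑ p ∈ E.filter (fun p => Nat.sqrt t < p ∧ p ≤ t), τ p ≤ 3 / 2) →
    (1 - 4 / 2 ^ k) * Gen E τ (cP r z k) ≤ Gen E τ (cQ r z k) := by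
  intro r
  induction r with
  | zero =>
    intro z k E _ hE _ _
    rw [Lev_zero z E hE]
    have h1 : Gen ∅ τ (cP 0 z k) = 1 := by simp [Gen, cP]
    have h2 : Gen ∅ τ (cQ 0 z k) = 1 := by simp [Gen, cQ]
    rw [h1, h2, mul_one]
    have : (0 : ℝ) < 4 / 2 ^ k := by positivity
    linarith
  | succ r ih =>
    intro z k E hk hE hτ hb
    rw [Gen_cP_step, Gen_cQ_step]
    obtain ⟨F, hF⟩ : ∃ F, F = E.filter (fun p => ¬ p ≤ Nat.sqrt z) := ⟨_, rfl⟩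
    obtain ⟨G, hG⟩ : ∃ G, G = E.filter (fun p => p ≤ Nat.sqrt z) := ⟨_, rfl⟩
    rw [← hF, ← hG]
    have hF1 : ∀ p ∈ F, 0 ≤ τ p ∧ τ p ≤ 1 / 2 := fun p hp => by
      rw [hF] at hp
      exact hτ p (mem_filter.1 hp).1
    have hG1 : ∀ p ∈ G, 0 ≤ τ p ∧ τ p ≤ 1 / 2 := fun p hp => by
      rw [hG] at hp
      exact hτ p (mem_filter.1 hp).1
    have hF2 : ∀ p ∈ F, 0 ≤ τ p ∧ τ p ≤ 1 := fun p hp =>
      ⟨(hF1 p hp).1, (hF1 p hp).2.trans (by norm_num)⟩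
    have hG2 : ∀ p ∈ G, 0 ≤ τ p ∧ τ p ≤ 1 := fun p hp =>
      ⟨(hG1 p hp).1, (hG1 p hp).2.trans (by norm_num)⟩
    have hLG : Lev r (Nat.sqrt z) G := by
      rw [hG]
      exact Lev_step r z E hE
    have hbG : ∀ t : ℕ, ∑ p ∈ G.filter (fun p => Nat.sqrt t < p ∧ p ≤ t), τ p ≤ 3 / 2 := by
      intro t
      refine le_trans ?_ (hb t)
      apply Finset.sum_le_sum_of_subset_of_nonneg
      · intro p hp
        rw [mem_filter, hG, mem_filter] at hp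
        rw [mem_filter]
        exact ⟨hp.1.1, hp.2⟩
      · intro p hp _
        exact (hτ p (mem_filter.1 hp).1).1
    have hsF : ∑ p ∈ F, τ p ≤ 3 / 2 := by
      refine le_trans (le_of_eq ?_) (hb z)
      apply Finset.sum_congr _ (fun _ _ => rfl)
      rw [hF]
      ext p
      rw [mem_filter, mem_filter, not_le]
      constructor
      · rintro ⟨h1, h2⟩
        exact ⟨h1, h2, (hE p h1).2⟩
      · rintro ⟨h1, h2, -⟩
        exact ⟨h1, h2⟩
    have h1 := ih (Nat.sqrt z) (k + 1) G (by omega) hLG hG1 hbG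
    have h2 := Gen_cP_ge τ r (Nat.sqrt z) (k + 1) G hLG hG2
    have h3 := prod_nonneg' G τ hG2
    have h4 := (Gen_alt τ F hF2 (2 * k)).1 (by simp)
    have h5 := prod_exp_ge F τ hF1 hsF
    have h6 := Gen_cX_le τ F (fun p hp => (hF1 p hp).1) (2 * k + 1)
    have hs0 : 0 ≤ ∑ p ∈ F, τ p := Finset.sum_nonneg fun p hp => (hF1 p hp).1
    have hf0 : (0 : ℝ) < (2 * k + 1).factorial := by exact_mod_cast Nat.factorial_pos _
    have h7 : (∑ p ∈ F, τ p) ^ (2 * k + 1) / ((2 * k + 1).factorial : ℝ) ≤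
        2 / 2 ^ k * ∏ p ∈ F, (1 - τ p) := by
      have h8 : (∑ p ∈ F, τ p) ^ (2 * k + 1) ≤ (3 / 2 : ℝ) ^ (2 * k + 1) :=
        pow_le_pow_left₀ hs0 hsF _
      have h9 := eta_bound k hk
      rw [div_le_iff₀ hf0]
      have h10 : (3 / 2 : ℝ) ^ (2 * k + 1) ≤
          2 / 2 ^ k * (1 / 21) * ((2 * k + 1).factorial : ℝ) := by
        have h11 : 2 / 2 ^ k * (1 / 21) * ((2 * k + 1).factorial : ℝ) =
            (2 * ((2 * k + 1).factorial : ℝ)) / (21 * 2 ^ k) := by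
          field_simp
        rw [h11, le_div_iff₀ (by positivity)]
        linarith
      refine h8.trans (h10.trans ?_)
      apply mul_le_mul_of_nonneg_right _ hf0.le
      exact mul_le_mul_of_nonneg_left h5 (by positivity)
    obtain ⟨U, hU⟩ : ∃ U, U = Gen F τ (cU (2 * k)) := ⟨_, rfl⟩
    obtain ⟨X, hX⟩ : ∃ X, X = Gen F τ (cX (2 * k + 1)) := ⟨_, rfl⟩
    obtain ⟨P, hP⟩ : ∃ P, P = Gen G τ (cP r (Nat.sqrt z) (k + 1)) := ⟨_, rfl⟩
    obtain ⟨Q, hQ⟩ : ∃ Q, Q = Gen G τ (cQ r (Nat.sqrt z) (k + 1)) := ⟨_, rfl⟩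
    rw [← hU] at h4
    rw [← hX] at h6
    rw [← hP] at h2
    rw [← hP, ← hQ] at h1
    rw [← hU, ← hX, ← hP, ← hQ]
    have hP0 : 0 ≤ P := h3.trans h2
    have hA0 : 0 ≤ ∏ p ∈ F, (1 - τ p) := le_trans (by norm_num) h5
    have hU0 : 0 ≤ U := hA0.trans h4
    have h12 : X ≤ 2 / 2 ^ k * U := h6.trans (h7.trans
      (mul_le_mul_of_nonneg_left h4 (by positivity)))
    have h13 := mul_le_mul_of_nonneg_left h1 hU0
    have h14 := mul_le_mul_of_nonneg_right h12 hP0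
    have h15 : (4 : ℝ) / 2 ^ (k + 1) = 2 / 2 ^ k := by
      rw [pow_succ]
      field_simp
      norm_num
    have h16 : (4 : ℝ) / 2 ^ k = 2 * (2 / 2 ^ k) := by ring
    rw [h15] at h13
    rw [h16]
    nlinarith

lemma abs_cU (J : ℕ) (S : Finset ℕ) : |cU J S| ≤ 1 := by
  unfold cU
  split_ifs
  · rw [abs_pow]
    simp
  · simp

lemma abs_cX (J : ℕ) (S : Finset ℕ) : |cX J S| ≤ 1 := by
  unfold cX
  split_ifs <;> simp

lemma abs_cP : ∀ (r z k : ℕ) (S : Finset ℕ), |cP r z k S| ≤ 1 := by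
  intro r
  induction r with
  | zero =>
    intro z k S
    simp [cP]
  | succ r ih =>
    intro z k S
    rw [cP, abs_mul]
    exact mul_le_one₀ (abs_cU _ _) (abs_nonneg _) (ih _ _ _)

lemma abs_cQ : ∀ (r z k : ℕ) (S : Finset ℕ), |cQ r z k S| ≤ 1 + r := by
  intro r
  induction r with
  | zero =>
    intro z k S
    simp [cQ]
  | succ r ih =>
    intro z k S
    rw [cQ]
    refine (abs_sub _ _).trans ?_
    rw [abs_mul, abs_mul]
    have h1 := mul_le_mul (abs_cU (2 * k) (S.filter (fun p => ¬ p ≤ Nat.sqrt z)))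
      (ih (Nat.sqrt z) (k + 1) (S.filter (fun p => p ≤ Nat.sqrt z))) (abs_nonneg _) zero_le_one
    have h2 := mul_le_mul (abs_cX (2 * k + 1) (S.filter (fun p => ¬ p ≤ Nat.sqrt z)))
      (abs_cP r (Nat.sqrt z) (k + 1) (S.filter (fun p => p ≤ Nat.sqrt z))) (abs_nonneg _)
      zero_le_one
    push_cast
    linarith

theorem supp : ∀ (r z k : ℕ) (S : Finset ℕ), 1 ≤ z → Lev r z S →
    (cP r z k S ≠ 0 ∨ cQ r z k S ≠ 0) → ∏ p ∈ S, p ≤ z ^ (4 * k + 6) := by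
  intro r
  induction r with
  | zero =>
    intro z k S hz hS _
    rw [Lev_zero z S hS, Finset.prod_empty]
    exact Nat.one_le_pow _ _ hz
  | succ r ih =>
    intro z k S hz hS h
    obtain ⟨F, hF⟩ : ∃ F, F = S.filter (fun p => ¬ p ≤ Nat.sqrt z) := ⟨_, rfl⟩
    obtain ⟨G, hG⟩ : ∃ G, G = S.filter (fun p => p ≤ Nat.sqrt z) := ⟨_, rfl⟩
    rw [cP, cQ, ← hF, ← hG] at h
    have hcard : F.card ≤ 2 * k + 1 := by
      by_contra hcon
      have h1 : cU (2 * k) F = 0 := by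
        unfold cU
        rw [if_neg (by omega)]
      have h2 : cX (2 * k + 1) F = 0 := by
        unfold cX
        rw [if_neg (by omega)]
      rw [h1, h2] at h
      simp at h
    have hor : cP r (Nat.sqrt z) (k + 1) G ≠ 0 ∨ cQ r (Nat.sqrt z) (k + 1) G ≠ 0 := by
      by_contra hcon
      push Not at hcon
      rw [hcon.1, hcon.2] at h
      simp at h
    have hs : 1 ≤ Nat.sqrt z := by
      rw [Nat.le_sqrt]
      omega
    have hLG : Lev r (Nat.sqrt z) G := by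
      rw [hG]
      exact Lev_step r z S hS
    have h1 := ih (Nat.sqrt z) (k + 1) G hs hLG hor
    have h2 : ∏ p ∈ F, p ≤ z ^ (2 * k + 1) := by
      calc ∏ p ∈ F, p ≤ z ^ F.card := by
            apply Finset.prod_le_pow_card
            intro p hp
            rw [hF] at hp
            exact (hS p (mem_filter.1 hp).1).2
        _ ≤ z ^ (2 * k + 1) := Nat.pow_le_pow_right hz hcard
    have h3 : (Nat.sqrt z) ^ (4 * (k + 1) + 6) ≤ z ^ (2 * k + 5) := by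
      have h4 : 4 * (k + 1) + 6 = 2 * (2 * k + 5) := by ring
      rw [h4, pow_mul]
      exact Nat.pow_le_pow_left (Nat.sqrt_le' z) _
    have h4 : ∏ p ∈ S, p = (∏ p ∈ F, p) * ∏ p ∈ G, p := by
      rw [hF, hG, mul_comm, Finset.prod_filter_mul_prod_filter_not]
    rw [h4]
    calc (∏ p ∈ F, p) * ∏ p ∈ G, p ≤ z ^ (2 * k + 1) * z ^ (2 * k + 5) :=
          Nat.mul_le_mul h2 (h1.trans h3)
      _ = z ^ (4 * k + 6) := by
          rw [← pow_add]
          congr 1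
          ring

lemma levels : ∀ r n : ℕ, Nat.sqrt^[r] n ≤ 3 ∨ Nat.sqrt^[r] n * 2 ^ r ≤ n := by
  intro r
  induction r with
  | zero =>
    intro n
    right
    simp
  | succ r ih =>
    intro n
    rw [Function.iterate_succ_apply']
    obtain ⟨m, hm⟩ : ∃ m, m = Nat.sqrt^[r] n := ⟨_, rfl⟩
    have h := ih n
    rw [← hm] at h ⊢
    by_cases h3 : m ≤ 3
    · left
      have := Nat.sqrt_le_self m
      omega
    · right
      rcases h with h | h
      · exact absurd h h3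
      · have h1 := Nat.sqrt_le m
        have h2 : 2 ≤ Nat.sqrt m := by
          rw [Nat.le_sqrt]
          omega
        have h4 : Nat.sqrt m * 2 ≤ m := by nlinarith
        calc Nat.sqrt m * 2 ^ (r + 1) = (Nat.sqrt m * 2) * 2 ^ r := by ring
          _ ≤ m * 2 ^ r := Nat.mul_le_mul_right _ h4
          _ ≤ n := h

lemma levels_log (n : ℕ) (hn : 1 ≤ n) : Nat.sqrt^[Nat.log 2 n + 1] n ≤ 3 := by
  rcases levels (Nat.log 2 n + 1) n with h | h
  · exact h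
  · have h1 := Nat.lt_pow_succ_log_self (show 1 < 2 by norm_num) n
    have h2 : Nat.sqrt^[Nat.log 2 n + 1] n = 0 := by
      by_contra hne
      have h3 : 1 ≤ Nat.sqrt^[Nat.log 2 n + 1] n := Nat.one_le_iff_ne_zero.2 hne
      have h4 : 1 * 2 ^ (Nat.log 2 n + 1) ≤ Nat.sqrt^[Nat.log 2 n + 1] n * 2 ^ (Nat.log 2 n + 1) :=
        Nat.mul_le_mul_right _ h3
      rw [Nat.succ_eq_add_one] at h1
      omega
    omega

end Pool.Agent.Lib.MP_2a99c0_nt.H73
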