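import Pool.Agent.Lib.MP_2a99c0_nt.H73.G
import Pool.Agent.Lib.MP_6bc78b_nt.LS.Out
import Pool.Agent.Lib.MP_6bc78b_nt.LS.Decomp
import Pool.Agent.Lib.MP_6bc78b_nt.LS.PV
import Pool.Agent.Lib.MP_6bc78b_nt.MS.P2.H18.ABL
import Pool.Agent.Lib.MP_6bc78b_nt.MS.P2.H94.Vau

/-!
# Sums of characters with the smooth weight: large sieve, sums of type I and II
-/

set_option autoImplicit false

namespace Pool.Agent.Lib.MP_2a99c0_nt.H73

open Finset Pool.Agent.Lib.MP_6bc78b_nt.LS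
open scoped Classical

/-- bilinear large sieve with the weights `q / φ(q)` -/
theorem bil_w (Q U V : ℕ) (a b : ℕ → ℂ) :
    ∑ q ∈ Icc 1 Q, (q : ℝ) / q.totient * primSum q (fun χ =>
        ‖∑ u ∈ Icc 1 U, a u * χ (u : ZMod q)‖ * ‖∑ v ∈ Icc 1 V, b v * χ (v : ZMod q)‖) ≤
      26 * Real.sqrt (((U : ℝ) + (Q : ℝ) ^ 2) * ((V : ℝ) + (Q : ℝ) ^ 2)) *
        Real.sqrt ((∑ u ∈ Icc 1 U, ‖a u‖ ^ 2) * ∑ v ∈ Icc 1 V, ‖b v‖ ^ 2) := by
  set F : ∀ q : ℕ, DirichletCharacter ℂ q → ℝ :=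
    fun q χ => ‖∑ u ∈ Icc 1 U, a u * χ (u : ZMod q)‖ with hF
  set G : ∀ q : ℕ, DirichletCharacter ℂ q → ℝ :=
    fun q χ => ‖∑ v ∈ Icc 1 V, b v * χ (v : ZMod q)‖ with hG
  set X : ℕ → ℝ := fun q => Real.sqrt ((q : ℝ) / q.totient * primSum q (fun χ => F q χ ^ 2)) with hX
  set Y : ℕ → ℝ := fun q => Real.sqrt ((q : ℝ) / q.totient * primSum q (fun χ => G q χ ^ 2)) with hY
  have hterm : ∀ q ∈ Icc 1 Q, (q : ℝ) / q.totient * primSum q (fun χ => F q χ * G q χ) ≤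
      X q * Y q := by
    intro q _
    have hA : 0 ≤ primSum q (fun χ => F q χ ^ 2) := primSum_nonneg _ _ (fun _ => by positivity)
    have hw : (0 : ℝ) ≤ (q : ℝ) / q.totient := by positivity
    simp only [hX, hY]
    rw [← Real.sqrt_mul (mul_nonneg hw hA)]
    apply Real.le_sqrt_of_sq_le
    have h1 := primSum_cauchy q (F q) (G q)
    calc ((q : ℝ) / q.totient * primSum q (fun χ => F q χ * G q χ)) ^ 2
        = ((q : ℝ) / q.totient) ^ 2 * (primSum q (fun χ => F q χ * G q χ)) ^ 2 := by ring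
      _ ≤ ((q : ℝ) / q.totient) ^ 2 * (primSum q (fun χ => F q χ ^ 2) *
          primSum q (fun χ => G q χ ^ 2)) := mul_le_mul_of_nonneg_left h1 (by positivity)
      _ = _ := by ring
  refine le_trans (Finset.sum_le_sum hterm) ?_
  have hcs := Finset.sum_mul_sq_le_sq_mul_sq (Icc 1 Q) X Y
  have hXs : ∑ q ∈ Icc 1 Q, X q ^ 2 ≤ 26 * ((U : ℝ) + (Q : ℝ) ^ 2) * ∑ u ∈ Icc 1 U, ‖a u‖ ^ 2 := by
    refine le_trans (le_of_eq ?_) (large_sieve_Icc Q U a)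
    refine Finset.sum_congr rfl (fun q _ => ?_)
    simp only [hX]
    rw [Real.sq_sqrt (mul_nonneg (by positivity) (primSum_nonneg _ _ (fun _ => by positivity)))]
  have hYs : ∑ q ∈ Icc 1 Q, Y q ^ 2 ≤ 26 * ((V : ℝ) + (Q : ℝ) ^ 2) * ∑ v ∈ Icc 1 V, ‖b v‖ ^ 2 := by
    refine le_trans (le_of_eq ?_) (large_sieve_Icc Q V b)
    refine Finset.sum_congr rfl (fun q _ => ?_)
    simp only [hY]
    rw [Real.sq_sqrt (mul_nonneg (by positivity) (primSum_nonneg _ _ (fun _ => by positivity)))]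
  rw [mul_assoc, ← Real.sqrt_mul (by positivity)]
  have h26 : (26 : ℝ) = Real.sqrt (26 * 26) := by rw [Real.sqrt_mul_self (by norm_num)]
  rw [h26, ← Real.sqrt_mul (by norm_num)]
  apply Real.le_sqrt_of_sq_le
  refine le_trans hcs ?_
  have hX0 : 0 ≤ ∑ q ∈ Icc 1 Q, X q ^ 2 := Finset.sum_nonneg (fun _ _ => by positivity)
  have hY0 : 0 ≤ ∑ q ∈ Icc 1 Q, Y q ^ 2 := Finset.sum_nonneg (fun _ _ => by positivity)
  calc (∑ q ∈ Icc 1 Q, X q ^ 2) * (∑ q ∈ Icc 1 Q, Y q ^ 2) ≤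
      (26 * ((U : ℝ) + (Q : ℝ) ^ 2) * ∑ u ∈ Icc 1 U, ‖a u‖ ^ 2) *
      (26 * ((V : ℝ) + (Q : ℝ) ^ 2) * ∑ v ∈ Icc 1 V, ‖b v‖ ^ 2) := by gcongr
    _ = _ := by ring

/-- the sum over large conductors -/
noncomputable def LQ (Q₁ D : ℕ) (T : ∀ q : ℕ, DirichletCharacter ℂ q → ℝ) : ℝ :=
  ∑ q ∈ Ioc Q₁ D, 1 / (q.totient : ℝ) * primSum q (T q)

lemma LQ_mono (Q₁ D : ℕ) (T T' : ∀ q : ℕ, DirichletCharacter ℂ q → ℝ)
    (h : ∀ q : ℕ, q ∈ Ioc Q₁ D → ∀ χ : DirichletCharacter ℂ q, χ.IsPrimitive → T q χ ≤ T' q χ) :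
    LQ Q₁ D T ≤ LQ Q₁ D T' := by
  unfold LQ
  apply Finset.sum_le_sum
  intro q hq
  exact mul_le_mul_of_nonneg_left (primSum_mono q _ _ (h q hq)) (by positivity)

lemma LQ_add (Q₁ D : ℕ) (T T' : ∀ q : ℕ, DirichletCharacter ℂ q → ℝ) :
    LQ Q₁ D (fun q χ => T q χ + T' q χ) = LQ Q₁ D T + LQ Q₁ D T' := by
  unfold LQ
  rw [← Finset.sum_add_distrib]
  apply Finset.sum_congr rfl
  intro q _
  rw [primSum_add]
  ring

lemma LQ_sum {ι : Type*} (s : Finset ι) (Q₁ D : ℕ)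
    (T : ι → ∀ q : ℕ, DirichletCharacter ℂ q → ℝ) :
    LQ Q₁ D (fun q χ => ∑ i ∈ s, T i q χ) = ∑ i ∈ s, LQ Q₁ D (T i) := by
  induction s using Finset.induction_on with
  | empty =>
    simp only [Finset.sum_empty]
    unfold LQ primSum
    simp
  | insert i s hi ih =>
    simp only [Finset.sum_insert hi]
    rw [LQ_add, ih]

lemma LQ_mul (Q₁ D : ℕ) (c : ℝ) (T : ∀ q : ℕ, DirichletCharacter ℂ q → ℝ) :
    LQ Q₁ D (fun q χ => T q χ * c) = LQ Q₁ D T * c := by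
  unfold LQ
  rw [Finset.sum_mul]
  apply Finset.sum_congr rfl
  intro q _
  have h1 : primSum q (fun χ => T q χ * c) = c * primSum q (T q) := by
    rw [← primSum_const_mul]
    congr 1
    ext χ
    ring
  rw [h1]
  ring

/-- products of two sums of lengths at least `D ^ 2` -/
theorem LQ_prod (Q₁ D M K : ℕ) (hQ : 1 ≤ Q₁) (hM : D ^ 2 ≤ M) (hK : D ^ 2 ≤ K) (a b : ℕ → ℂ)
    (A B : ℝ) (hA : 0 ≤ A) (hB : 0 ≤ B) (ha : ∀ n, n ≤ M → ‖a n‖ ≤ A)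
    (hb : ∀ n, n ≤ K → ‖b n‖ ≤ B) :
    LQ Q₁ D (fun q χ => ‖∑ u ∈ Icc 1 M, a u * χ (u : ZMod q)‖ *
      ‖∑ v ∈ Icc 1 K, b v * χ (v : ZMod q)‖) ≤ 52 * (A * B) * (M * K) / Q₁ := by
  have hQ0 : (0 : ℝ) < Q₁ := by exact_mod_cast hQ
  set T : ∀ q : ℕ, DirichletCharacter ℂ q → ℝ := fun q χ =>
    ‖∑ u ∈ Icc 1 M, a u * χ (u : ZMod q)‖ * ‖∑ v ∈ Icc 1 K, b v * χ (v : ZMod q)‖ with hT
  have hT0 : ∀ q (χ : DirichletCharacter ℂ q), 0 ≤ T q χ := fun q χ => by positivity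
  have h1 : LQ Q₁ D T ≤ 1 / Q₁ * ∑ q ∈ Icc 1 D, (q : ℝ) / q.totient * primSum q (T q) := by
    unfold LQ
    rw [Finset.mul_sum]
    refine le_trans (Finset.sum_le_sum (g := fun q : ℕ =>
      1 / (Q₁ : ℝ) * ((q : ℝ) / q.totient * primSum q (T q))) ?_)
      (Finset.sum_le_sum_of_subset_of_nonneg ?_ ?_)
    · intro q hq
      rw [mem_Ioc] at hq
      have hq0 : 0 < q := by omega
      have hφ : (0 : ℝ) < q.totient := by exact_mod_cast Nat.totient_pos.2 hq0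
      have hp := primSum_nonneg q (T q) (hT0 q)
      have hqQ : (Q₁ : ℝ) ≤ q := by exact_mod_cast hq.1.le
      rw [← mul_assoc]
      apply mul_le_mul_of_nonneg_right _ hp
      rw [div_mul_div_comm, one_mul, div_le_div_iff₀ hφ (by positivity)]
      nlinarith
    · intro q hq
      rw [mem_Ioc] at hq
      rw [mem_Icc]
      omega
    · intro q _ _
      have hp := primSum_nonneg q (T q) (hT0 q)
      positivity
  refine h1.trans ?_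
  have h2 := bil_w D M K a b
  have h3 : ∑ u ∈ Icc 1 M, ‖a u‖ ^ 2 ≤ A ^ 2 * M := by
    have h4 : ∑ u ∈ Icc 1 M, ‖a u‖ ^ 2 ≤ (Icc 1 M).card • A ^ 2 := by
      apply Finset.sum_le_card_nsmul
      intro u hu
      exact pow_le_pow_left₀ (norm_nonneg _) (ha u (mem_Icc.1 hu).2) 2
    rw [nsmul_eq_mul, Nat.card_Icc, Nat.add_sub_cancel] at h4
    linarith
  have h3' : ∑ v ∈ Icc 1 K, ‖b v‖ ^ 2 ≤ B ^ 2 * K := by
    have h4 : ∑ v ∈ Icc 1 K, ‖b v‖ ^ 2 ≤ (Icc 1 K).card • B ^ 2 := by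
      apply Finset.sum_le_card_nsmul
      intro v hv
      exact pow_le_pow_left₀ (norm_nonneg _) (hb v (mem_Icc.1 hv).2) 2
    rw [nsmul_eq_mul, Nat.card_Icc, Nat.add_sub_cancel] at h4
    linarith
  have hM' : (D : ℝ) ^ 2 ≤ M := by exact_mod_cast hM
  have hK' : (D : ℝ) ^ 2 ≤ K := by exact_mod_cast hK
  have h4 : Real.sqrt (((M : ℝ) + (D : ℝ) ^ 2) * ((K : ℝ) + (D : ℝ) ^ 2)) ≤
      2 * Real.sqrt (M * K) := by
    have h5 : ((M : ℝ) + (D : ℝ) ^ 2) * ((K : ℝ) + (D : ℝ) ^ 2) ≤ 2 ^ 2 * (M * K) := by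
      calc ((M : ℝ) + (D : ℝ) ^ 2) * ((K : ℝ) + (D : ℝ) ^ 2) ≤ (2 * M) * (2 * K) := by
            apply mul_le_mul (by linarith) (by linarith) (by positivity) (by positivity)
        _ = 2 ^ 2 * (M * K) := by ring
    refine (Real.sqrt_le_sqrt h5).trans ?_
    rw [Real.sqrt_mul (by norm_num), Real.sqrt_sq (by norm_num)]
  have h5 : Real.sqrt ((∑ u ∈ Icc 1 M, ‖a u‖ ^ 2) * ∑ v ∈ Icc 1 K, ‖b v‖ ^ 2) ≤
      A * B * Real.sqrt (M * K) := by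
    have h6 : (∑ u ∈ Icc 1 M, ‖a u‖ ^ 2) * ∑ v ∈ Icc 1 K, ‖b v‖ ^ 2 ≤
        (A * B) ^ 2 * (M * K) := by
      calc (∑ u ∈ Icc 1 M, ‖a u‖ ^ 2) * ∑ v ∈ Icc 1 K, ‖b v‖ ^ 2 ≤ (A ^ 2 * M) * (B ^ 2 * K) := by
            apply mul_le_mul h3 h3' (Finset.sum_nonneg fun _ _ => by positivity) (by positivity)
        _ = (A * B) ^ 2 * (M * K) := by ring
    refine (Real.sqrt_le_sqrt h6).trans ?_
    rw [Real.sqrt_mul (by positivity), Real.sqrt_sq (by positivity)]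
  have h6 := Real.mul_self_sqrt (show (0 : ℝ) ≤ (M : ℝ) * K by positivity)
  have h7 : ∑ q ∈ Icc 1 D, (q : ℝ) / q.totient * primSum q (T q) ≤ 52 * (A * B) * (M * K) := by
    refine h2.trans ?_
    calc 26 * Real.sqrt (((M : ℝ) + (D : ℝ) ^ 2) * ((K : ℝ) + (D : ℝ) ^ 2)) *
        Real.sqrt ((∑ u ∈ Icc 1 M, ‖a u‖ ^ 2) * ∑ v ∈ Icc 1 K, ‖b v‖ ^ 2)
        ≤ 26 * (2 * Real.sqrt (M * K)) * (A * B * Real.sqrt (M * K)) := by gcongr
      _ = 52 * (A * B) * (Real.sqrt (M * K) * Real.sqrt (M * K)) := by ring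
      _ = 52 * (A * B) * (M * K) := by rw [h6]
  calc 1 / (Q₁ : ℝ) * ∑ q ∈ Icc 1 D, (q : ℝ) / q.totient * primSum q (T q)
      ≤ 1 / (Q₁ : ℝ) * (52 * (A * B) * (M * K)) := mul_le_mul_of_nonneg_left h7 (by positivity)
    _ = 52 * (A * B) * (M * K) / Q₁ := by ring

end Pool.Agent.Lib.MP_2a99c0_nt.H73
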