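import Pool.Agent.Lib.MP_2a99c0_nt.H73.Bva

/-!
# Sums of type I and II over large conductors
-/

set_option autoImplicit false

namespace Pool.Agent.Lib.MP_2a99c0_nt.H73

open Finset Pool.Agent.Lib.MP_6bc78b_nt.LS
open scoped Classical

lemma LQ_pair (Q₁ D M K x z : ℕ) (hQ : 1 ≤ Q₁) (hM : D ^ 2 ≤ M) (hK : D ^ 2 ≤ K)
    (hx : x ≤ 2 * M) (hz : z ≤ 2 * K) (a b : ℕ → ℂ)
    (A B : ℝ) (hA : 0 ≤ A) (hB : 0 ≤ B) (ha : ∀ n, ‖a n‖ ≤ A) (hb : ∀ n, ‖b n‖ ≤ B) :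
    LQ Q₁ D (fun q χ => ‖∑ y ∈ Ioc M x, a y * χ (y : ZMod q)‖ *
      ‖∑ y ∈ Ioc K z, b y * χ (y : ZMod q)‖) ≤ 208 * (A * B) * (M * K) / Q₁ := by
  have h1 : ∀ (N n : ℕ) (c : ℕ → ℂ) (q : ℕ) (χ : DirichletCharacter ℂ q), n ≤ 2 * N →
      ∑ y ∈ Ioc N n, c y * χ (y : ZMod q) =
      ∑ y ∈ Icc 1 (2 * N), (if N < y ∧ y ≤ n then c y else 0) * χ (y : ZMod q) := by
    intro N n c q χ hn
    have h2 : ∀ y : ℕ, (if N < y ∧ y ≤ n then c y else 0) * χ (y : ZMod q) =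
        if N < y ∧ y ≤ n then c y * χ (y : ZMod q) else 0 := by
      intro y
      split_ifs <;> simp
    simp_rw [h2]
    rw [← Finset.sum_filter]
    apply Finset.sum_congr _ (fun _ _ => rfl)
    ext y
    rw [mem_filter, mem_Ioc, mem_Icc]
    omega
  have h2 := LQ_prod Q₁ D (2 * M) (2 * K) hQ (by omega) (by omega)
    (fun y => if M < y ∧ y ≤ x then a y else 0) (fun y => if K < y ∧ y ≤ z then b y else 0)
    A B hA hB (by
      intro n _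
      beta_reduce
      split_ifs
      · exact ha n
      · rw [norm_zero]; exact hA) (by
      intro n _
      beta_reduce
      split_ifs
      · exact hb n
      · rw [norm_zero]; exact hB)
  have h3 : LQ Q₁ D (fun q χ => ‖∑ y ∈ Ioc M x, a y * χ (y : ZMod q)‖ *
      ‖∑ y ∈ Ioc K z, b y * χ (y : ZMod q)‖) = LQ Q₁ D (fun q χ =>
      ‖∑ u ∈ Icc 1 (2 * M), (if M < u ∧ u ≤ x then a u else 0) * χ (u : ZMod q)‖ *
      ‖∑ v ∈ Icc 1 (2 * K), (if K < v ∧ v ≤ z then b v else 0) * χ (v : ZMod q)‖) := by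
    congr 1
    ext q χ
    rw [h1 M x a q χ hx, h1 K z b q χ hz]
  rw [h3]
  refine h2.trans (le_of_eq ?_)
  push_cast
  ring

/-- one dyadic block -/
theorem block (Q₁ D M K : ℕ) (Z : ℝ) (hQ : 1 ≤ Q₁) (hD : 2 ≤ D) (hM : D ^ 2 ≤ M)
    (hK : D ^ 2 ≤ K) (hZ : 1 ≤ Z) (a b : ℕ → ℂ) (A B : ℝ) (hA : 0 ≤ A) (hB : 0 ≤ B)
    (ha : ∀ n, ‖a n‖ ≤ A) (hb : ∀ n, ‖b n‖ ≤ B) :
    LQ Q₁ D (fun q χ => ‖∑ x ∈ Ioc M (2 * M), ∑ z ∈ Ioc K (2 * K),
      (a x * χ (x : ZMod q)) * (b z * χ (z : ZMod q)) * ((GG ((x : ℝ) * z / Z) : ℝ) : ℂ)‖) ≤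
      4 * 10 ^ 11 * (A * B) * Z / Q₁ := by
  have hQ0 : (0 : ℝ) < Q₁ := by exact_mod_cast hQ
  have hZ0 : 0 < Z := by linarith
  have hM4 : (4 : ℝ) ≤ M := by
    have : 4 ≤ M := le_trans (by nlinarith) hM
    exact_mod_cast this
  have hK4 : (4 : ℝ) ≤ K := by
    have : 4 ≤ K := le_trans (by nlinarith) hK
    exact_mod_cast this
  by_cases hbig : 16 * Z ≤ (M : ℝ) * K
  · have h0 : LQ Q₁ D (fun q χ => ‖∑ x ∈ Ioc M (2 * M), ∑ z ∈ Ioc K (2 * K),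
        (a x * χ (x : ZMod q)) * (b z * χ (z : ZMod q)) * ((GG ((x : ℝ) * z / Z) : ℝ) : ℂ)‖) ≤
        LQ Q₁ D (fun _ _ => 0) := by
      apply LQ_mono
      intro q _ χ _
      rw [Finset.sum_eq_zero, norm_zero]
      intro x hx
      apply Finset.sum_eq_zero
      intro z hz
      rw [mem_Ioc] at hx hz
      have hx' : (M : ℝ) ≤ x := by exact_mod_cast hx.1.le
      have hz' : (K : ℝ) ≤ z := by exact_mod_cast hz.1.le
      rw [GG_zero_right, Complex.ofReal_zero, mul_zero]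
      rw [le_div_iff₀ hZ0]
      exact hbig.trans (mul_le_mul hx' hz' (by positivity) (by positivity))
    have h1 : LQ Q₁ D (fun _ _ => 0) = 0 := by
      unfold LQ primSum
      simp
    rw [h1] at h0
    exact h0.trans (by positivity)
  · push Not at hbig
    have hMZ : (M : ℝ) ≤ 4 * Z := by nlinarith
    have hKZ : (K : ℝ) ≤ 4 * Z := by nlinarith
    obtain ⟨W, hW⟩ : ∃ W : ℕ → ℕ → ℝ, W = fun x z : ℕ => GG ((x : ℝ) * (z : ℝ) / Z) := ⟨_, rfl⟩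
    obtain ⟨P, hP⟩ : ∃ P : ℕ → ℕ → ∀ q : ℕ, DirichletCharacter ℂ q → ℝ, P = fun x z q χ =>
      ‖∑ y ∈ Ioc M x, a y * χ (y : ZMod q)‖ * ‖∑ y ∈ Ioc K z, b y * χ (y : ZMod q)‖ := ⟨_, rfl⟩
    obtain ⟨Y, hY⟩ : ∃ Y : ℝ, Y = 208 * (A * B) * (M * K) / Q₁ := ⟨_, rfl⟩
    have hY0 : 0 ≤ Y := by rw [hY]; positivity
    have hPb : ∀ x z : ℕ, x ≤ 2 * M → z ≤ 2 * K → LQ Q₁ D (P x z) ≤ Y := by
      intro x z hx hz
      rw [hP, hY]
      exact LQ_pair Q₁ D M K x z hQ hM hK hx hz a b A B hA hB ha hb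
    have hfull : LQ Q₁ D (fun q χ => ‖∑ x ∈ Ioc M (2 * M), ∑ z ∈ Ioc K (2 * K),
        (a x * χ (x : ZMod q)) * (b z * χ (z : ZMod q)) * ((GG ((x : ℝ) * z / Z) : ℝ) : ℂ)‖) ≤
        LQ Q₁ D (fun q χ =>
          (P (2 * M) (2 * K) q χ * |W (2 * M + 1) (2 * K + 1)| +
          ∑ z ∈ Ioc K (2 * K), P (2 * M) z q χ * |W (2 * M + 1) (z + 1) - W (2 * M + 1) z|) +
          (∑ x ∈ Ioc M (2 * M), P x (2 * K) q χ * |W (x + 1) (2 * K + 1) - W x (2 * K + 1)| +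
          ∑ x ∈ Ioc M (2 * M), ∑ z ∈ Ioc K (2 * K), P x z q χ *
            |W (x + 1) (z + 1) - W (x + 1) z - W x (z + 1) + W x z|)) := by
      apply LQ_mono
      intro q _ χ _
      have h := Pool.Agent.Lib.MP_6bc78b_nt.MS.P2.H18.abl.2 M (2 * M) K (2 * K)
        (fun x => a x * χ (x : ZMod q)) (fun z => b z * χ (z : ZMod q)) W
      have e1 : ∑ x ∈ Ioc M (2 * M), ∑ z ∈ Ioc K (2 * K),
          (a x * χ (x : ZMod q)) * (b z * χ (z : ZMod q)) * ((GG ((x : ℝ) * z / Z) : ℝ) : ℂ) =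
          ∑ x ∈ Ioc M (2 * M), ∑ z ∈ Ioc K (2 * K),
          (a x * χ (x : ZMod q)) * (b z * χ (z : ZMod q)) * ((W x z : ℝ) : ℂ) := by
        rw [hW]
      rw [e1, hP]
      refine h.trans (le_of_eq ?_)
      ring
    refine hfull.trans ?_
    rw [LQ_add, LQ_add, LQ_add, LQ_sum, LQ_sum, LQ_sum]
    have hcM : ((2 * M + 1 : ℕ) : ℝ) ≤ 3 * M := by
      push_cast
      linarith
    have hcK : ((2 * K + 1 : ℕ) : ℝ) ≤ 3 * K := by
      push_cast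
      linarith
    have hMK0 : (0 : ℝ) ≤ (M : ℝ) * K := by positivity
    have hsum : ∀ x z : ℕ, x ≤ 2 * M → z ≤ 2 * K → ((x : ℝ) + 1) * (z + 1) ≤ 100 * Z := by
      intro x z hx hz
      have hx' : (x : ℝ) ≤ 2 * M := by exact_mod_cast hx
      have hz' : (z : ℝ) ≤ 2 * K := by exact_mod_cast hz
      calc ((x : ℝ) + 1) * (z + 1) ≤ (2 * M + 1) * (2 * K + 1) := by gcongr
        _ = 4 * (M * K) + 2 * M + 2 * K + 1 := by ring
        _ ≤ 100 * Z := by linarith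
    -- the four terms
    have t1 : LQ Q₁ D (fun q χ => P (2 * M) (2 * K) q χ * |W (2 * M + 1) (2 * K + 1)|) ≤
        Y * 60000 := by
      rw [LQ_mul Q₁ D _ (P (2 * M) (2 * K))]
      apply mul_le_mul (hPb _ _ le_rfl le_rfl) _ (abs_nonneg _) hY0
      rw [hW, abs_of_nonneg (GG_nonneg _)]
      exact GG_le _
    have t2 : ∑ z ∈ Ioc K (2 * K), LQ Q₁ D (fun q χ => P (2 * M) z q χ *
        |W (2 * M + 1) (z + 1) - W (2 * M + 1) z|) ≤ Y * (K * (400000 * (3 * M / Z))) := by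
      have h1 : ∀ z ∈ Ioc K (2 * K), LQ Q₁ D (fun q χ => P (2 * M) z q χ *
          |W (2 * M + 1) (z + 1) - W (2 * M + 1) z|) ≤ Y * (400000 * (3 * M / Z)) := by
        intro z hz
        rw [mem_Ioc] at hz
        rw [LQ_mul Q₁ D _ (P (2 * M) z)]
        apply mul_le_mul (hPb _ _ le_rfl hz.2) _ (abs_nonneg _) hY0
        rw [hW]
        have h2 := GG_lip (u := ((2 * M + 1 : ℕ) : ℝ) * z / Z) (a := ((2 * M + 1 : ℕ) : ℝ) / Z)
          (by positivity) (by positivity) (by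
            have h3 := hsum (2 * M) z le_rfl hz.2
            rw [← add_div, div_le_iff₀ hZ0]
            push_cast at h3 ⊢
            linarith)
        have h3 : ((2 * M + 1 : ℕ) : ℝ) * ((z + 1 : ℕ) : ℝ) / Z =
            ((2 * M + 1 : ℕ) : ℝ) * z / Z + ((2 * M + 1 : ℕ) : ℝ) / Z := by
          push_cast
          ring
        beta_reduce
        rw [h3]
        refine h2.trans ?_
        gcongr
      refine (Finset.sum_le_card_nsmul _ _ _ h1).trans (le_of_eq ?_)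
      rw [nsmul_eq_mul, Nat.card_Ioc, show 2 * K - K = K by omega]
      ring
    have t3 : ∑ x ∈ Ioc M (2 * M), LQ Q₁ D (fun q χ => P x (2 * K) q χ *
        |W (x + 1) (2 * K + 1) - W x (2 * K + 1)|) ≤ Y * (M * (400000 * (3 * K / Z))) := by
      have h1 : ∀ x ∈ Ioc M (2 * M), LQ Q₁ D (fun q χ => P x (2 * K) q χ *
          |W (x + 1) (2 * K + 1) - W x (2 * K + 1)|) ≤ Y * (400000 * (3 * K / Z)) := by
        intro x hx
        rw [mem_Ioc] at hx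
        rw [LQ_mul Q₁ D _ (P x (2 * K))]
        apply mul_le_mul (hPb _ _ hx.2 le_rfl) _ (abs_nonneg _) hY0
        rw [hW]
        have h2 := GG_lip (u := (x : ℝ) * ((2 * K + 1 : ℕ) : ℝ) / Z)
          (a := ((2 * K + 1 : ℕ) : ℝ) / Z) (by positivity) (by positivity) (by
            have h3 := hsum x (2 * K) hx.2 le_rfl
            rw [← add_div, div_le_iff₀ hZ0]
            push_cast at h3 ⊢
            linarith)
        have h3 : ((x + 1 : ℕ) : ℝ) * ((2 * K + 1 : ℕ) : ℝ) / Z =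
            (x : ℝ) * ((2 * K + 1 : ℕ) : ℝ) / Z + ((2 * K + 1 : ℕ) : ℝ) / Z := by
          push_cast
          ring
        beta_reduce
        rw [h3]
        refine h2.trans ?_
        gcongr
      refine (Finset.sum_le_card_nsmul _ _ _ h1).trans (le_of_eq ?_)
      rw [nsmul_eq_mul, Nat.card_Ioc, show 2 * M - M = M by omega]
      ring
    have t4 : ∑ x ∈ Ioc M (2 * M), LQ Q₁ D (fun q χ => ∑ z ∈ Ioc K (2 * K), P x z q χ *
        |W (x + 1) (z + 1) - W (x + 1) z - W x (z + 1) + W x z|) ≤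
        Y * (M * (K * (3000000 / Z))) := by
      have h1 : ∀ x ∈ Ioc M (2 * M), LQ Q₁ D (fun q χ => ∑ z ∈ Ioc K (2 * K), P x z q χ *
          |W (x + 1) (z + 1) - W (x + 1) z - W x (z + 1) + W x z|) ≤
          Y * (K * (3000000 / Z)) := by
        intro x hx
        rw [mem_Ioc] at hx
        rw [LQ_sum]
        have h2 : ∀ z ∈ Ioc K (2 * K), LQ Q₁ D (fun q χ => P x z q χ *
            |W (x + 1) (z + 1) - W (x + 1) z - W x (z + 1) + W x z|) ≤ Y * (3000000 / Z) := by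
          intro z hz
          rw [mem_Ioc] at hz
          rw [LQ_mul Q₁ D _ (P x z)]
          apply mul_le_mul (hPb _ _ hx.2 hz.2) _ (abs_nonneg _) hY0
          rw [hW]
          have hx' : (x : ℝ) ≤ 2 * M := by exact_mod_cast hx.2
          have hz' : (z : ℝ) ≤ 2 * K := by exact_mod_cast hz.2
          have h3 := GG_mixed Z x z hZ (by positivity) (by positivity)
            (hsum x z hx.2 hz.2) (by
              calc (x : ℝ) * z ≤ (2 * M) * (2 * K) := by gcongr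
                _ = 4 * (M * K) := by ring
                _ ≤ 64 * Z := by linarith)
          push_cast
          exact h3
        refine (Finset.sum_le_card_nsmul _ _ _ h2).trans (le_of_eq ?_)
        rw [nsmul_eq_mul, Nat.card_Ioc, show 2 * K - K = K by omega]
        ring
      refine (Finset.sum_le_card_nsmul _ _ _ h1).trans (le_of_eq ?_)
      rw [nsmul_eq_mul, Nat.card_Ioc, show 2 * M - M = M by omega]
      ring
    have hMKZ : (M : ℝ) * K / Z ≤ 16 := by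
      rw [div_le_iff₀ hZ0]
      exact hbig.le
    have hMKZ0 : 0 ≤ (M : ℝ) * K / Z := by positivity
    have htot : Y * 60000 + Y * (K * (400000 * (3 * M / Z))) +
        (Y * (M * (400000 * (3 * K / Z))) + Y * (M * (K * (3000000 / Z)))) ≤ Y * (10 ^ 8) := by
      have h1 : Y * 60000 + Y * (K * (400000 * (3 * M / Z))) +
        (Y * (M * (400000 * (3 * K / Z))) + Y * (M * (K * (3000000 / Z)))) =
        Y * (60000 + 5400000 * ((M : ℝ) * K / Z)) := by ring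
      rw [h1]
      apply mul_le_mul_of_nonneg_left _ hY0
      linarith
    refine (add_le_add (add_le_add t1 t2) (add_le_add t3 t4)).trans (htot.trans ?_)
    rw [hY]
    rw [div_mul_eq_mul_div, div_le_div_iff_of_pos_right hQ0]
    have hAB : 0 ≤ A * B := mul_nonneg hA hB
    nlinarith

lemma dyad (U : ℕ) (f : ℕ → ℂ) : ∀ n : ℕ,
    ∑ x ∈ Ioc U (U * 2 ^ n), f x = ∑ i ∈ range n, ∑ x ∈ Ioc (U * 2 ^ i) (2 * (U * 2 ^ i)), f x := by
  intro n
  induction n with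
  | zero => simp
  | succ n ih =>
    rw [Finset.sum_range_succ, ← ih, show U * 2 ^ (n + 1) = 2 * (U * 2 ^ n) by ring,
      Finset.sum_Ioc_consecutive]
    · exact Nat.le_mul_of_pos_right U (by positivity)
    · omega

/-- sums of type II -/
theorem type_two (Q₁ D U n : ℕ) (Z : ℝ) (hQ : 1 ≤ Q₁) (hD : 2 ≤ D) (hU : D ^ 2 ≤ U)
    (hZ : 1 ≤ Z) (a b : ℕ → ℂ) (A B : ℝ) (hA : 0 ≤ A) (hB : 0 ≤ B)
    (ha : ∀ n, ‖a n‖ ≤ A) (hb : ∀ n, ‖b n‖ ≤ B) :
    LQ Q₁ D (fun q χ => ‖∑ x ∈ Ioc U (U * 2 ^ n), ∑ z ∈ Ioc U (U * 2 ^ n),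
      (a x * χ (x : ZMod q)) * (b z * χ (z : ZMod q)) * ((GG ((x : ℝ) * z / Z) : ℝ) : ℂ)‖) ≤
      n ^ 2 * (4 * 10 ^ 11 * (A * B) * Z / Q₁) := by
  have h1 : LQ Q₁ D (fun q χ => ‖∑ x ∈ Ioc U (U * 2 ^ n), ∑ z ∈ Ioc U (U * 2 ^ n),
      (a x * χ (x : ZMod q)) * (b z * χ (z : ZMod q)) * ((GG ((x : ℝ) * z / Z) : ℝ) : ℂ)‖) ≤
      LQ Q₁ D (fun q χ => ∑ i ∈ range n, ∑ j ∈ range n,
        ‖∑ x ∈ Ioc (U * 2 ^ i) (2 * (U * 2 ^ i)), ∑ z ∈ Ioc (U * 2 ^ j) (2 * (U * 2 ^ j)),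
        (a x * χ (x : ZMod q)) * (b z * χ (z : ZMod q)) *
          ((GG ((x : ℝ) * z / Z) : ℝ) : ℂ)‖) := by
    apply LQ_mono
    intro q _ χ _
    rw [dyad U _ n]
    refine (norm_sum_le _ _).trans (Finset.sum_le_sum fun i _ => ?_)
    have h2 : ∀ x ∈ Ioc (U * 2 ^ i) (2 * (U * 2 ^ i)), ∑ z ∈ Ioc U (U * 2 ^ n),
        (a x * χ (x : ZMod q)) * (b z * χ (z : ZMod q)) * ((GG ((x : ℝ) * z / Z) : ℝ) : ℂ) =
        ∑ j ∈ range n, ∑ z ∈ Ioc (U * 2 ^ j) (2 * (U * 2 ^ j)),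
        (a x * χ (x : ZMod q)) * (b z * χ (z : ZMod q)) * ((GG ((x : ℝ) * z / Z) : ℝ) : ℂ) :=
      fun x _ => dyad U _ n
    rw [Finset.sum_congr rfl h2, Finset.sum_comm]
    exact norm_sum_le _ _
  refine h1.trans ?_
  rw [LQ_sum]
  have h2 : ∀ i ∈ range n, LQ Q₁ D (fun q χ => ∑ j ∈ range n,
        ‖∑ x ∈ Ioc (U * 2 ^ i) (2 * (U * 2 ^ i)), ∑ z ∈ Ioc (U * 2 ^ j) (2 * (U * 2 ^ j)),
        (a x * χ (x : ZMod q)) * (b z * χ (z : ZMod q)) *
          ((GG ((x : ℝ) * z / Z) : ℝ) : ℂ)‖) ≤ n * (4 * 10 ^ 11 * (A * B) * Z / Q₁) := by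
    intro i _
    rw [LQ_sum]
    have h3 : ∀ j ∈ range n, LQ Q₁ D (fun q χ =>
        ‖∑ x ∈ Ioc (U * 2 ^ i) (2 * (U * 2 ^ i)), ∑ z ∈ Ioc (U * 2 ^ j) (2 * (U * 2 ^ j)),
        (a x * χ (x : ZMod q)) * (b z * χ (z : ZMod q)) *
          ((GG ((x : ℝ) * z / Z) : ℝ) : ℂ)‖) ≤ 4 * 10 ^ 11 * (A * B) * Z / Q₁ := by
      intro j _
      apply block Q₁ D _ _ Z hQ hD _ _ hZ a b A B hA hB ha hb
      · exact hU.trans (Nat.le_mul_of_pos_right U (by positivity))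
      · exact hU.trans (Nat.le_mul_of_pos_right U (by positivity))
    refine (Finset.sum_le_card_nsmul _ _ _ h3).trans (le_of_eq ?_)
    rw [nsmul_eq_mul, card_range]
  refine (Finset.sum_le_card_nsmul _ _ _ h2).trans (le_of_eq ?_)
  rw [nsmul_eq_mul, card_range]
  ring

end Pool.Agent.Lib.MP_2a99c0_nt.H73
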