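import Pool.Agent.Lib.MP_2a99c0_nt.H73.Bvb

/-!
# Large conductors: assembly with Vaughan's identity
-/

set_option autoImplicit false

namespace Pool.Agent.Lib.MP_2a99c0_nt.H73

open Finset Pool.Agent.Lib.MP_6bc78b_nt.LS
open Pool.Agent.Lib.MP_6bc78b_nt.MS (La lg one)
open Pool.Agent.Lib.MP_6bc78b_nt.MS.P2 (lo hi mu)
open scoped Classical

lemma primSum_const (q : ℕ) (hq : 1 ≤ q) (c : ℝ) (hc : 0 ≤ c) :
    primSum q (fun _ => c) ≤ q.totient * c := by
  have : NeZero q := ⟨by omega⟩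
  unfold primSum
  have h1 : ∑ χ : DirichletCharacter ℂ q, (if χ.IsPrimitive then c else 0) ≤
      ∑ χ : DirichletCharacter ℂ q, c := by
    apply Finset.sum_le_sum
    intro χ _
    split_ifs
    · exact le_rfl
    · exact hc
  refine h1.trans (le_of_eq ?_)
  rw [Finset.sum_const, nsmul_eq_mul, Finset.card_univ, ← Nat.card_eq_fintype_card,
    DirichletCharacter.card_eq_totient_of_hasEnoughRootsOfUnity]

lemma pv_Ioc (q : ℕ) (hq : 1 < q) (χ : DirichletCharacter ℂ q) (h : χ.IsPrimitive) (N : ℕ) :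
    ‖∑ n ∈ Ioc 0 N, χ (n : ZMod q)‖ ≤ 2 * q := by
  have h1 : Ioc 0 N = Icc 1 N := by
    ext n
    rw [mem_Ioc, mem_Icc]
    omega
  rw [h1]
  refine (polya_vinogradov q hq χ h N).trans ?_
  have hq1 : (1 : ℝ) < q := by exact_mod_cast hq
  have hs := Real.mul_self_sqrt (show (0 : ℝ) ≤ q by linarith)
  have hs0 : 0 < Real.sqrt q := Real.sqrt_pos.2 (by linarith)
  have h2 : Real.log q ≤ 2 * (Real.sqrt q - 1) := by
    have h3 : Real.log q = 2 * Real.log (Real.sqrt q) := by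
      rw [Real.log_sqrt (by linarith)]
      ring
    rw [h3]
    have := Real.log_le_sub_one_of_pos hs0
    linarith
  nlinarith

/-- one inner sum of type I -/
lemma inner (q : ℕ) (hq : 1 < q) (χ : DirichletCharacter ℂ q) (hχ : χ.IsPrimitive) (N x : ℕ)
    (Z H : ℝ) (hZ : 1 ≤ Z) (hx : 1 ≤ x) (hxZ : (x : ℝ) ≤ Z) (h : ℕ → ℝ) (hH : 0 ≤ H)
    (hh1 : ∀ z, z ≤ N + 1 → |h z| ≤ H) (hh2 : ∑ z ∈ Ioc 0 N, |h (z + 1) - h z| ≤ H) :
    ‖∑ z ∈ Ioc 0 N, χ (z : ZMod q) * ((h z * GG ((x : ℝ) * z / Z) : ℝ) : ℂ)‖ ≤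
      2 * q * (6520000 * H) := by
  have hZ0 : 0 < Z := by linarith
  have hx0 : (0 : ℝ) < x := by exact_mod_cast hx
  obtain ⟨g, hg⟩ : ∃ g : ℕ → ℝ, g = fun z : ℕ => h z * GG ((x : ℝ) * (z : ℝ) / Z) := ⟨_, rfl⟩
  have h0 := Pool.Agent.Lib.MP_6bc78b_nt.MS.P2.H18.abl.1 0 N (fun z => χ (z : ZMod q)) g
  have e1 : ∑ z ∈ Ioc 0 N, χ (z : ZMod q) * ((h z * GG ((x : ℝ) * z / Z) : ℝ) : ℂ) =
      ∑ z ∈ Ioc 0 N, χ (z : ZMod q) * ((g z : ℝ) : ℂ) := by rw [hg]
  rw [e1]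
  refine h0.trans ?_
  have hpv := pv_Ioc q hq χ hχ
  have hq0 : (0 : ℝ) ≤ 2 * q := by positivity
  have t1 : ‖∑ y ∈ Ioc 0 N, χ (y : ZMod q)‖ * |g (N + 1)| ≤ 2 * q * (60000 * H) := by
    apply mul_le_mul (hpv N) _ (abs_nonneg _) hq0
    rw [hg]
    beta_reduce
    rw [abs_mul, abs_of_nonneg (GG_nonneg _)]
    have := hh1 (N + 1) le_rfl
    calc |h (N + 1)| * GG ((x : ℝ) * ((N + 1 : ℕ) : ℝ) / Z) ≤ H * 60000 :=
          mul_le_mul this (GG_le _) (GG_nonneg _) hH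
      _ = 60000 * H := by ring
  have t2 : ∑ z ∈ Ioc 0 N, ‖∑ y ∈ Ioc 0 z, χ (y : ZMod q)‖ * |g (z + 1) - g z| ≤
      2 * q * ∑ z ∈ Ioc 0 N, |g (z + 1) - g z| := by
    rw [Finset.mul_sum]
    apply Finset.sum_le_sum
    intro z _
    exact mul_le_mul_of_nonneg_right (hpv z) (abs_nonneg _)
  have t3 : ∑ z ∈ Ioc 0 N, |g (z + 1) - g z| ≤ 60000 * H + 6400000 * H := by
    have s1 : ∀ z ∈ Ioc 0 N, |g (z + 1) - g z| ≤ |h (z + 1) - h z| * 60000 +
        H * (if (x : ℝ) * z ≤ 16 * Z then 400000 * (x / Z) else 0) := by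
      intro z hz
      rw [mem_Ioc] at hz
      rw [hg]
      beta_reduce
      have e2 : h (z + 1) * GG ((x : ℝ) * ((z + 1 : ℕ) : ℝ) / Z) - h z * GG ((x : ℝ) * z / Z) =
          (h (z + 1) - h z) * GG ((x : ℝ) * ((z + 1 : ℕ) : ℝ) / Z) +
          h z * (GG ((x : ℝ) * ((z + 1 : ℕ) : ℝ) / Z) - GG ((x : ℝ) * z / Z)) := by ring
      rw [e2]
      refine (abs_add_le _ _).trans (add_le_add ?_ ?_)
      · rw [abs_mul, abs_of_nonneg (GG_nonneg _)]
        exact mul_le_mul_of_nonneg_left (GG_le _) (abs_nonneg _)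
      · rw [abs_mul]
        apply mul_le_mul (hh1 z (by omega)) _ (abs_nonneg _) hH
        split_ifs with hc
        · have h3 : (x : ℝ) * ((z + 1 : ℕ) : ℝ) / Z = (x : ℝ) * z / Z + x / Z := by
            push_cast
            ring
          rw [h3]
          apply GG_lip (by positivity) (by positivity)
          have h4 : (x : ℝ) * z / Z ≤ 16 := by
            rw [div_le_iff₀ hZ0]
            exact hc
          have h5 : (x : ℝ) / Z ≤ 1 := by
            rw [div_le_one hZ0]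
            exact hxZ
          linarith
        · push Not at hc
          rw [GG_zero_right, GG_zero_right, sub_zero, abs_zero]
          · rw [le_div_iff₀ hZ0]
            exact hc.le
          · rw [le_div_iff₀ hZ0]
            push_cast
            nlinarith
    refine (Finset.sum_le_sum s1).trans ?_
    rw [Finset.sum_add_distrib, ← Finset.sum_mul, ← Finset.mul_sum, ← Finset.sum_filter,
      Finset.sum_const, nsmul_eq_mul]
    have s2 : (((Ioc 0 N).filter (fun z : ℕ => (x : ℝ) * z ≤ 16 * Z)).card : ℝ) ≤ 16 * Z / x := by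
      have s3 : (Ioc 0 N).filter (fun z : ℕ => (x : ℝ) * z ≤ 16 * Z) ⊆ Ioc 0 ⌊16 * Z / x⌋₊ := by
        intro z hz
        rw [mem_filter, mem_Ioc] at hz
        rw [mem_Ioc]
        refine ⟨hz.1.1, Nat.le_floor ?_⟩
        rw [le_div_iff₀ hx0]
        linarith [hz.2]
      have s4 := Finset.card_le_card s3
      rw [Nat.card_Ioc, Nat.sub_zero] at s4
      have s5 : (((Ioc 0 N).filter (fun z : ℕ => (x : ℝ) * z ≤ 16 * Z)).card : ℝ) ≤
          (⌊16 * Z / x⌋₊ : ℝ) := by exact_mod_cast s4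
      exact s5.trans (Nat.floor_le (by positivity))
    have s3 : (((Ioc 0 N).filter (fun z : ℕ => (x : ℝ) * z ≤ 16 * Z)).card : ℝ) *
        (400000 * (x / Z)) ≤ 6400000 := by
      refine (mul_le_mul_of_nonneg_right s2 (by positivity)).trans (le_of_eq ?_)
      field_simp
      norm_num
    have s4 := mul_le_mul_of_nonneg_left s3 hH
    have s5 := mul_le_mul_of_nonneg_right hh2 (show (0 : ℝ) ≤ 60000 by norm_num)
    linarith
  have t4 := mul_le_mul_of_nonneg_left t3 hq0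
  calc _ ≤ 2 * q * (60000 * H) + 2 * q * (60000 * H + 6400000 * H) :=
        add_le_add t1 (t2.trans t4)
    _ = 2 * q * (6520000 * H) := by ring

/-- sums of type I -/
theorem type_one (Q₁ D X₀ N : ℕ) (Z H A : ℝ) (hQ : 1 ≤ Q₁) (hZ : 1 ≤ Z) (hX₀ : (X₀ : ℝ) ≤ Z)
    (c : ℕ → ℂ) (h : ℕ → ℝ) (hH : 0 ≤ H) (hA : 0 ≤ A) (hc : ∀ x, ‖c x‖ ≤ A)
    (hc0 : ∀ x, X₀ < x → c x = 0)
    (hh1 : ∀ z, z ≤ N + 1 → |h z| ≤ H) (hh2 : ∑ z ∈ Ioc 0 N, |h (z + 1) - h z| ≤ H) :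
    LQ Q₁ D (fun q χ => ‖∑ x ∈ Ioc 0 N, ∑ z ∈ Ioc 0 N,
      (c x * χ (x : ZMod q)) * (((h z : ℝ) : ℂ) * χ (z : ZMod q)) *
        ((GG ((x : ℝ) * z / Z) : ℝ) : ℂ)‖) ≤ 14000000 * (X₀ * A * H) * D ^ 2 := by
  have h1 : LQ Q₁ D (fun q χ => ‖∑ x ∈ Ioc 0 N, ∑ z ∈ Ioc 0 N,
      (c x * χ (x : ZMod q)) * (((h z : ℝ) : ℂ) * χ (z : ZMod q)) *
        ((GG ((x : ℝ) * z / Z) : ℝ) : ℂ)‖) ≤
      LQ Q₁ D (fun q _ => 14000000 * (X₀ * A * H) * D) := by
    apply LQ_mono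
    intro q hq χ hχ
    rw [mem_Ioc] at hq
    have hq1 : 1 < q := by omega
    have hqD : (q : ℝ) ≤ D := by exact_mod_cast hq.2
    have h2 : ∀ x ∈ Ioc 0 N, ‖∑ z ∈ Ioc 0 N,
        (c x * χ (x : ZMod q)) * (((h z : ℝ) : ℂ) * χ (z : ZMod q)) *
        ((GG ((x : ℝ) * z / Z) : ℝ) : ℂ)‖ ≤
        if x ≤ X₀ then A * (2 * q * (6520000 * H)) else 0 := by
      intro x hx
      rw [mem_Ioc] at hx
      split_ifs with hxX
      · have e1 : ∑ z ∈ Ioc 0 N,
          (c x * χ (x : ZMod q)) * (((h z : ℝ) : ℂ) * χ (z : ZMod q)) *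
          ((GG ((x : ℝ) * z / Z) : ℝ) : ℂ) = (c x * χ (x : ZMod q)) *
          ∑ z ∈ Ioc 0 N, χ (z : ZMod q) * ((h z * GG ((x : ℝ) * z / Z) : ℝ) : ℂ) := by
          rw [Finset.mul_sum]
          apply Finset.sum_congr rfl
          intro z _
          push_cast
          ring
        rw [e1, norm_mul]
        have hxZ : (x : ℝ) ≤ Z := by
          have : (x : ℝ) ≤ X₀ := by exact_mod_cast hxX
          linarith
        have h3 := inner q hq1 χ hχ N x Z H hZ (by omega) hxZ h hH hh1 hh2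
        have h4 : ‖c x * χ (x : ZMod q)‖ ≤ A := by
          rw [norm_mul]
          calc ‖c x‖ * ‖χ (x : ZMod q)‖ ≤ A * 1 :=
                mul_le_mul (hc x) (DirichletCharacter.norm_le_one _ _) (norm_nonneg _) hA
            _ = A := mul_one A
        exact mul_le_mul h4 h3 (norm_nonneg _) hA
      · rw [hc0 x (by omega)]
        simp
    refine (norm_sum_le _ _).trans ((Finset.sum_le_sum h2).trans ?_)
    rw [← Finset.sum_filter, Finset.sum_const, nsmul_eq_mul]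
    have h3 : (((Ioc 0 N).filter (fun x => x ≤ X₀)).card : ℝ) ≤ X₀ := by
      have h4 : (Ioc 0 N).filter (fun x => x ≤ X₀) ⊆ Ioc 0 X₀ := by
        intro x hx
        rw [mem_filter, mem_Ioc] at hx
        rw [mem_Ioc]
        omega
      have h5 := Finset.card_le_card h4
      rw [Nat.card_Ioc, Nat.sub_zero] at h5
      exact_mod_cast h5
    calc (((Ioc 0 N).filter (fun x => x ≤ X₀)).card : ℝ) * (A * (2 * q * (6520000 * H)))
        ≤ X₀ * (A * (2 * D * (6520000 * H))) := by gcongr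
      _ ≤ 14000000 * (X₀ * A * H) * D := by
          have : 0 ≤ (X₀ : ℝ) * A * H * D := by positivity
          nlinarith
  refine h1.trans ?_
  unfold LQ
  have h2 : ∀ q ∈ Ioc Q₁ D, 1 / (q.totient : ℝ) *
      primSum q (fun _ => 14000000 * (X₀ * A * H) * D) ≤ 14000000 * (X₀ * A * H) * D := by
    intro q hq
    rw [mem_Ioc] at hq
    have hφ : (0 : ℝ) < q.totient := by exact_mod_cast Nat.totient_pos.2 (by omega)
    have h3 := primSum_const q (by omega) (14000000 * (X₀ * A * H) * D) (by positivity)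
    rw [one_div, inv_mul_le_iff₀ hφ]
    exact h3
  refine (Finset.sum_le_card_nsmul _ _ _ h2).trans ?_
  rw [nsmul_eq_mul, Nat.card_Ioc]
  have h3 : ((D - Q₁ : ℕ) : ℝ) ≤ D := by exact_mod_cast Nat.sub_le D Q₁
  calc ((D - Q₁ : ℕ) : ℝ) * (14000000 * (X₀ * A * H) * D)
      ≤ D * (14000000 * (X₀ * A * H) * D) := by
        apply mul_le_mul_of_nonneg_right h3 (by positivity)
    _ = 14000000 * (X₀ * A * H) * D ^ 2 := by ring

/-- a convolution against a function of bounded support -/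
lemma conv (a b : ArithmeticFunction ℝ) (N : ℕ) (f : ℕ → ℂ) (hf : ∀ n, N < n → f n = 0) :
    ∑ n ∈ Icc 1 N, (((a * b) n : ℝ) : ℂ) * f n =
      ∑ x ∈ Ioc 0 N, ∑ z ∈ Ioc 0 N, ((a x : ℝ) : ℂ) * ((b z : ℝ) : ℂ) * f (x * z) := by
  have h1 : ∀ n ∈ Icc 1 N, (((a * b) n : ℝ) : ℂ) * f n =
      ∑ p ∈ (((Ioc 0 N) ×ˢ (Ioc 0 N)).filter (fun p => p.1 * p.2 ≤ N)).filter
        (fun p => p.1 * p.2 = n), ((a p.1 : ℝ) : ℂ) * ((b p.2 : ℝ) : ℂ) * f (p.1 * p.2) := by
    intro n hn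
    rw [mem_Icc] at hn
    rw [ArithmeticFunction.mul_apply, Complex.ofReal_sum, Finset.sum_mul]
    have h2 : (((Ioc 0 N) ×ˢ (Ioc 0 N)).filter (fun p => p.1 * p.2 ≤ N)).filter
        (fun p => p.1 * p.2 = n) = n.divisorsAntidiagonal := by
      ext p
      rw [mem_filter, mem_filter, mem_product, mem_Ioc, mem_Ioc, Nat.mem_divisorsAntidiagonal]
      constructor
      · rintro ⟨_, h⟩
        exact ⟨h, by omega⟩
      · rintro ⟨h, _⟩
        have hp1 : 0 < p.1 := Nat.pos_of_ne_zero (by rintro h3; rw [h3] at h; omega)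
        have hp2 : 0 < p.2 := Nat.pos_of_ne_zero (by rintro h3; rw [h3] at h; omega)
        have h3 : p.1 ≤ n := by rw [← h]; exact Nat.le_mul_of_pos_right _ hp2
        have h4 : p.2 ≤ n := by rw [← h]; exact Nat.le_mul_of_pos_left _ hp1
        exact ⟨⟨⟨⟨hp1, by omega⟩, ⟨hp2, by omega⟩⟩, by omega⟩, h⟩
    rw [h2]
    apply Finset.sum_congr rfl
    intro p hp
    rw [Nat.mem_divisorsAntidiagonal] at hp
    rw [hp.1]
    push_cast
    ring
  rw [Finset.sum_congr rfl h1]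
  rw [Finset.sum_fiberwise_of_maps_to (g := fun p : ℕ × ℕ => p.1 * p.2)]
  · rw [Finset.sum_filter, Finset.sum_product]
    apply Finset.sum_congr rfl
    intro x _
    apply Finset.sum_congr rfl
    intro z _
    beta_reduce
    split_ifs with h
    · rfl
    · rw [hf _ (not_le.1 h), mul_zero]
  · intro p hp
    rw [mem_filter, mem_product, mem_Ioc, mem_Ioc] at hp
    rw [mem_Icc]
    exact ⟨Nat.mul_pos hp.1.1.1 hp.1.2.1, hp.2⟩

end Pool.Agent.Lib.MP_2a99c0_nt.H73
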