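import Pool.Agent.Lib.MP_2a99c0_nt.H73.Bvc

/-!
# Large conductors: the final bound
-/

set_option autoImplicit false

namespace Pool.Agent.Lib.MP_2a99c0_nt.H73

open Finset Pool.Agent.Lib.MP_6bc78b_nt.LS
open Pool.Agent.Lib.MP_6bc78b_nt.MS (La lg one)
open Pool.Agent.Lib.MP_6bc78b_nt.MS.P2 (lo hi mu)
open scoped Classical

/-- the smooth sum of `Λ χ` -/
noncomputable def SG (Z : ℕ) {q : ℕ} (χ : DirichletCharacter ℂ q) : ℂ :=
  ∑ n ∈ Ioc Z (16 * Z), ((ArithmeticFunction.vonMangoldt n * GG ((n : ℝ) / Z) : ℝ) : ℂ) *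
    χ (n : ZMod q)

lemma sub_apply' (a b : ArithmeticFunction ℝ) (m : ℕ) : (a - b) m = a m - b m := by
  rw [eq_sub_iff_add_eq, ← ArithmeticFunction.add_apply, sub_add_cancel]

lemma abs_conv_le (a b a' b' : ArithmeticFunction ℝ) (ha : ∀ n, |a n| ≤ a' n)
    (hb : ∀ n, |b n| ≤ b' n) (n : ℕ) : |(a * b) n| ≤ (a' * b') n := by
  rw [ArithmeticFunction.mul_apply, ArithmeticFunction.mul_apply]
  refine (Finset.abs_sum_le_sum_abs _ _).trans (Finset.sum_le_sum fun p _ => ?_)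
  rw [abs_mul]
  exact mul_le_mul (ha _) (hb _) (abs_nonneg _) ((abs_nonneg _).trans (ha _))

lemma abs_mu_le (n : ℕ) : |mu n| ≤ one n := by
  rcases Nat.eq_zero_or_pos n with h | h
  · rw [h]
    simp
  · have h1 : one n = 1 := by
      simp [one, ArithmeticFunction.natCoe_apply, ArithmeticFunction.zeta_apply, h.ne']
    rw [h1]
    have h2 : |((ArithmeticFunction.moebius n : ℤ) : ℝ)| ≤ 1 := by
      exact_mod_cast ArithmeticFunction.abs_moebius_le_one
    simpa [mu] using h2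

lemma one_le (n : ℕ) : one n ≤ 1 ∧ 0 ≤ one n := by
  rcases Nat.eq_zero_or_pos n with h | h
  · rw [h]
    simp
  · have h1 : one n = 1 := by
      simp [one, ArithmeticFunction.natCoe_apply, ArithmeticFunction.zeta_apply, h.ne']
    rw [h1]
    norm_num

lemma abs_lo_le (z : ℝ) (a a' : ArithmeticFunction ℝ) (h : ∀ n, |a n| ≤ a' n) (n : ℕ) :
    |lo z a n| ≤ a' n := by
  rw [Pool.Agent.Lib.MP_6bc78b_nt.MS.P2.H94.lo_apply]
  split_ifs
  · exact h n
  · rw [abs_zero]
    exact (abs_nonneg _).trans (h n)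

lemma abs_hi_le (z : ℝ) (a a' : ArithmeticFunction ℝ) (h : ∀ n, |a n| ≤ a' n) (n : ℕ) :
    |hi z a n| ≤ a' n := by
  rw [Pool.Agent.Lib.MP_6bc78b_nt.MS.P2.H94.hi_apply]
  split_ifs
  · exact h n
  · rw [abs_zero]
    exact (abs_nonneg _).trans (h n)

lemma abs_La_le (n : ℕ) : |La n| ≤ La n := by
  rw [abs_of_nonneg]
  exact ArithmeticFunction.vonMangoldt_nonneg

lemma lg_eq (n : ℕ) : lg n = Real.log n := by
  simp [lg, ArithmeticFunction.log_apply]

lemma tele_log : ∀ N : ℕ, ∑ z ∈ Ioc 0 N, |lg (z + 1) - lg z| ≤ Real.log ((N + 1 : ℕ) : ℝ) := by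
  intro N
  induction N with
  | zero => simp
  | succ N ih =>
    rw [Finset.sum_Ioc_succ_top (by omega), lg_eq, lg_eq]
    have h1 : Real.log ((N + 1 : ℕ) : ℝ) ≤ Real.log ((N + 1 + 1 : ℕ) : ℝ) := by
      apply Real.log_le_log
      · positivity
      · push_cast
        linarith
    rw [abs_of_nonneg (by linarith)]
    linarith

theorem large_cond : ∃ C : ℝ, 0 < C ∧ ∀ Z D Q₁ : ℕ, 1 ≤ Q₁ → 2 ≤ D → D ^ 8 ≤ Z →
    LQ Q₁ D (fun q χ => ‖SG Z χ‖) ≤ C * Real.log Z ^ 3 * (Z / Q₁ + D ^ 6) := by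
  refine ⟨10 ^ 14, by norm_num, fun Z D Q₁ hQ hD hDZ => ?_⟩
  have hQ0 : (0 : ℝ) < Q₁ := by exact_mod_cast hQ
  have hZ256 : 256 ≤ Z := by
    refine le_trans ?_ hDZ
    calc 256 = 2 ^ 8 := by norm_num
      _ ≤ D ^ 8 := Nat.pow_le_pow_left hD 8
  have hZr : (256 : ℝ) ≤ Z := by exact_mod_cast hZ256
  have hZ0 : (0 : ℝ) < Z := by linarith
  obtain ⟨L, hL⟩ : ∃ L, L = Real.log Z := ⟨_, rfl⟩
  have hL5 : 5.5 ≤ L := by
    have h1 := Real.log_le_log (by norm_num) hZr
    rw [show (256 : ℝ) = 2 ^ 8 by norm_num, Real.log_pow] at h1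
    have := Real.log_two_gt_d9
    push_cast at h1
    rw [hL]
    linarith
  have hL0 : 0 < L := by linarith
  obtain ⟨U, hU⟩ : ∃ U, U = D ^ 2 := ⟨_, rfl⟩
  have hU1 : 1 ≤ U := by rw [hU]; exact Nat.one_le_pow _ _ (by omega)
  have hUU : U * U ≤ Z := by
    rw [hU]
    refine le_trans ?_ hDZ
    calc D ^ 2 * D ^ 2 = D ^ 4 := by ring
      _ ≤ D ^ 8 := Nat.pow_le_pow_right (by omega) (by norm_num)
  have hUZ : U ≤ Z := le_trans (Nat.le_mul_of_pos_right U hU1) hUU
  obtain ⟨n, hn⟩ : ∃ n, n = Nat.log 2 (16 * Z) + 1 := ⟨_, rfl⟩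
  have hn1 : 16 * Z < 2 ^ n := by
    rw [hn]
    exact Nat.lt_pow_succ_log_self (by norm_num) _
  have hn2 : 2 ^ n ≤ 32 * Z := by
    rw [hn, pow_succ]
    have := Nat.pow_log_le_self 2 (show 16 * Z ≠ 0 by omega)
    omega
  have hlog32 : Real.log (32 * (Z : ℝ)) ≤ 2 * L := by
    rw [Real.log_mul (by norm_num) hZ0.ne', ← hL, show (32 : ℝ) = 2 ^ 5 by norm_num, Real.log_pow]
    have := Real.log_two_lt_d9
    push_cast
    linarith
  have hnL : (n : ℝ) ≤ 3 * L := by
    have h1 : (2 : ℝ) ^ n ≤ 32 * Z := by exact_mod_cast hn2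
    have h2 := Real.log_le_log (by positivity) h1
    rw [Real.log_pow] at h2
    have h3 := Real.log_two_gt_d9
    have h4 : (0 : ℝ) ≤ n := Nat.cast_nonneg n
    nlinarith
  obtain ⟨N, hN⟩ : ∃ N, N = U * 2 ^ n := ⟨_, rfl⟩
  have hNZ : 16 * Z ≤ N := by
    rw [hN]
    exact hn1.le.trans (Nat.le_mul_of_pos_left _ hU1)
  have hUN : U ≤ N := by omega
  have hlogN : Real.log ((N + 1 : ℕ) : ℝ) ≤ 3 * L := by
    have h1 : ((N + 1 : ℕ) : ℝ) ≤ (32 * Z) * Z := by
      have h2 : N + 1 ≤ 32 * Z * Z := by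
        have h3 : N ≤ U * (32 * Z) := by
          rw [hN]
          exact Nat.mul_le_mul_left U hn2
        have h4 : U + 1 ≤ Z := by nlinarith
        nlinarith
      exact_mod_cast h2
    have h2 := Real.log_le_log (by positivity) h1
    rw [Real.log_mul (by positivity) hZ0.ne', ← hL] at h2
    linarith
  have hlogz : ∀ z : ℕ, z ≤ N + 1 → |lg z| ≤ 3 * L := by
    intro z hz
    rw [lg_eq]
    rcases Nat.eq_zero_or_pos z with h | h
    · rw [h]
      simp
      positivity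
    · have h1 : (1 : ℝ) ≤ z := by exact_mod_cast h
      rw [abs_of_nonneg (Real.log_nonneg h1)]
      refine (Real.log_le_log (by linarith) ?_).trans hlogN
      exact_mod_cast hz
  -- the coefficients
  have hmu1 : ∀ x, |lo U mu x| ≤ one x := abs_lo_le _ _ _ abs_mu_le
  have hmu2 : ∀ x, |hi U mu x| ≤ one x := abs_hi_le _ _ _ abs_mu_le
  have hLa1 : ∀ x, |lo U La x| ≤ La x := abs_lo_le _ _ _ abs_La_le
  have hLa2 : ∀ x, |hi U La x| ≤ La x := abs_hi_le _ _ _ abs_La_le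
  have hone : ∀ x, |one x| ≤ one x := fun x => by rw [abs_of_nonneg (one_le x).2]
  have hc2 : ∀ x, |(lo U mu * lo U La) x| ≤ lg x := by
    intro x
    have h1 := abs_conv_le _ _ _ _ hmu1 hLa1 x
    rwa [mul_comm one La, Pool.Agent.Lib.MP_6bc78b_nt.MS.P2.H94.La_mul_one] at h1
  have hb2 : ∀ x, |(hi U La * one) x| ≤ lg x := by
    intro x
    have h1 := abs_conv_le _ _ _ _ hLa2 hone x
    rwa [Pool.Agent.Lib.MP_6bc78b_nt.MS.P2.H94.La_mul_one] at h1
  have hc20 : ∀ x, U * U < x → (lo U mu * lo U La) x = 0 := by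
    intro x hx
    rw [ArithmeticFunction.mul_apply]
    apply Finset.sum_eq_zero
    intro p hp
    rw [Nat.mem_divisorsAntidiagonal] at hp
    rw [Pool.Agent.Lib.MP_6bc78b_nt.MS.P2.H94.lo_apply,
      Pool.Agent.Lib.MP_6bc78b_nt.MS.P2.H94.lo_apply]
    by_cases h1 : (p.1 : ℝ) ≤ U
    · by_cases h2 : (p.2 : ℝ) ≤ U
      · exfalso
        have h3 : p.1 ≤ U := by exact_mod_cast h1
        have h4 : p.2 ≤ U := by exact_mod_cast h2
        have h5 := Nat.mul_le_mul h3 h4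
        rw [hp.1] at h5
        omega
      · rw [if_neg h2, mul_zero]
    · rw [if_neg h1, zero_mul]
  -- the three sums
  obtain ⟨T1, hT1⟩ : ∃ T : ∀ q : ℕ, DirichletCharacter ℂ q → ℝ, T = fun q χ =>
      ‖∑ x ∈ Ioc 0 N, ∑ z ∈ Ioc 0 N, (((lo U mu x : ℝ) : ℂ) * χ (x : ZMod q)) *
        (((lg z : ℝ) : ℂ) * χ (z : ZMod q)) * ((GG ((x : ℝ) * z / (Z : ℝ)) : ℝ) : ℂ)‖ := ⟨_, rfl⟩
  obtain ⟨T2, hT2⟩ : ∃ T : ∀ q : ℕ, DirichletCharacter ℂ q → ℝ, T = fun q χ =>
      ‖∑ x ∈ Ioc 0 N, ∑ z ∈ Ioc 0 N, ((((lo U mu * lo U La) x : ℝ) : ℂ) * χ (x : ZMod q)) *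
        (((one z : ℝ) : ℂ) * χ (z : ZMod q)) * ((GG ((x : ℝ) * z / (Z : ℝ)) : ℝ) : ℂ)‖ := ⟨_, rfl⟩
  obtain ⟨T3, hT3⟩ : ∃ T : ∀ q : ℕ, DirichletCharacter ℂ q → ℝ, T = fun q χ =>
      ‖∑ x ∈ Ioc U (U * 2 ^ n), ∑ z ∈ Ioc U (U * 2 ^ n),
        (((hi U mu x : ℝ) : ℂ) * χ (x : ZMod q)) *
        ((if z ≤ N then (((hi U La * one) z : ℝ) : ℂ) else 0) * χ (z : ZMod q)) *
        ((GG ((x : ℝ) * z / (Z : ℝ)) : ℝ) : ℂ)‖ := ⟨_, rfl⟩
  have hUr : (U : ℝ) ≤ Z := by exact_mod_cast hUZ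
  have hUUr : ((U * U : ℕ) : ℝ) ≤ Z := by exact_mod_cast hUU
  have b1 : LQ Q₁ D T1 ≤ 14000000 * (U * 1 * (3 * L)) * D ^ 2 := by
    rw [hT1]
    apply type_one Q₁ D U N Z (3 * L) 1 hQ (by linarith) hUr (fun x => ((lo U mu x : ℝ) : ℂ))
      (fun z => lg z) (by positivity) zero_le_one
    · intro x
      rw [Complex.norm_real, Real.norm_eq_abs]
      exact (hmu1 x).trans (one_le x).1
    · intro x hx
      rw [Pool.Agent.Lib.MP_6bc78b_nt.MS.P2.H94.lo_apply, if_neg, Complex.ofReal_zero]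
      rw [not_le]
      exact_mod_cast hx
    · exact hlogz
    · exact (tele_log N).trans hlogN
  have b2 : LQ Q₁ D T2 ≤ 14000000 * ((U * U : ℕ) * (3 * L) * 1) * D ^ 2 := by
    rw [hT2]
    apply type_one Q₁ D (U * U) N Z 1 (3 * L) hQ (by linarith) hUUr
      (fun x => (((lo U mu * lo U La) x : ℝ) : ℂ)) (fun z => one z) zero_le_one (by positivity)
    · intro x
      rw [Complex.norm_real, Real.norm_eq_abs]
      by_cases hx : x ≤ U * U
      · refine (hc2 x).trans ((le_abs_self _).trans (hlogz x ?_))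
        omega
      · rw [hc20 x (by omega), abs_zero]
        positivity
    · intro x hx
      rw [hc20 x hx, Complex.ofReal_zero]
    · intro z _
      rw [abs_of_nonneg (one_le z).2]
      exact (one_le z).1
    · have h1 : ∀ z ∈ Ioc 0 N, |one (z + 1) - one z| = 0 := by
        intro z hz
        rw [mem_Ioc] at hz
        have h2 : one (z + 1) = 1 := by
          simp [one, ArithmeticFunction.natCoe_apply, ArithmeticFunction.zeta_apply]
        have h3 : one z = 1 := by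
          have hz0 : z ≠ 0 := by omega
          simp [one, ArithmeticFunction.natCoe_apply, ArithmeticFunction.zeta_apply, hz0]
        rw [h2, h3, sub_self, abs_zero]
      rw [Finset.sum_congr rfl h1, Finset.sum_const_zero]
      exact zero_le_one
  have b3 : LQ Q₁ D T3 ≤ n ^ 2 * (4 * 10 ^ 11 * (1 * (3 * L)) * Z / Q₁) := by
    rw [hT3]
    apply type_two Q₁ D U n Z hQ hD (by rw [hU]) (by linarith)
      (fun x => ((hi U mu x : ℝ) : ℂ))
      (fun z => if z ≤ N then (((hi U La * one) z : ℝ) : ℂ) else 0) 1 (3 * L) zero_le_one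
      (by positivity)
    · intro x
      rw [Complex.norm_real, Real.norm_eq_abs]
      exact (hmu2 x).trans (one_le x).1
    · intro z
      beta_reduce
      split_ifs with hz
      · rw [Complex.norm_real, Real.norm_eq_abs]
        exact (hb2 z).trans ((le_abs_self _).trans (hlogz z (by omega)))
      · rw [norm_zero]
        positivity
  -- Vaughan's identity
  have hmain : LQ Q₁ D (fun q χ => ‖SG Z χ‖) ≤ LQ Q₁ D (fun q χ => (T1 q χ + T2 q χ) + T3 q χ) := by
    apply LQ_mono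
    intro q _ χ _
    obtain ⟨f, hf⟩ : ∃ f : ℕ → ℂ, f = fun m : ℕ => χ (m : ZMod q) *
        ((GG ((m : ℝ) / (Z : ℝ)) : ℝ) : ℂ) := ⟨_, rfl⟩
    have hf0 : ∀ m, N < m → f m = 0 := by
      intro m hm
      rw [hf]
      beta_reduce
      rw [GG_zero_right, Complex.ofReal_zero, mul_zero]
      rw [le_div_iff₀ hZ0]
      have : 16 * Z ≤ m := by omega
      exact_mod_cast this
    have hfs : ∀ m, m ≤ Z → f m = 0 := by
      intro m hm
      rw [hf]
      beta_reduce
      rw [GG_zero_left, Complex.ofReal_zero, mul_zero]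
      rw [div_le_one hZ0]
      exact_mod_cast hm
    have hfm : ∀ x z : ℕ, f (x * z) = χ (x : ZMod q) * χ (z : ZMod q) *
        ((GG ((x : ℝ) * z / (Z : ℝ)) : ℝ) : ℂ) := by
      intro x z
      rw [hf]
      beta_reduce
      push_cast
      rw [map_mul]
    have hSG : SG Z χ = ∑ m ∈ Icc 1 N, ((La m : ℝ) : ℂ) * f m := by
      have h1 : SG Z χ = ∑ m ∈ Ioc Z (16 * Z), ((La m : ℝ) : ℂ) * f m := by
        unfold SG
        apply Finset.sum_congr rfl
        intro m _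
        rw [hf]
        beta_reduce
        rw [La]
        push_cast
        ring
      rw [h1]
      apply Finset.sum_subset
      · intro m hm
        rw [mem_Ioc] at hm
        rw [mem_Icc]
        omega
      · intro m hm hm'
        rw [mem_Icc] at hm
        rw [mem_Ioc] at hm'
        by_cases h2 : m ≤ Z
        · rw [hfs m h2, mul_zero]
        · have h3 : 16 * Z < m := by omega
          rw [hf]
          beta_reduce
          rw [GG_zero_right, Complex.ofReal_zero, mul_zero, mul_zero]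
          rw [le_div_iff₀ hZ0]
          exact_mod_cast h3.le
    have hva : ∀ m : ℕ, ((La m : ℝ) : ℂ) * f m = ((lo U La m : ℝ) : ℂ) * f m +
        (((lo U mu * lg) m : ℝ) : ℂ) * f m - ((((lo U mu * lo U La) * one) m : ℝ) : ℂ) * f m +
        (((hi U mu * (hi U La * one)) m : ℝ) : ℂ) * f m := by
      intro m
      have h1 := congrArg (fun a : ArithmeticFunction ℝ => a m)
        (Pool.Agent.Lib.MP_6bc78b_nt.MS.P2.H94.vau (U : ℝ))
      beta_reduce at h1
      rw [mul_assoc (hi (U : ℝ) mu) _ one] at h1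
      have h2 : La m = lo U La m + (lo U mu * lg) m - ((lo U mu * lo U La) * one) m +
          (hi U mu * (hi U La * one)) m := by
        refine h1.trans ?_
        rw [ArithmeticFunction.add_apply, sub_apply', ArithmeticFunction.add_apply]
      rw [h2]
      push_cast
      ring
    have hz0 : ∑ m ∈ Icc 1 N, ((lo U La m : ℝ) : ℂ) * f m = 0 := by
      apply Finset.sum_eq_zero
      intro m _
      by_cases h1 : m ≤ Z
      · rw [hfs m h1, mul_zero]
      · rw [Pool.Agent.Lib.MP_6bc78b_nt.MS.P2.H94.lo_apply, if_neg, Complex.ofReal_zero, zero_mul]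
        rw [not_le]
        have : U < m := by omega
        exact_mod_cast this
    rw [hSG, Finset.sum_congr rfl (fun m _ => hva m), Finset.sum_add_distrib,
      Finset.sum_sub_distrib, Finset.sum_add_distrib, hz0, zero_add]
    have e1 : ‖∑ m ∈ Icc 1 N, (((lo U mu * lg) m : ℝ) : ℂ) * f m‖ = T1 q χ := by
      rw [conv _ _ N f hf0, hT1]
      beta_reduce
      congr 1
      apply Finset.sum_congr rfl
      intro x _
      apply Finset.sum_congr rfl
      intro z _
      rw [hfm]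
      ring
    have e2 : ‖∑ m ∈ Icc 1 N, ((((lo U mu * lo U La) * one) m : ℝ) : ℂ) * f m‖ = T2 q χ := by
      rw [conv _ _ N f hf0, hT2]
      beta_reduce
      congr 1
      apply Finset.sum_congr rfl
      intro x _
      apply Finset.sum_congr rfl
      intro z _
      rw [hfm]
      ring
    have e3 : ‖∑ m ∈ Icc 1 N, (((hi U mu * (hi U La * one)) m : ℝ) : ℂ) * f m‖ = T3 q χ := by
      rw [conv _ _ N f hf0, hT3]
      beta_reduce
      congr 1
      rw [← hN]
      have hsub : Ioc U N ⊆ Ioc 0 N := by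
        intro m hm
        rw [mem_Ioc] at hm ⊢
        omega
      rw [← Finset.sum_subset hsub]
      · apply Finset.sum_congr rfl
        intro x _
        rw [← Finset.sum_subset hsub]
        · apply Finset.sum_congr rfl
          intro z hz
          rw [mem_Ioc] at hz
          rw [hfm, if_pos hz.2]
          ring
        · intro z hz hz'
          rw [mem_Ioc] at hz hz'
          have h1 : (hi U La * one) z = 0 := by
            rw [ArithmeticFunction.mul_apply]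
            apply Finset.sum_eq_zero
            intro p hp
            rw [Nat.mem_divisorsAntidiagonal] at hp
            rw [Pool.Agent.Lib.MP_6bc78b_nt.MS.P2.H94.hi_apply, if_neg, zero_mul]
            rw [not_lt]
            have h2 : p.1 ≤ z := Nat.le_of_dvd hz.1 ⟨p.2, hp.1.symm⟩
            have h3 : p.1 ≤ U := by omega
            exact_mod_cast h3
          rw [h1]
          simp
      · intro x hx hx'
        rw [mem_Ioc] at hx hx'
        apply Finset.sum_eq_zero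
        intro z _
        rw [Pool.Agent.Lib.MP_6bc78b_nt.MS.P2.H94.hi_apply, if_neg]
        · simp
        · rw [not_lt]
          have h3 : x ≤ U := by omega
          exact_mod_cast h3
    rw [← e1, ← e2, ← e3]
    refine (norm_add_le _ _).trans (add_le_add (norm_sub_le _ _) le_rfl)
  rw [LQ_add, LQ_add] at hmain
  refine hmain.trans ((add_le_add (add_le_add b1 b2) b3).trans ?_)
  rw [← hL]
  have hD2 : (2 : ℝ) ≤ D := by exact_mod_cast hD
  have hUe : (U : ℝ) = (D : ℝ) ^ 2 := by rw [hU]; push_cast; ring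
  have hL1 : L ≤ L ^ 3 := by nlinarith [sq_nonneg L]
  have hL3 : 0 < L ^ 3 := by positivity
  have q1 : 14000000 * ((U : ℝ) * 1 * (3 * L)) * D ^ 2 ≤ 42000000 * (L ^ 3 * D ^ 6) := by
    rw [hUe]
    have h1 : (D : ℝ) ^ 4 ≤ D ^ 6 := pow_le_pow_right₀ (by linarith) (by norm_num)
    calc 14000000 * ((D : ℝ) ^ 2 * 1 * (3 * L)) * D ^ 2 = 42000000 * (L * D ^ 4) := by ring
      _ ≤ 42000000 * (L ^ 3 * D ^ 6) := by gcongr
  have q2 : 14000000 * (((U * U : ℕ) : ℝ) * (3 * L) * 1) * D ^ 2 ≤ 42000000 * (L ^ 3 * D ^ 6) := by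
    push_cast
    rw [hUe]
    calc 14000000 * ((D : ℝ) ^ 2 * D ^ 2 * (3 * L) * 1) * D ^ 2 = 42000000 * (L * D ^ 6) := by ring
      _ ≤ 42000000 * (L ^ 3 * D ^ 6) := by gcongr
  have q3 : (n : ℝ) ^ 2 * (4 * 10 ^ 11 * (1 * (3 * L)) * Z / Q₁) ≤
      (3 * L) ^ 2 * (4 * 10 ^ 11 * (1 * (3 * L)) * Z / Q₁) := by
    gcongr
  have q4 : (3 * L) ^ 2 * (4 * 10 ^ 11 * (1 * (3 * L)) * Z / Q₁) =
      108 * 10 ^ 11 * (L ^ 3 * (Z / Q₁)) := by ring
  have q5 : 0 ≤ L ^ 3 * ((Z : ℝ) / Q₁) := by positivity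
  have q6 : 0 ≤ L ^ 3 * (D : ℝ) ^ 6 := by positivity
  have q7 : (10 : ℝ) ^ 14 * L ^ 3 * (Z / Q₁ + D ^ 6) =
      10 ^ 14 * (L ^ 3 * ((Z : ℝ) / Q₁)) + 10 ^ 14 * (L ^ 3 * (D : ℝ) ^ 6) := by ring
  rw [q7]
  linarith

end Pool.Agent.Lib.MP_2a99c0_nt.H73
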