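import Pool.Agent.Lib.MP_2a99c0_nt.H73.Bvd
import Pool.Agent.Lib.MP_2a99c0_nt.H73.Ap
import Pool.Agent.Lib.MP_6bc78b_nt.MS.P2.H64.Div

/-!
# The theorem of Bombieri and Vinogradov with a small exponent, for the smooth weight
-/

set_option autoImplicit false

namespace Pool.Agent.Lib.MP_2a99c0_nt.H73

open Finset Pool.Agent.Lib.MP_6bc78b_nt.LS
open ArithmeticFunction (vonMangoldt)
open scoped Classical

/-- small conductors -/
theorem sw_smooth (A B : ℕ) (hA : 1 ≤ A) : ∃ C : ℝ, 0 < C ∧ ∀ Z : ℕ, 3 ≤ Z → ∀ q : ℕ, 1 ≤ q →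
    (q : ℝ) ≤ Real.log Z ^ A → ∀ χ : DirichletCharacter ℂ q, χ ≠ 1 →
    ‖SG Z χ‖ ≤ C * Z / Real.log Z ^ (B + 1) := by
  obtain ⟨C, hC, hSW⟩ := Pool.Agent.Lib.MP_6bc78b_nt.SW.siegel_walfisz (A : ℝ) ((B + 1 : ℕ) : ℝ)
    (by exact_mod_cast hA) (by positivity)
  refine ⟨6000000 * (17 * C), by positivity, fun Z hZ q hq hqA χ hχ => ?_⟩
  have hZ3 : (3 : ℝ) ≤ Z := by exact_mod_cast hZ
  have hZ0 : (0 : ℝ) < Z := by linarith
  obtain ⟨L, hL⟩ : ∃ L, L = Real.log Z := ⟨_, rfl⟩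
  have hL0 : 0 < L := by rw [hL]; exact Real.log_pos (by linarith)
  rw [← hL] at hqA ⊢
  have hs : ∀ N : ℕ, Z ≤ N → ‖∑ n ∈ Icc 1 N, χ (n : ZMod q) * (vonMangoldt n : ℂ)‖ ≤
      C * N / L ^ (B + 1) := by
    intro N hN
    have hN' : (Z : ℝ) ≤ N := by exact_mod_cast hN
    have hLN : L ≤ Real.log N := by rw [hL]; exact Real.log_le_log hZ0 hN'
    have h2 := hSW N (by linarith) q hq ?_ χ hχ
    · rw [Nat.floor_natCast, Real.rpow_neg (by linarith), Real.rpow_natCast,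
        ← div_eq_mul_inv] at h2
      refine h2.trans ?_
      apply div_le_div_of_nonneg_left (by positivity) (by positivity)
      exact pow_le_pow_left₀ hL0.le hLN _
    · rw [Real.rpow_natCast]
      exact hqA.trans (pow_le_pow_left₀ hL0.le hLN A)
  obtain ⟨K, hK⟩ : ∃ K, K = 17 * C * Z / L ^ (B + 1) := ⟨_, rfl⟩
  have hK0 : 0 ≤ K := by rw [hK]; positivity
  have hpart : ∀ x ∈ Ioc Z (16 * Z), ‖∑ n ∈ Ioc Z x, χ (n : ZMod q) * (vonMangoldt n : ℂ)‖ ≤ K := by
    intro x hx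
    rw [mem_Ioc] at hx
    have h2 : ∑ n ∈ Ioc Z x, χ (n : ZMod q) * (vonMangoldt n : ℂ) =
        ∑ n ∈ Icc 1 x, χ (n : ZMod q) * (vonMangoldt n : ℂ) -
        ∑ n ∈ Icc 1 Z, χ (n : ZMod q) * (vonMangoldt n : ℂ) := by
      rw [eq_sub_iff_add_eq, ← Finset.sum_union]
      · apply Finset.sum_congr _ (fun _ _ => rfl)
        ext n
        simp only [mem_union, mem_Ioc, mem_Icc]
        omega
      · rw [Finset.disjoint_left]
        intro n hn hn'
        rw [mem_Ioc] at hn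
        rw [mem_Icc] at hn'
        omega
    rw [h2]
    refine (norm_sub_le _ _).trans ((add_le_add (hs x (by omega)) (hs Z le_rfl)).trans ?_)
    have hx' : (x : ℝ) ≤ 16 * Z := by exact_mod_cast hx.2
    rw [hK, ← add_div]
    apply div_le_div_of_nonneg_right _ (by positivity)
    nlinarith
  obtain ⟨g, hg⟩ : ∃ g : ℕ → ℝ, g = fun n : ℕ => GG ((n : ℝ) / (Z : ℝ)) := ⟨_, rfl⟩
  have h0 := Pool.Agent.Lib.MP_6bc78b_nt.MS.P2.H18.abl.1 Z (16 * Z)
    (fun n => χ (n : ZMod q) * (vonMangoldt n : ℂ)) g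
  have e1 : SG Z χ = ∑ n ∈ Ioc Z (16 * Z), χ (n : ZMod q) * (vonMangoldt n : ℂ) *
      ((g n : ℝ) : ℂ) := by
    unfold SG
    rw [hg]
    apply Finset.sum_congr rfl
    intro n _
    push_cast
    ring
  rw [e1]
  refine h0.trans ?_
  have hg0 : g (16 * Z + 1) = 0 := by
    rw [hg]
    beta_reduce
    rw [GG_zero_right]
    rw [le_div_iff₀ hZ0]
    push_cast
    linarith
  rw [hg0, abs_zero, mul_zero, zero_add]
  have h1 : ∀ x ∈ Ioc Z (16 * Z), ‖∑ n ∈ Ioc Z x, χ (n : ZMod q) * (vonMangoldt n : ℂ)‖ *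
      |g (x + 1) - g x| ≤ K * (400000 * (1 / Z)) := by
    intro x hx
    apply mul_le_mul (hpart x hx) _ (abs_nonneg _) hK0
    rw [mem_Ioc] at hx
    rw [hg]
    beta_reduce
    have h2 : (((x + 1 : ℕ) : ℝ)) / (Z : ℝ) = (x : ℝ) / Z + 1 / Z := by
      push_cast
      ring
    rw [h2]
    apply GG_lip (by positivity) (by positivity)
    have hx' : (x : ℝ) ≤ 16 * Z := by exact_mod_cast hx.2
    have h3 : (x : ℝ) / Z ≤ 16 := by
      rw [div_le_iff₀ hZ0]
      exact hx'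
    have h4 : 1 / (Z : ℝ) ≤ 1 := by
      rw [div_le_one hZ0]
      linarith
    linarith
  refine (Finset.sum_le_card_nsmul _ _ _ h1).trans ?_
  rw [nsmul_eq_mul, Nat.card_Ioc, show 16 * Z - Z = 15 * Z by omega]
  push_cast
  have h5 : 15 * (Z : ℝ) * (K * (400000 * (1 / Z))) = 6000000 * K := by
    have h6 : (Z : ℝ) * (1 / Z) = 1 := by field_simp
    calc 15 * (Z : ℝ) * (K * (400000 * (1 / Z))) = 6000000 * K * (Z * (1 / Z)) := by ring
      _ = 6000000 * K := by rw [h6, mul_one]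
  rw [h5, hK]
  apply le_of_eq
  ring

/-- the total weight -/
noncomputable def PG (Z : ℕ) : ℝ := ∑ n ∈ Ioc Z (16 * Z), vonMangoldt n * GG ((n : ℝ) / Z)

/-- the error of the higher prime powers -/
noncomputable def EP (Z : ℕ) : ℝ := 60000 * (2 * Real.sqrt (16 * Z) * Real.log (16 * Z))

lemma EP_nonneg (Z : ℕ) (hZ : 1 ≤ Z) : 0 ≤ EP Z := by
  have h1 : (1 : ℝ) ≤ Z := by exact_mod_cast hZ
  have : 0 ≤ Real.log (16 * (Z : ℝ)) := Real.log_nonneg (by linarith)
  unfold EP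
  positivity

lemma noncop (Z d : ℕ) (hZ : 1 ≤ Z) (hd : 1 ≤ d) (hdZ : d ≤ Z) :
    ∑ n ∈ (Ioc Z (16 * Z)).filter (fun n => ¬ n.Coprime d), vonMangoldt n * GG ((n : ℝ) / Z) ≤
      EP Z := by
  have h1Z : (1 : ℝ) ≤ Z := by exact_mod_cast hZ
  have h1 : ∑ n ∈ (Ioc Z (16 * Z)).filter (fun n => ¬ n.Coprime d),
      vonMangoldt n * GG ((n : ℝ) / Z) ≤
      ∑ n ∈ (Ioc Z (16 * Z)).filter (fun n => ¬ n.Coprime d), vonMangoldt n * 60000 := by
    apply Finset.sum_le_sum
    intro n _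
    exact mul_le_mul_of_nonneg_left (GG_le _) ArithmeticFunction.vonMangoldt_nonneg
  have h2 : ∑ n ∈ (Ioc Z (16 * Z)).filter (fun n => ¬ n.Coprime d), vonMangoldt n ≤
      Chebyshev.psi ((16 * Z : ℕ) : ℝ) - Chebyshev.theta ((16 * Z : ℕ) : ℝ) := by
    rw [Chebyshev.psi_sub_theta_eq_sum_not_prime, Nat.floor_natCast]
    apply Finset.sum_le_sum_of_subset_of_nonneg
    · intro n hn
      rw [mem_filter, mem_Ioc] at hn
      rw [mem_filter, mem_Ioc]
      refine ⟨⟨by omega, hn.1.2⟩, fun hp => hn.2 ?_⟩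
      rw [hp.coprime_iff_not_dvd]
      intro hnd
      have := Nat.le_of_dvd (by omega) hnd
      omega
    · intro n _ _
      exact ArithmeticFunction.vonMangoldt_nonneg
  have h3 := Chebyshev.psi_sub_theta_le (x := ((16 * Z : ℕ) : ℝ)) (by
    push_cast
    linarith)
  rw [← Finset.sum_mul] at h1
  push_cast at h2 h3
  unfold EP
  linarith

/-- one modulus -/
theorem one_mod (Z d c : ℕ) (hZ : 1 ≤ Z) (hd : 1 ≤ d) (hdZ : d ≤ Z) (hc : c.Coprime d) :
    |∑ n ∈ (Ioc Z (16 * Z)).filter (fun n => n ≡ c [MOD d]), vonMangoldt n * GG ((n : ℝ) / Z) -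
      PG Z / d.totient| ≤
      1 / (d.totient : ℝ) * ∑ q ∈ d.divisors.erase 1, primSum q (fun ψ => ‖SG Z ψ‖ + EP Z) +
        EP Z := by
  have : NeZero d := ⟨by omega⟩
  have hE0 := EP_nonneg Z hZ
  have hφ0 : (0 : ℝ) < d.totient := by exact_mod_cast Nat.totient_pos.2 hd
  have hφ1 : (1 : ℝ) ≤ d.totient := by exact_mod_cast Nat.totient_pos.2 hd
  obtain ⟨a, ha⟩ : ∃ a : ℕ → ℝ, a = fun n : ℕ => vonMangoldt n * GG ((n : ℝ) / (Z : ℝ)) := ⟨_, rfl⟩
  have ha0 : ∀ n, 0 ≤ a n := by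
    intro n
    rw [ha]
    exact mul_nonneg ArithmeticFunction.vonMangoldt_nonneg (GG_nonneg _)
  obtain ⟨T, hT⟩ : ∃ T : ℝ, T = ∑ n ∈ (Ioc Z (16 * Z)).filter (fun n => n ≡ c [MOD d]),
      a n := ⟨_, rfl⟩
  obtain ⟨T₁, hT₁⟩ : ∃ T : ℝ, T = ∑ n ∈ (Ioc Z (16 * Z)).filter (fun n => n.Coprime d),
      a n := ⟨_, rfl⟩
  have hnc : ∑ n ∈ (Ioc Z (16 * Z)).filter (fun n => ¬ n.Coprime d), a n ≤ EP Z := by
    rw [ha]
    exact noncop Z d hZ hd hdZ
  have hPG : PG Z = T₁ + ∑ n ∈ (Ioc Z (16 * Z)).filter (fun n => ¬ n.Coprime d), a n := by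
    rw [hT₁, Finset.sum_filter_add_sum_filter_not, ha]
    rfl
  have hu : IsUnit (c : ZMod d) := (ZMod.isUnit_iff_coprime c d).2 hc
  have hui : IsUnit (c : ZMod d)⁻¹ := by
    have h1 := ZMod.inv_mul_of_unit _ hu
    exact IsUnit.of_mul_eq_one _ h1
  have h1 := ortho d c hd hc (Ioc Z (16 * Z)) (fun n => (a n : ℂ))
  rw [← Finset.add_sum_erase _ _ (Finset.mem_univ (1 : DirichletCharacter ℂ d))] at h1
  have h2 : (1 : DirichletCharacter ℂ d) (c : ZMod d)⁻¹ *
      ∑ n ∈ Ioc Z (16 * Z), (1 : DirichletCharacter ℂ d) (n : ZMod d) * (a n : ℂ) = (T₁ : ℂ) := by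
    rw [MulChar.one_apply hui, one_mul, hT₁, Complex.ofReal_sum, Finset.sum_filter]
    apply Finset.sum_congr rfl
    intro n _
    by_cases h : n.Coprime d
    · rw [if_pos h, MulChar.one_apply ((ZMod.isUnit_iff_coprime n d).2 h), one_mul]
    · rw [if_neg h, MulChar.map_nonunit _ (fun h3 => h ((ZMod.isUnit_iff_coprime n d).1 h3)),
        zero_mul]
  have h4 : (((d.totient : ℝ) * T - T₁ : ℝ) : ℂ) =
      ∑ χ ∈ (Finset.univ.erase (1 : DirichletCharacter ℂ d)), χ (c : ZMod d)⁻¹ *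
        ∑ n ∈ Ioc Z (16 * Z), χ (n : ZMod d) * (a n : ℂ) := by
    rw [h2] at h1
    rw [hT]
    push_cast
    rw [h1]
    ring
  obtain ⟨W, hW⟩ : ∃ W : DirichletCharacter ℂ d → ℝ, W = fun χ =>
      ‖∑ n ∈ Ioc Z (16 * Z), χ (n : ZMod d) * (a n : ℂ)‖ := ⟨_, rfl⟩
  have h5 : |(d.totient : ℝ) * T - T₁| ≤
      ∑ χ ∈ (Finset.univ.erase (1 : DirichletCharacter ℂ d)), W χ := by
    have h6 : ‖(((d.totient : ℝ) * T - T₁ : ℝ) : ℂ)‖ ≤
        ∑ χ ∈ (Finset.univ.erase (1 : DirichletCharacter ℂ d)), W χ := by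
      rw [h4]
      refine (norm_sum_le _ _).trans (Finset.sum_le_sum fun χ _ => ?_)
      rw [norm_mul, hW]
      have h9 := DirichletCharacter.norm_le_one χ (c : ZMod d)⁻¹
      calc _ ≤ 1 * ‖∑ n ∈ Ioc Z (16 * Z), χ (n : ZMod d) * (a n : ℂ)‖ :=
            mul_le_mul_of_nonneg_right h9 (norm_nonneg _)
        _ = _ := one_mul _
    rwa [Complex.norm_real, Real.norm_eq_abs] at h6
  -- passage to primitive characters
  have h6 : ∑ χ ∈ (Finset.univ.erase (1 : DirichletCharacter ℂ d)), W χ ≤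
      ∑ q ∈ d.divisors.erase 1, primSum q (fun ψ => ‖SG Z ψ‖ + EP Z) := by
    obtain ⟨F, hF⟩ : ∃ F : ∀ q : ℕ, DirichletCharacter ℂ q → ℂ, F = fun q ψ =>
        if q = 1 then 0 else ((‖∑ n ∈ (Ioc Z (16 * Z)).filter (fun n => n.Coprime d),
          ψ (n : ZMod q) * (a n : ℂ)‖ : ℝ) : ℂ) := ⟨_, rfl⟩
    have hsum := sum_by_conductor d (fun χ => if χ = 1 then 0 else ((W χ : ℝ) : ℂ)) F (by
      intro q hq ψ hψ
      rw [hF]
      beta_reduce
      by_cases hq1 : q = 1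
      · rw [if_pos hq1, if_pos]
        subst hq1
        rw [DirichletCharacter.changeLevel_eq_one_iff]
        exact Subsingleton.elim _ _
      · have hne : ¬ DirichletCharacter.changeLevel hq ψ = 1 := by
          rw [DirichletCharacter.changeLevel_eq_one_iff]
          rintro rfl
          apply hq1
          have hq0 : NeZero q := ⟨fun h0 => by
            rw [h0, zero_dvd_iff] at hq
            omega⟩
          rw [DirichletCharacter.isPrimitive_def, DirichletCharacter.conductor_one] at hψ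
          exact hψ.symm
        rw [if_neg hq1, if_neg hne, hW]
        beta_reduce
        congr 2
        rw [Finset.sum_filter]
        apply Finset.sum_congr rfl
        intro n _
        by_cases hn : n.Coprime d
        · rw [if_pos hn]
          congr 1
          have hun : IsUnit (n : ZMod d) := (ZMod.isUnit_iff_coprime n d).2 hn
          have h8 := DirichletCharacter.changeLevel_eq_cast_of_dvd ψ hq hun.unit
          rw [IsUnit.unit_spec] at h8
          rw [h8, ZMod.cast_natCast hq]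
        · rw [if_neg hn, MulChar.map_nonunit _
            (fun h3 => hn ((ZMod.isUnit_iff_coprime n d).1 h3)), zero_mul])
    have h7 : ((∑ χ ∈ (Finset.univ.erase (1 : DirichletCharacter ℂ d)), W χ : ℝ) : ℂ) =
        ∑ q ∈ d.divisors, primSumC q (F q) := by
      rw [← hsum, ← Finset.add_sum_erase _ _ (Finset.mem_univ (1 : DirichletCharacter ℂ d)),
        if_pos rfl, zero_add]
      push_cast
      apply Finset.sum_congr rfl
      intro χ hχ
      rw [if_neg (Finset.ne_of_mem_erase hχ)]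
    have h8 : ∑ χ ∈ (Finset.univ.erase (1 : DirichletCharacter ℂ d)), W χ =
        ‖∑ q ∈ d.divisors, primSumC q (F q)‖ := by
      rw [← h7, Complex.norm_real, Real.norm_eq_abs, abs_of_nonneg]
      apply Finset.sum_nonneg
      intro χ _
      rw [hW]
      exact norm_nonneg _
    rw [h8]
    have h9 : primSumC 1 (F 1) = 0 := by
      unfold primSumC
      apply Finset.sum_eq_zero
      intro χ _
      rw [hF]
      simp
    rw [← Finset.add_sum_erase _ _ (Nat.one_mem_divisors.2 (by omega : d ≠ 0)), h9, zero_add]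
    refine (norm_sum_le _ _).trans (Finset.sum_le_sum fun q hq => ?_)
    refine (norm_primSumC_le q (F q)).trans (primSum_mono q _ _ ?_)
    intro ψ _
    have hq1 : q ≠ 1 := Finset.ne_of_mem_erase hq
    rw [hF]
    beta_reduce
    rw [if_neg hq1, Complex.norm_real, norm_norm]
    have e1 : ∑ n ∈ (Ioc Z (16 * Z)).filter (fun n => n.Coprime d), ψ (n : ZMod q) * (a n : ℂ) =
        SG Z ψ - ∑ n ∈ (Ioc Z (16 * Z)).filter (fun n => ¬ n.Coprime d),
          ψ (n : ZMod q) * (a n : ℂ) := by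
      rw [eq_sub_iff_add_eq, Finset.sum_filter_add_sum_filter_not]
      unfold SG
      rw [ha]
      apply Finset.sum_congr rfl
      intro n _
      ring
    rw [e1]
    refine (norm_sub_le _ _).trans (add_le_add le_rfl ?_)
    refine (norm_sum_le _ _).trans (le_trans (Finset.sum_le_sum fun n _ => ?_) hnc)
    rw [norm_mul, Complex.norm_real, Real.norm_eq_abs, abs_of_nonneg (ha0 n)]
    calc ‖ψ (n : ZMod q)‖ * a n ≤ 1 * a n :=
          mul_le_mul_of_nonneg_right (DirichletCharacter.norm_le_one _ _) (ha0 n)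
      _ = a n := one_mul _
  have h7 : |T - T₁ / d.totient| ≤ 1 / (d.totient : ℝ) *
      ∑ q ∈ d.divisors.erase 1, primSum q (fun ψ => ‖SG Z ψ‖ + EP Z) := by
    have h8 : T - T₁ / d.totient = ((d.totient : ℝ) * T - T₁) / d.totient := by
      field_simp
    rw [h8, abs_div, abs_of_pos hφ0, div_eq_mul_one_div, mul_comm]
    exact mul_le_mul_of_nonneg_left (h5.trans h6) (by positivity)
  have h8 : |T₁ / d.totient - PG Z / d.totient| ≤ EP Z := by
    have h9 : 0 ≤ ∑ n ∈ (Ioc Z (16 * Z)).filter (fun n => ¬ n.Coprime d), a n :=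
      Finset.sum_nonneg fun n _ => ha0 n
    rw [hPG, abs_sub_comm, ← sub_div, add_sub_cancel_left, abs_div, abs_of_nonneg h9,
      abs_of_pos hφ0, div_le_iff₀ hφ0]
    nlinarith
  have h9 : T - PG Z / d.totient = (T - T₁ / d.totient) + (T₁ / d.totient - PG Z / d.totient) := by
    ring
  have h10 : |T - PG Z / d.totient| ≤ 1 / (d.totient : ℝ) *
      ∑ q ∈ d.divisors.erase 1, primSum q (fun ψ => ‖SG Z ψ‖ + EP Z) + EP Z := by
    rw [h9]
    exact (abs_add_le _ _).trans (add_le_add h7 h8)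
  rw [hT, ha] at h10
  exact h10

end Pool.Agent.Lib.MP_2a99c0_nt.H73
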