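import Pool.Agent.Lib.MP_2a99c0_nt.H73.Bve

/-!
# The theorem of Bombieri and Vinogradov with a small exponent: summation over the moduli
-/

set_option autoImplicit false

namespace Pool.Agent.Lib.MP_2a99c0_nt.H73

open Finset Pool.Agent.Lib.MP_6bc78b_nt.LS
open ArithmeticFunction (vonMangoldt)
open scoped Classical

/-- the sum of `1 / φ` -/
lemma sum_inv_phi (D : ℕ) (hD : 1 ≤ D) :
    ∑ k ∈ Icc 1 D, 1 / (k.totient : ℝ) ≤ (1 + Real.log D) ^ 2 := by
  have h := (Pool.Agent.Lib.MP_6bc78b_nt.MS.P2.H64.div).2.2.2.1 0 D hD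
  simpa using h

/-- the average over the moduli -/
theorem sum_mod (D : ℕ) (hD : 1 ≤ D) (S : ℕ → ℝ) (hS : ∀ q, 0 ≤ S q) :
    ∑ d ∈ Icc 1 D, 1 / (d.totient : ℝ) * ∑ q ∈ d.divisors.erase 1, S q ≤
      (1 + Real.log D) ^ 2 * ∑ q ∈ Ioc 1 D, 1 / (q.totient : ℝ) * S q := by
  have h1 : ∑ d ∈ Icc 1 D, 1 / (d.totient : ℝ) * ∑ q ∈ d.divisors.erase 1, S q ≤
      ∑ d ∈ Icc 1 D, ∑ q ∈ Ioc 1 D, ∑ k ∈ Icc 1 D,
        if q * k = d then 1 / (q.totient : ℝ) * S q * (1 / (k.totient : ℝ)) else 0 := by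
    apply Finset.sum_le_sum
    intro d hd
    rw [mem_Icc] at hd
    rw [Finset.mul_sum]
    have h2 : ∀ q ∈ d.divisors.erase 1, 1 / (d.totient : ℝ) * S q ≤ ∑ k ∈ Icc 1 D,
        if q * k = d then 1 / (q.totient : ℝ) * S q * (1 / (k.totient : ℝ)) else 0 := by
      intro q hq
      have hqd := (Nat.mem_divisors.1 (Finset.mem_of_mem_erase hq)).1
      obtain ⟨k, hk⟩ := hqd
      have hq0 : 0 < q := Nat.pos_of_ne_zero (by rintro h0; rw [h0, zero_mul] at hk; omega)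
      have hk0 : 0 < k := Nat.pos_of_ne_zero (by rintro h0; rw [h0, mul_zero] at hk; omega)
      have hkD : k ≤ D := by
        have : k ≤ d := by rw [hk]; exact Nat.le_mul_of_pos_left _ hq0
        omega
      have h3 : 1 / (d.totient : ℝ) * S q ≤
          if q * k = d then 1 / (q.totient : ℝ) * S q * (1 / (k.totient : ℝ)) else 0 := by
        rw [if_pos hk.symm]
        have hφ : q.totient * k.totient ≤ d.totient := by
          rw [hk]
          exact Nat.totient_super_multiplicative q k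
        have hφ' : (q.totient : ℝ) * k.totient ≤ d.totient := by exact_mod_cast hφ
        have hφq : (0 : ℝ) < q.totient := by exact_mod_cast Nat.totient_pos.2 hq0
        have hφk : (0 : ℝ) < k.totient := by exact_mod_cast Nat.totient_pos.2 hk0
        have h4 : 1 / (q.totient : ℝ) * S q * (1 / (k.totient : ℝ)) =
            1 / ((q.totient : ℝ) * k.totient) * S q := by
          field_simp
        rw [h4]
        apply mul_le_mul_of_nonneg_right _ (hS q)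
        exact one_div_le_one_div_of_le (by positivity) hφ'
      refine h3.trans ?_
      apply Finset.single_le_sum (f := fun k =>
        if q * k = d then 1 / (q.totient : ℝ) * S q * (1 / (k.totient : ℝ)) else 0)
      · intro i _
        split_ifs
        · have := hS q
          positivity
        · exact le_rfl
      · exact mem_Icc.2 ⟨hk0, hkD⟩
    refine (Finset.sum_le_sum h2).trans ?_
    apply Finset.sum_le_sum_of_subset_of_nonneg
    · intro q hq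
      have hqd := (Nat.mem_divisors.1 (Finset.mem_of_mem_erase hq)).1
      have hq1 : q ≠ 1 := Finset.ne_of_mem_erase hq
      have hq0 : q ≠ 0 := by
        rintro rfl
        rw [zero_dvd_iff] at hqd
        omega
      have := Nat.le_of_dvd (by omega) hqd
      rw [mem_Ioc]
      omega
    · intro q _ _
      apply Finset.sum_nonneg
      intro k _
      split_ifs
      · have := hS q
        positivity
      · exact le_rfl
  refine h1.trans ?_
  rw [Finset.sum_comm]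
  rw [Finset.mul_sum]
  apply Finset.sum_le_sum
  intro q _
  rw [Finset.sum_comm]
  have h2 : ∀ k ∈ Icc 1 D, ∑ d ∈ Icc 1 D,
      (if q * k = d then 1 / (q.totient : ℝ) * S q * (1 / (k.totient : ℝ)) else 0) ≤
      1 / (q.totient : ℝ) * S q * (1 / (k.totient : ℝ)) := by
    intro k _
    rw [Finset.sum_ite_eq]
    split_ifs
    · exact le_rfl
    · have := hS q
      positivity
  refine (Finset.sum_le_sum h2).trans ?_
  rw [← Finset.mul_sum, mul_comm]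
  apply mul_le_mul_of_nonneg_right (sum_inv_phi D hD)
  have := hS q
  positivity

/-- **Bombieri and Vinogradov**, exponent `1 / 9`, smooth weight -/
theorem bv (B : ℕ) : ∃ Z₀ : ℕ, ∀ Z D : ℕ, Z₀ ≤ Z → 2 ≤ D → D ^ 9 ≤ Z → ∀ c : ℕ → ℕ,
    (∀ d ∈ Icc 1 D, (c d).Coprime d) →
    ∑ d ∈ Icc 1 D, |∑ n ∈ (Ioc Z (16 * Z)).filter (fun n => n ≡ c d [MOD d]),
      vonMangoldt n * GG ((n : ℝ) / Z) - PG Z / d.totient| ≤ Z / Real.log Z ^ B := by
  obtain ⟨C₁, hC₁, hLC⟩ := large_cond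
  obtain ⟨A, hA⟩ : ∃ A, A = B + 6 := ⟨_, rfl⟩
  obtain ⟨C₂, hC₂, hSW⟩ := sw_smooth A (A + B + 2) (by omega)
  obtain ⟨x₁, hx₁⟩ := ev_pow 1 (1000 * (C₁ + C₂)) 1 one_pos
  obtain ⟨x₂, hx₂⟩ := ev_pow (B + 6) (1000 * C₁) (1 / 4) (by norm_num)
  obtain ⟨x₃, hx₃⟩ := ev_pow (B + 3) (10 ^ 9) (1 / 4) (by norm_num)
  obtain ⟨x₄, hx₄⟩ : ∃ x₄ : ℕ, x₄ = ⌈Real.exp (1000 * (C₁ + C₂) + 10)⌉₊ := ⟨_, rfl⟩
  refine ⟨x₁ + x₂ + x₃ + x₄ + 600, fun Z D hZ hD hDZ c hc => ?_⟩
  have hZr : (600 : ℝ) ≤ Z := by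
    have : 600 ≤ Z := by omega
    exact_mod_cast this
  have hZ0 : (0 : ℝ) < Z := by linarith
  obtain ⟨L, hL⟩ : ∃ L, L = Real.log Z := ⟨_, rfl⟩
  have hL10 : 1000 * (C₁ + C₂) + 10 ≤ L := by
    rw [hL, Real.le_log_iff_exp_le hZ0]
    have h1 : x₄ ≤ Z := by omega
    have h2 := Nat.le_ceil (Real.exp (1000 * (C₁ + C₂) + 10))
    rw [← hx₄] at h2
    exact h2.trans (by exact_mod_cast h1)
  have hL1 : 10 ≤ L := by linarith
  have hL0 : 0 < L := by linarith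
  rw [← hL]
  have hD1 : 1 ≤ D := by omega
  have hDZ1 : D ≤ Z := le_trans (Nat.le_self_pow (by norm_num) D) hDZ
  have hD8 : D ^ 8 ≤ Z := le_trans (Nat.pow_le_pow_right hD1 (by norm_num)) hDZ
  have hlogD : Real.log D ≤ L := by
    rw [hL]
    apply Real.log_le_log
    · have : 0 < D := by omega
      exact_mod_cast this
    · exact_mod_cast hDZ1
  have hlogD0 : 0 ≤ Real.log D := by
    apply Real.log_nonneg
    exact_mod_cast hD1
  have hE0 := EP_nonneg Z (by omega)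
  -- sum over the moduli
  have h1 : ∑ d ∈ Icc 1 D, |∑ n ∈ (Ioc Z (16 * Z)).filter (fun n => n ≡ c d [MOD d]),
      vonMangoldt n * GG ((n : ℝ) / Z) - PG Z / d.totient| ≤
      ∑ d ∈ Icc 1 D, (1 / (d.totient : ℝ) *
        ∑ q ∈ d.divisors.erase 1, primSum q (fun ψ => ‖SG Z ψ‖ + EP Z) + EP Z) := by
    apply Finset.sum_le_sum
    intro d hd
    have hd' := mem_Icc.1 hd
    exact one_mod Z d (c d) (by omega) hd'.1 (by omega) (hc d hd)
  refine h1.trans ?_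
  rw [Finset.sum_add_distrib, Finset.sum_const, nsmul_eq_mul, Nat.card_Icc, Nat.add_sub_cancel]
  have h2 := sum_mod D hD1 (fun q => primSum q (fun ψ => ‖SG Z ψ‖ + EP Z))
    (fun q => primSum_nonneg _ _ (fun ψ => by positivity))
  -- split the conductors
  obtain ⟨Q₁, hQ₁⟩ : ∃ Q₁ : ℕ, Q₁ = ⌊L ^ A⌋₊ := ⟨_, rfl⟩
  have hLA1 : 1 ≤ L ^ A := one_le_pow₀ (by linarith)
  have hQ1 : 1 ≤ Q₁ := by
    rw [hQ₁]
    exact Nat.le_floor (by exact_mod_cast hLA1)
  have hQ₁le : (Q₁ : ℝ) ≤ L ^ A := by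
    rw [hQ₁]
    exact Nat.floor_le (by positivity)
  have hQ₁ge : L ^ A / 2 ≤ Q₁ := by
    have h3 := Nat.lt_floor_add_one (L ^ A)
    rw [← hQ₁] at h3
    have h4 : (1 : ℝ) ≤ Q₁ := by exact_mod_cast hQ1
    linarith
  have hQ0 : (0 : ℝ) < Q₁ := by exact_mod_cast hQ1
  have hsplit : ∀ q ∈ Ioc 1 D, 1 / (q.totient : ℝ) * primSum q (fun ψ => ‖SG Z ψ‖ + EP Z) ≤
      (if q ≤ Q₁ then C₂ * Z / L ^ (A + B + 3) else 0) +
      (if Q₁ < q then 1 / (q.totient : ℝ) * primSum q (fun ψ => ‖SG Z ψ‖) else 0) + EP Z := by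
    intro q hq
    rw [mem_Ioc] at hq
    have hφ : (0 : ℝ) < q.totient := by exact_mod_cast Nat.totient_pos.2 (by omega : 0 < q)
    rw [primSum_add, mul_add]
    have h3 : 1 / (q.totient : ℝ) * primSum q (fun _ => EP Z) ≤ EP Z := by
      rw [one_div, inv_mul_le_iff₀ hφ]
      exact primSum_const q (by omega) _ hE0
    apply add_le_add _ h3
    by_cases hqQ : q ≤ Q₁
    · rw [if_pos hqQ, if_neg (not_lt.2 hqQ), add_zero, one_div, inv_mul_le_iff₀ hφ]
      have h4 : primSum q (fun ψ => ‖SG Z ψ‖) ≤ primSum q (fun _ => C₂ * Z / L ^ (A + B + 3)) := by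
        apply primSum_mono
        intro ψ hψ
        have hqA : (q : ℝ) ≤ Real.log Z ^ A := by
          rw [← hL]
          refine le_trans ?_ hQ₁le
          exact_mod_cast hqQ
        have hψ1 : ψ ≠ 1 := by
          rintro rfl
          have : NeZero q := ⟨by omega⟩
          rw [DirichletCharacter.isPrimitive_def, DirichletCharacter.conductor_one] at hψ
          omega
        have h5 := hSW Z (by omega) q (by omega) hqA ψ hψ1
        rw [← hL] at h5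
        exact h5
      exact h4.trans (primSum_const q (by omega) _ (by positivity))
    · rw [if_neg hqQ, if_pos (not_le.1 hqQ), zero_add]
  have h3 : ∑ q ∈ Ioc 1 D, 1 / (q.totient : ℝ) * primSum q (fun ψ => ‖SG Z ψ‖ + EP Z) ≤
      Q₁ * (C₂ * Z / L ^ (A + B + 3)) + C₁ * L ^ 3 * (Z / Q₁ + D ^ 6) + D * EP Z := by
    refine (Finset.sum_le_sum hsplit).trans ?_
    rw [Finset.sum_add_distrib, Finset.sum_add_distrib, ← Finset.sum_filter, ← Finset.sum_filter]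
    apply add_le_add (add_le_add ?_ ?_) ?_
    · rw [Finset.sum_const, nsmul_eq_mul]
      apply mul_le_mul_of_nonneg_right _ (by positivity)
      have h4 : (Ioc 1 D).filter (fun q => q ≤ Q₁) ⊆ Ioc 0 Q₁ := by
        intro q hq
        rw [mem_filter, mem_Ioc] at hq
        rw [mem_Ioc]
        omega
      have h5 := Finset.card_le_card h4
      rw [Nat.card_Ioc, Nat.sub_zero] at h5
      exact_mod_cast h5
    · have h4 := hLC Z D Q₁ hQ1 hD hD8
      rw [← hL] at h4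
      refine le_trans ?_ h4
      unfold LQ
      apply Finset.sum_le_sum_of_subset_of_nonneg
      · intro q hq
        rw [mem_filter, mem_Ioc] at hq
        rw [mem_Ioc]
        omega
      · intro q _ _
        exact mul_nonneg (by positivity) (primSum_nonneg _ _ (fun _ => norm_nonneg _))
    · rw [Finset.sum_const, nsmul_eq_mul, Nat.card_Ioc]
      apply mul_le_mul_of_nonneg_right _ hE0
      exact_mod_cast Nat.sub_le D 1
  -- numerical estimates
  have hA' : A = B + 6 := hA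
  have hlogsq : (1 + Real.log D) ^ 2 ≤ 4 * L ^ 2 := by nlinarith
  have hDr1 : (1 : ℝ) ≤ D := by exact_mod_cast hD1
  have hD9 : (D : ℝ) ^ 9 ≤ Z := by exact_mod_cast hDZ
  have hLB : 0 < L ^ B := by positivity
  obtain ⟨Y, hY⟩ : ∃ Y : ℝ, Y = Z / L ^ B := ⟨_, rfl⟩
  have hY0 : 0 < Y := by rw [hY]; positivity
  have hYB : Y * L ^ B = Z := by rw [hY]; field_simp
  -- (1)
  have n1 : 4 * L ^ 2 * (Q₁ * (C₂ * Z / L ^ (A + B + 3))) ≤ Y / 8 := by
    have h4 : 4 * L ^ 2 * (Q₁ * (C₂ * Z / L ^ (A + B + 3))) ≤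
        4 * L ^ 2 * (L ^ A * (C₂ * Z / L ^ (A + B + 3))) := by gcongr
    have h5 : 4 * L ^ 2 * (L ^ A * (C₂ * Z / L ^ (A + B + 3))) = 4 * C₂ * Y / L := by
      have e : L ^ (A + B + 3) = L ^ A * L ^ B * L ^ 3 := by rw [pow_add, pow_add]
      rw [hY, e]
      field_simp
    rw [h5] at h4
    refine h4.trans ?_
    rw [div_le_div_iff₀ hL0 (by norm_num)]
    nlinarith
  -- (2)
  have n2 : 4 * L ^ 2 * (C₁ * L ^ 3 * (Z / Q₁)) ≤ Y / 8 := by
    have h4 : (Z : ℝ) / Q₁ ≤ Z / (L ^ A / 2) :=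
      div_le_div_of_nonneg_left hZ0.le (by positivity) hQ₁ge
    have h5 : 4 * L ^ 2 * (C₁ * L ^ 3 * (Z / Q₁)) ≤
        4 * L ^ 2 * (C₁ * L ^ 3 * (Z / (L ^ A / 2))) := by gcongr
    have h6 : 4 * L ^ 2 * (C₁ * L ^ 3 * (Z / (L ^ A / 2))) = 8 * C₁ * Y / L := by
      rw [hY, hA', pow_add]
      field_simp
      ring
    rw [h6] at h5
    refine h5.trans ?_
    rw [div_le_div_iff₀ hL0 (by norm_num)]
    nlinarith
  -- (3)
  have hD6 : (D : ℝ) ^ 6 ≤ (Z : ℝ) ^ (3 / 4 : ℝ) := by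
    have h4 : ((D : ℝ) ^ 6) ^ (4 / 3 : ℝ) ≤ Z := by
      rw [← Real.rpow_natCast, ← Real.rpow_mul (by positivity)]
      have h5 : ((6 : ℕ) : ℝ) * (4 / 3) = ((8 : ℕ) : ℝ) := by norm_num
      rw [h5, Real.rpow_natCast]
      refine le_trans ?_ hD9
      exact pow_le_pow_right₀ hDr1 (by norm_num)
    have h5 := Real.rpow_le_rpow (by positivity) h4 (show (0 : ℝ) ≤ 3 / 4 by norm_num)
    rw [← Real.rpow_mul (by positivity)] at h5
    norm_num at h5
    exact h5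
  have hZ34 : (Z : ℝ) ^ (3 / 4 : ℝ) * (Z : ℝ) ^ (1 / 4 : ℝ) = Z := by
    rw [← Real.rpow_add hZ0]
    norm_num
  have n3 : 4 * L ^ 2 * (C₁ * L ^ 3 * D ^ 6) ≤ Y / 8 := by
    have h4 := hx₂ Z (by omega)
    rw [← hL] at h4
    have h5 : 4 * L ^ 2 * (C₁ * L ^ 3 * D ^ 6) ≤
        4 * L ^ 2 * (C₁ * L ^ 3 * (Z : ℝ) ^ (3 / 4 : ℝ)) := by gcongr
    refine h5.trans ?_
    rw [hY, div_div, le_div_iff₀ (by positivity)]
    have h6 : L ^ (B + 5) ≤ L ^ (B + 6) := pow_le_pow_right₀ (by linarith) (by omega)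
    calc 4 * L ^ 2 * (C₁ * L ^ 3 * (Z : ℝ) ^ (3 / 4 : ℝ)) * (L ^ B * 8)
        = 32 * C₁ * L ^ (B + 5) * (Z : ℝ) ^ (3 / 4 : ℝ) := by ring
      _ ≤ 1000 * C₁ * L ^ (B + 6) * (Z : ℝ) ^ (3 / 4 : ℝ) := by
          apply mul_le_mul_of_nonneg_right _ (by positivity)
          apply mul_le_mul _ h6 (by positivity) (by positivity)
          linarith
      _ ≤ (Z : ℝ) ^ (1 / 4 : ℝ) * (Z : ℝ) ^ (3 / 4 : ℝ) :=
          mul_le_mul_of_nonneg_right h4 (by positivity)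
      _ = Z := by rw [mul_comm]; exact hZ34
  -- (4)
  have hEPb : EP Z ≤ 10 ^ 6 * (Real.sqrt Z * L) := by
    have h4 : Real.sqrt (16 * Z) = 4 * Real.sqrt Z := by
      rw [Real.sqrt_mul (by norm_num), show (16 : ℝ) = 4 ^ 2 by norm_num,
        Real.sqrt_sq (by norm_num)]
    have h5 : Real.log (16 * Z) ≤ 2 * L := by
      rw [Real.log_mul (by norm_num) hZ0.ne', ← hL, show (16 : ℝ) = 2 ^ 4 by norm_num,
        Real.log_pow]
      have := Real.log_two_lt_d9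
      push_cast
      linarith
    unfold EP
    rw [h4]
    have h6 : 0 ≤ Real.sqrt Z := Real.sqrt_nonneg _
    calc 60000 * (2 * (4 * Real.sqrt Z) * Real.log (16 * Z))
        ≤ 60000 * (2 * (4 * Real.sqrt Z) * (2 * L)) := by gcongr
      _ = 960000 * (Real.sqrt Z * L) := by ring
      _ ≤ 10 ^ 6 * (Real.sqrt Z * L) := by
          have : 0 ≤ Real.sqrt Z * L := by positivity
          nlinarith
  have hD4 : (D : ℝ) ≤ (Z : ℝ) ^ (1 / 8 : ℝ) := by
    have h4 : (D : ℝ) ^ 8 ≤ Z := (pow_le_pow_right₀ hDr1 (by norm_num)).trans hD9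
    have h5 := Real.rpow_le_rpow (by positivity) h4 (show (0 : ℝ) ≤ 1 / 8 by norm_num)
    rw [← Real.rpow_natCast, ← Real.rpow_mul (by positivity)] at h5
    norm_num at h5
    exact h5
  have hZr1 : (1 : ℝ) ≤ Z := by linarith
  have n4 : (4 * L ^ 2 + 1) * (D * EP Z) ≤ Y / 8 := by
    have h4 := hx₃ Z (by omega)
    rw [← hL] at h4
    have h5 : (4 * L ^ 2 + 1) * (D * EP Z) ≤
        (5 * L ^ 2) * ((Z : ℝ) ^ (1 / 8 : ℝ) * (10 ^ 6 * (Real.sqrt Z * L))) := by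
      apply mul_le_mul _ _ (by positivity) (by positivity)
      · nlinarith
      · exact mul_le_mul hD4 hEPb hE0 (by positivity)
    have h6 : (Z : ℝ) ^ (1 / 8 : ℝ) * Real.sqrt Z = (Z : ℝ) ^ (5 / 8 : ℝ) := by
      rw [Real.sqrt_eq_rpow, ← Real.rpow_add hZ0]
      norm_num
    have h7 : (5 * L ^ 2) * ((Z : ℝ) ^ (1 / 8 : ℝ) * (10 ^ 6 * (Real.sqrt Z * L))) =
        5 * 10 ^ 6 * L ^ 3 * (Z : ℝ) ^ (5 / 8 : ℝ) := by
      rw [← h6]
      ring
    rw [h7] at h5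
    refine h5.trans ?_
    rw [hY, div_div, le_div_iff₀ (by positivity)]
    have h8 : (Z : ℝ) ^ (1 / 4 : ℝ) ≤ (Z : ℝ) ^ (3 / 8 : ℝ) :=
      Real.rpow_le_rpow_of_exponent_le hZr1 (by norm_num)
    have h9 : (Z : ℝ) ^ (3 / 8 : ℝ) * (Z : ℝ) ^ (5 / 8 : ℝ) = Z := by
      rw [← Real.rpow_add hZ0]
      norm_num
    have h10 : 0 ≤ L ^ (B + 3) := by positivity
    calc 5 * 10 ^ 6 * L ^ 3 * (Z : ℝ) ^ (5 / 8 : ℝ) * (L ^ B * 8)
        = (4 * 10 ^ 7 * L ^ (B + 3)) * (Z : ℝ) ^ (5 / 8 : ℝ) := by ring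
      _ ≤ (10 ^ 9 * L ^ (B + 3)) * (Z : ℝ) ^ (5 / 8 : ℝ) := by
          apply mul_le_mul_of_nonneg_right _ (by positivity)
          apply mul_le_mul_of_nonneg_right _ h10
          norm_num
      _ ≤ (Z : ℝ) ^ (3 / 8 : ℝ) * (Z : ℝ) ^ (5 / 8 : ℝ) :=
          mul_le_mul_of_nonneg_right (h4.trans h8) (by positivity)
      _ = Z := h9
  obtain ⟨R, hR⟩ : ∃ R, R = Q₁ * (C₂ * Z / L ^ (A + B + 3)) +
      C₁ * L ^ 3 * ((Z : ℝ) / Q₁ + (D : ℝ) ^ 6) + D * EP Z := ⟨_, rfl⟩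
  have hR0 : 0 ≤ R := by rw [hR]; positivity
  rw [← hR] at h3
  have h4 : (1 + Real.log D) ^ 2 * ∑ q ∈ Ioc 1 D, 1 / (q.totient : ℝ) *
      primSum q (fun ψ => ‖SG Z ψ‖ + EP Z) ≤ 4 * L ^ 2 * R :=
    (mul_le_mul_of_nonneg_left h3 (by positivity)).trans
      (mul_le_mul_of_nonneg_right hlogsq hR0)
  have h5 : 4 * L ^ 2 * R = 4 * L ^ 2 * (Q₁ * (C₂ * Z / L ^ (A + B + 3))) +
      4 * L ^ 2 * (C₁ * L ^ 3 * (Z / Q₁)) + 4 * L ^ 2 * (C₁ * L ^ 3 * D ^ 6) +
      4 * L ^ 2 * (D * EP Z) := by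
    rw [hR]
    ring
  have h6 : (4 * L ^ 2 + 1) * (D * EP Z) = 4 * L ^ 2 * (D * EP Z) + D * EP Z := by ring
  rw [← hY]
  linarith

end Pool.Agent.Lib.MP_2a99c0_nt.H73
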