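import Pool.Agent.Lib.MP_2a99c0_nt.H73.Cov
import Pool.Agent.Lib.MP_02fec8_nt.Mert

/-!
# The case of all primes up to `x`
-/

set_option autoImplicit false

namespace Pool.Agent.Lib.MP_2a99c0_nt.H73

open Finset
open scoped Classical

lemma primesLE_card_le : ∃ x₁ : ℕ, ∀ x : ℕ, x₁ ≤ x →
    ((Nat.primesLE x).card : ℝ) * Real.log x ≤ 3 * x := by
  have h := Chebyshev.eventually_primeCounting_le (show (0 : ℝ) < 1 by norm_num)
  rw [Filter.eventually_atTop] at h
  obtain ⟨T, hT⟩ := h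
  refine ⟨⌈T⌉₊ + 2, fun x hx => ?_⟩
  have hxT : T ≤ (x : ℝ) := by
    have h1 : ⌈T⌉₊ ≤ x := by omega
    exact (Nat.le_ceil T).trans (by exact_mod_cast h1)
  have hx2 : (2 : ℝ) ≤ x := by
    have : 2 ≤ x := by omega
    exact_mod_cast this
  have h1 := hT x hxT
  rw [Nat.floor_natCast, ← Nat.primesLE_card_eq_primeCounting,
    le_div_iff₀ (Real.log_pos (by linarith))] at h1
  refine h1.trans ?_
  have h4 : Real.log 4 ≤ 2 := by
    rw [show (4 : ℝ) = 2 ^ 2 by norm_num, Real.log_pow]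
    have := Real.log_two_lt_d9
    push_cast
    linarith
  apply mul_le_mul_of_nonneg_right _ (by linarith)
  linarith

/-- for coverings by the primes up to `x` -/
theorem shared_primes : ∃ c C : ℝ, 0 < c ∧ 0 < C ∧ ∀ (x : ℕ) (l : ℝ) (r : ℕ → ℤ) (y : ℕ) (n : ℤ),
    C ≤ x → C ≤ l → l ≤ x → l * x ≤ y → Covers (Nat.primesLE x) r y → 0 ≤ n → n ≤ y + 1 →
    c * (Real.log l / Real.log x) ≤ ∑ p ∈ (Nat.primesLE x).filter
      (fun p : ℕ => Real.log l / 4 < p ∧ ¬ (p : ℤ) ∣ n - r p), 1 / (p : ℝ) := by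
  obtain ⟨c, C, hc, hC, h⟩ := shared
  obtain ⟨x₁, hx₁⟩ := primesLE_card_le
  refine ⟨c / 3, 9 * C ^ 2 + x₁ + 3, by positivity, by positivity, ?_⟩
  intro x l r y n hx hl hlx hy hcov hn0 hn1
  have hC2 : 0 ≤ C ^ 2 := by positivity
  have hx₁0 : (0 : ℝ) ≤ x₁ := Nat.cast_nonneg _
  have hx3 : (3 : ℝ) ≤ x := by linarith
  have hx0 : (0 : ℝ) < x := by linarith
  have hl3 : 3 ≤ l := by linarith
  have hl0 : 0 < l := by linarith
  have hxx₁ : x₁ ≤ x := by
    have : (x₁ : ℝ) ≤ x := by linarith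
    exact_mod_cast this
  have hx3' : 3 ≤ x := by exact_mod_cast hx3
  obtain ⟨L, hL⟩ : ∃ L, L = Real.log x := ⟨_, rfl⟩
  obtain ⟨e, he⟩ : ∃ e, e = Real.log l := ⟨_, rfl⟩
  have hL0 : 0 < L := by rw [hL]; exact Real.log_pos (by linarith)
  have he0 : 0 < e := by rw [he]; exact Real.log_pos (by linarith)
  have heL : e ≤ L := by rw [he, hL]; exact Real.log_le_log hl0 hlx
  rw [← he, ← hL]
  have hP : ∀ p ∈ Nat.primesLE x, p.Prime := fun p hp => (Nat.mem_primesLE.1 hp).2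
  obtain ⟨k, hk⟩ : ∃ k, k = (Nat.primesLE x).card := ⟨_, rfl⟩
  have hkx : k ≤ x := by
    have h1 : Nat.primesLE x ⊆ Icc 1 x := by
      intro p hp
      rw [Nat.mem_primesLE] at hp
      exact mem_Icc.2 ⟨hp.2.one_lt.le, hp.1⟩
    have h2 := Finset.card_le_card h1
    rw [Nat.card_Icc, Nat.add_sub_cancel] at h2
    rwa [hk]
  have hk2 : 2 ≤ k := by
    have h1 : ({2, 3} : Finset ℕ) ⊆ Nat.primesLE x := by
      intro p hp
      rw [mem_insert, mem_singleton] at hp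
      rw [Nat.mem_primesLE]
      rcases hp with rfl | rfl
      · exact ⟨by omega, Nat.prime_two⟩
      · exact ⟨hx3', Nat.prime_three⟩
    have h2 := Finset.card_le_card h1
    rw [← hk] at h2
    exact h2
  have hkL : (k : ℝ) * L ≤ 3 * x := by
    rw [hk, hL]
    exact hx₁ x hxx₁
  have hk0 : (0 : ℝ) < k := by
    have : 0 < k := by omega
    exact_mod_cast this
  have hlogk : Real.log k ≤ L := by
    rw [hL]
    exact Real.log_le_log hk0 (by exact_mod_cast hkx)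
  obtain ⟨s, hs⟩ : ∃ s, s = Real.sqrt l := ⟨_, rfl⟩
  have hs0 : 0 < s := by rw [hs]; exact Real.sqrt_pos.2 hl0
  have hss : s * s = l := by rw [hs]; exact Real.mul_self_sqrt hl0.le
  have hsC : 3 * C ≤ s := by
    rw [hs]
    apply Real.le_sqrt_of_sq_le
    nlinarith
  have hlogs : Real.log s = e / 2 := by
    have h1 : Real.log (s * s) = Real.log s + Real.log s := Real.log_mul hs0.ne' hs0.ne'
    rw [hss, ← he] at h1
    linarith
  obtain ⟨D, hD⟩ : ∃ D, D = (Nat.primesLE x).filter (fun p : ℕ => (p : ℝ) ≤ e / 4) := ⟨_, rfl⟩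
  have hDP : D ⊆ Nat.primesLE x := by rw [hD]; exact Finset.filter_subset _ _
  have hprod : ∏ p ∈ D, (p : ℝ) ≤ s := by
    obtain ⟨z, hz⟩ : ∃ z : ℕ, z = ⌊e / 4⌋₊ := ⟨_, rfl⟩
    have hz1 : (z : ℝ) ≤ e / 4 := by
      rw [hz]
      exact Nat.floor_le (by positivity)
    have hsub : D ⊆ Nat.primesLE z := by
      intro p hp
      rw [hD, mem_filter, Nat.mem_primesLE] at hp
      rw [Nat.mem_primesLE, hz]
      exact ⟨Nat.le_floor hp.2, hp.1.2⟩
    have h1 : ∏ p ∈ D, p ≤ 4 ^ z := by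
      refine le_trans ?_ (primorial_le_four_pow z)
      rw [primorial_eq_prod_primesLE]
      apply Nat.le_of_dvd
      · exact Finset.prod_pos fun p hp => (Nat.mem_primesLE.1 hp).2.pos
      · exact Finset.prod_dvd_prod_of_subset _ _ _ hsub
    have h2 : (((∏ p ∈ D, p : ℕ)) : ℝ) ≤ ((4 ^ z : ℕ) : ℝ) := Nat.cast_le.2 h1
    rw [Nat.cast_prod] at h2
    refine h2.trans ?_
    have h4 : Real.log 4 ≤ 2 := by
      rw [show (4 : ℝ) = 2 ^ 2 by norm_num, Real.log_pow]
      have := Real.log_two_lt_d9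
      push_cast
      linarith
    have h40 : 0 ≤ Real.log 4 := Real.log_nonneg (by norm_num)
    rw [← Real.log_le_log_iff (by positivity) hs0, hlogs]
    push_cast
    rw [Real.log_pow]
    calc (z : ℝ) * Real.log 4 ≤ (e / 4) * 2 := mul_le_mul hz1 h4 h40 (by positivity)
      _ = e / 2 := by ring
  obtain ⟨X, hX⟩ : ∃ X : ℝ, X = s * x := ⟨_, rfl⟩
  have hXbig : C * (k * Real.log k) ≤ X := by
    have h1 : (k : ℝ) * Real.log k ≤ 3 * x :=
      (mul_le_mul_of_nonneg_left hlogk hk0.le).trans hkL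
    calc C * (k * Real.log k) ≤ C * (3 * x) := mul_le_mul_of_nonneg_left h1 hC.le
      _ = 3 * C * x := by ring
      _ ≤ s * x := mul_le_mul_of_nonneg_right hsC hx0.le
      _ = X := hX.symm
  have hXpos : 0 < X := by rw [hX]; positivity
  have hXy : X * ∏ p ∈ D, (p : ℝ) ≤ y := by
    calc X * ∏ p ∈ D, (p : ℝ) ≤ X * s := mul_le_mul_of_nonneg_left hprod hXpos.le
      _ = (s * s) * x := by rw [hX]; ring
      _ = l * x := by rw [hss]
      _ ≤ y := hy
  have hmain := h k (Nat.primesLE x) D r y n X hk2 hP hk.ge hcov hn0 hn1 hDP hXbig hXy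
  have hlX : Real.log X = e / 2 + L := by
    rw [hX, Real.log_mul hs0.ne' hx0.ne', hlogs, hL]
  have hle : ∑ p ∈ (Nat.primesLE x \ D).filter (fun p : ℕ => ¬ (p : ℤ) ∣ n - r p ∧ 16 * (p : ℝ) ≤ X),
      Real.log X / (p * Real.log (X / p)) ≤
      3 * L / e * ∑ p ∈ (Nat.primesLE x).filter
      (fun p : ℕ => e / 4 < p ∧ ¬ (p : ℤ) ∣ n - r p), 1 / (p : ℝ) := by
    rw [Finset.mul_sum]
    have hsub : (Nat.primesLE x \ D).filter (fun p : ℕ => ¬ (p : ℤ) ∣ n - r p ∧ 16 * (p : ℝ) ≤ X) ⊆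
        (Nat.primesLE x).filter (fun p : ℕ => e / 4 < p ∧ ¬ (p : ℤ) ∣ n - r p) := by
      intro p hp
      rw [mem_filter, mem_sdiff, hD, mem_filter] at hp
      rw [mem_filter]
      refine ⟨hp.1.1, ?_, hp.2.1⟩
      by_contra hcon
      exact hp.1.2 ⟨hp.1.1, not_lt.1 hcon⟩
    refine le_trans (Finset.sum_le_sum (g := fun p : ℕ => 3 * L / e * (1 / (p : ℝ))) ?_)
      (Finset.sum_le_sum_of_subset_of_nonneg hsub ?_)
    · intro p hp
      rw [mem_filter, mem_sdiff] at hp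
      have hpp := hP p hp.1.1
      have hp0 : (0 : ℝ) < p := by exact_mod_cast hpp.pos
      have hpx : (p : ℝ) ≤ x := by
        exact_mod_cast (Nat.mem_primesLE.1 hp.1.1).1
      have h1 : Real.log (p : ℝ) ≤ L := by
        rw [hL]
        exact Real.log_le_log hp0 hpx
      have h2 : Real.log (X / p) = e / 2 + L - Real.log p := by
        rw [Real.log_div hXpos.ne' hp0.ne', hlX]
      have h3 : e / 2 ≤ Real.log (X / p) := by
        rw [h2]
        linarith
      have h4 : 0 < Real.log (X / p) := lt_of_lt_of_le (by positivity) h3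
      rw [hlX, div_mul_div_comm, mul_one, div_le_div_iff₀ (by positivity) (by positivity)]
      have h5 : (e / 2 + L) * e ≤ 3 * L * Real.log (X / p) := by nlinarith
      calc (e / 2 + L) * (e * p) = ((e / 2 + L) * e) * p := by ring
        _ ≤ (3 * L * Real.log (X / p)) * p := mul_le_mul_of_nonneg_right h5 hp0.le
        _ = 3 * L * (p * Real.log (X / p)) := by ring
    · intro p _ _
      positivity
  have h1 := hmain.trans hle
  obtain ⟨S, hS⟩ : ∃ S, S = ∑ p ∈ (Nat.primesLE x).filter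
      (fun p : ℕ => e / 4 < p ∧ ¬ (p : ℤ) ∣ n - r p), 1 / (p : ℝ) := ⟨_, rfl⟩
  rw [← hS] at h1 ⊢
  have h2 : c * e ≤ 3 * L * S := by
    have h3 := mul_le_mul_of_nonneg_right h1 he0.le
    have h4 : 3 * L / e * S * e = 3 * L * S := by field_simp
    rwa [h4] at h3
  rw [← mul_div_assoc, div_le_iff₀ hL0]
  linarith

/-- no integer is shared by all primes between `(log l) / 4` and `x / l ^ c` -/
theorem no_shared : ∃ c C : ℝ, 0 < c ∧ 0 < C ∧ ∀ (x : ℕ) (l : ℝ) (r : ℕ → ℤ) (y : ℕ) (n : ℤ),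
    C ≤ x → C ≤ l → l ≤ x → l * x ≤ y → Covers (Nat.primesLE x) r y → 0 ≤ n → n ≤ y + 1 →
    ∃ p : ℕ, p.Prime ∧ Real.log l / 4 < p ∧ (p : ℝ) ≤ x / l ^ c ∧ ¬ (p : ℤ) ∣ n - r p := by
  obtain ⟨c₀, C₀, hc₀, hC₀, h⟩ := shared_primes
  obtain ⟨K, hK0, hK⟩ := Pool.Agent.Lib.MP_02fec8_nt.Mert.mertens1
  obtain ⟨c, hc⟩ : ∃ c, c = min (c₀ / 8) (1 / 2) := ⟨_, rfl⟩
  have hc0 : 0 < c := by rw [hc]; positivity
  have hc1 : c ≤ c₀ / 8 := by rw [hc]; exact min_le_left _ _
  have hc2 : c ≤ 1 / 2 := by rw [hc]; exact min_le_right _ _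
  obtain ⟨T, hT⟩ : ∃ T : ℝ, T = 4 * (1 + 2 * K) / c₀ := ⟨_, rfl⟩
  refine ⟨c, C₀ + 3 + Real.exp T, hc0, by positivity, ?_⟩
  intro x l r y n hx hl hlx hy hcov hn0 hn1
  have hexp := Real.exp_pos T
  have hx3 : (3 : ℝ) ≤ x := by linarith
  have hx0 : (0 : ℝ) < x := by linarith
  have hl3 : 3 ≤ l := by linarith
  have hl0 : 0 < l := by linarith
  have hx1 : 1 ≤ x := by
    have : (1 : ℝ) ≤ x := by linarith
    exact_mod_cast this
  have hmain := h x l r y n (by linarith) (by linarith) hlx hy hcov hn0 hn1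
  obtain ⟨L, hL⟩ : ∃ L, L = Real.log x := ⟨_, rfl⟩
  obtain ⟨e, he⟩ : ∃ e, e = Real.log l := ⟨_, rfl⟩
  have hL0 : 0 < L := by rw [hL]; exact Real.log_pos (by linarith)
  have he0 : 0 < e := by rw [he]; exact Real.log_pos (by linarith)
  have heL : e ≤ L := by rw [he, hL]; exact Real.log_le_log hl0 hlx
  have heT : T ≤ e := by
    rw [he, Real.le_log_iff_exp_le hl0]
    linarith
  have hcl0 : 0 < l ^ c := by positivity
  obtain ⟨w, hw⟩ : ∃ w : ℝ, w = x / l ^ c := ⟨_, rfl⟩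
  have hw0 : 0 < w := by rw [hw]; positivity
  have hlw : Real.log w = L - c * e := by
    rw [hw, Real.log_div hx0.ne' hcl0.ne', Real.log_rpow hl0, hL, he]
  have hlw2 : L / 2 ≤ Real.log w := by
    rw [hlw]
    nlinarith
  have hw1 : 1 ≤ w := by
    by_contra hcon
    push Not at hcon
    have := Real.log_neg hw0 hcon
    linarith
  have hwx : w ≤ x := by
    rw [hw]
    apply div_le_self hx0.le
    exact Real.one_le_rpow (by linarith) hc0.le
  rw [← hw]
  by_contra hcon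
  push Not at hcon
  obtain ⟨z, hz⟩ : ∃ z : ℕ, z = ⌊w⌋₊ := ⟨_, rfl⟩
  have hzle : (z : ℝ) ≤ w := by
    rw [hz]
    exact Nat.floor_le (by linarith)
  have hz1 : 1 ≤ z := by
    rw [hz]
    exact Nat.le_floor (by exact_mod_cast hw1)
  have hzge : w / 2 ≤ z := by
    have h1 := Nat.lt_floor_add_one w
    rw [← hz] at h1
    have h2 : (1 : ℝ) ≤ z := by exact_mod_cast hz1
    linarith
  have hzx : z ≤ x := by
    have h1 : (z : ℝ) ≤ x := hzle.trans hwx
    exact_mod_cast h1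
  have hsub : (Nat.primesLE x).filter
      (fun p : ℕ => Real.log l / 4 < p ∧ ¬ (p : ℤ) ∣ n - r p) ⊆
      Nat.primesLE x \ Nat.primesLE z := by
    intro p hp
    rw [mem_filter] at hp
    rw [mem_sdiff]
    refine ⟨hp.1, fun hpz => ?_⟩
    have hpp := (Nat.mem_primesLE.1 hp.1).2
    have h1 : (p : ℝ) ≤ w := by
      have h2 : (p : ℝ) ≤ z := by exact_mod_cast (Nat.mem_primesLE.1 hpz).1
      linarith
    exact hp.2.2 (hcon p hpp hp.2.1 h1)
  have hlow : ∀ p ∈ Nat.primesLE x \ Nat.primesLE z, 1 / (p : ℝ) ≤ 2 / L * (Real.log p / p) := by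
    intro p hp
    rw [mem_sdiff, Nat.mem_primesLE, Nat.mem_primesLE] at hp
    have hp0 : (0 : ℝ) < p := by exact_mod_cast hp.1.2.pos
    have h1 : w < p := by
      have h2 : z < p := by
        by_contra h3
        exact hp.2 ⟨not_lt.1 h3, hp.1.2⟩
      rw [hz] at h2
      exact (Nat.floor_lt (by linarith)).1 h2
    have h3 : L / 2 ≤ Real.log p := hlw2.trans (Real.log_le_log hw0 h1.le)
    have h4 : 2 / L * (Real.log p / p) = (2 * Real.log p / L) * (1 / p) := by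
      field_simp
    rw [h4]
    have h5 : 1 ≤ 2 * Real.log p / L := by
      rw [le_div_iff₀ hL0]
      linarith
    have h6 : (0 : ℝ) ≤ 1 / p := by positivity
    nlinarith
  have hsum : ∑ p ∈ (Nat.primesLE x).filter
      (fun p : ℕ => Real.log l / 4 < p ∧ ¬ (p : ℤ) ∣ n - r p), 1 / (p : ℝ) ≤
      2 / L * (Pool.Agent.Lib.MP_02fec8_nt.Mert.M x - Pool.Agent.Lib.MP_02fec8_nt.Mert.M z) := by
    have h1 : Pool.Agent.Lib.MP_02fec8_nt.Mert.M x - Pool.Agent.Lib.MP_02fec8_nt.Mert.M z =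
        ∑ p ∈ Nat.primesLE x \ Nat.primesLE z, Real.log p / p := by
      have hss : Nat.primesLE z ⊆ Nat.primesLE x := by
        intro p hp
        rw [Nat.mem_primesLE] at hp ⊢
        exact ⟨hp.1.trans hzx, hp.2⟩
      have h2 := Finset.sum_sdiff (f := fun p : ℕ => Real.log p / (p : ℝ)) hss
      unfold Pool.Agent.Lib.MP_02fec8_nt.Mert.M
      linarith
    rw [h1, Finset.mul_sum]
    refine (Finset.sum_le_sum_of_subset_of_nonneg hsub ?_).trans (Finset.sum_le_sum hlow)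
    intro p _ _
    positivity
  have hMx := (abs_le.1 (hK x hx1)).2
  have hMz := (abs_le.1 (hK z hz1)).1
  have hlz : L - c * e - 1 ≤ Real.log z := by
    have h1 := Real.log_le_log (by positivity) hzge
    rw [Real.log_div (by positivity) (by norm_num), hlw] at h1
    have := Real.log_two_lt_d9
    linarith
  rw [← hL] at hMx
  rw [← he, ← hL] at hmain
  rw [← he] at hsum
  have hdiff : Pool.Agent.Lib.MP_02fec8_nt.Mert.M x - Pool.Agent.Lib.MP_02fec8_nt.Mert.M z ≤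
      c * e + (1 + 2 * K) := by linarith
  have hfin : c₀ * (e / L) ≤ 2 / L * (c * e + (1 + 2 * K)) :=
    hmain.trans (hsum.trans (mul_le_mul_of_nonneg_left hdiff (by positivity)))
  have h1 : c₀ * e ≤ 2 * (c * e + (1 + 2 * K)) := by
    have h2 := mul_le_mul_of_nonneg_right hfin hL0.le
    have h3 : c₀ * (e / L) * L = c₀ * e := by field_simp
    have h4 : 2 / L * (c * e + (1 + 2 * K)) * L = 2 * (c * e + (1 + 2 * K)) := by field_simp
    rwa [h3, h4] at h2
  have h2 : 4 * (1 + 2 * K) ≤ c₀ * e := by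
    have h3 : 4 * (1 + 2 * K) = T * c₀ := by
      rw [hT]
      field_simp
    nlinarith
  have h3 : c * e ≤ c₀ / 8 * e := mul_le_mul_of_nonneg_right hc1 he0.le
  have h4 : 0 < c₀ * e := by positivity
  linarith

end Pool.Agent.Lib.MP_2a99c0_nt.H73
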