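import Pool.Agent.Lib.MP_2a99c0_nt.H73.Bt2
import Mathlib

/-!
# An integer shared by most primes cannot occur in a long covering
-/

set_option autoImplicit false

namespace Pool.Agent.Lib.MP_2a99c0_nt.H73

open Finset
open scoped Classical

/-- the integers `1, …, y` are covered by the residue classes `r p` modulo `p`, `p ∈ P` -/
def Covers (P : Finset ℕ) (r : ℕ → ℤ) (y : ℕ) : Prop :=
  ∀ m : ℤ, 1 ≤ m → m ≤ y → ∃ p ∈ P, (p : ℤ) ∣ m - r p

/-- Chebyshev: primes in `(X, 4X]` -/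
theorem cheb_low : ∃ X₀ : ℕ, ∀ X : ℕ, X₀ ≤ X →
    (X : ℝ) ≤ 2 * Real.log X * ((Ioc X (4 * X)).filter Nat.Prime).card := by
  have hlo := (isLittleO_log_rpow_atTop (show (0 : ℝ) < 1 / 2 by norm_num)).bound
    (show (0 : ℝ) < 1 / 100 by norm_num)
  rw [Filter.eventually_atTop] at hlo
  obtain ⟨T, hT⟩ := hlo
  refine ⟨⌈T⌉₊ + 4, fun X hX => ?_⟩
  have hX4 : (4 : ℝ) ≤ X := by
    have : 4 ≤ X := by omega
    exact_mod_cast this
  have hXT : T ≤ (X : ℝ) := by
    have h1 : ⌈T⌉₊ ≤ X := by omega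
    exact (Nat.le_ceil T).trans (by exact_mod_cast h1)
  have hlog : ∀ t : ℝ, (X : ℝ) ≤ t → Real.log t ≤ 1 / 100 * Real.sqrt t := by
    intro t ht
    have h1 := hT t (hXT.trans ht)
    rw [Real.norm_eq_abs, Real.norm_eq_abs, ← Real.sqrt_eq_rpow,
      abs_of_nonneg (Real.sqrt_nonneg t)] at h1
    exact (le_abs_self _).trans h1
  have hth := Chebyshev.theta_ge (4 * X)
  have hup := Chebyshev.theta_le_log4_mul_x (x := (X : ℝ)) (by linarith)
  have hdiff : Chebyshev.theta ((4 * X : ℕ) : ℝ) ≤ Chebyshev.theta (X : ℝ) +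
      ((Ioc X (4 * X)).filter Nat.Prime).card * Real.log (4 * X) := by
    rw [Chebyshev.theta_eq_sum_primesLE_log, Chebyshev.theta_eq_sum_primesLE_log]
    have hsub : Nat.primesLE (4 * X) ⊆ Nat.primesLE X ∪ (Ioc X (4 * X)).filter Nat.Prime := by
      intro p hp
      rw [Nat.mem_primesLE] at hp
      rw [mem_union, Nat.mem_primesLE, mem_filter, mem_Ioc]
      by_cases h : p ≤ X
      · exact Or.inl ⟨h, hp.2⟩
      · exact Or.inr ⟨⟨by omega, hp.1⟩, hp.2⟩
    have h1 : ∑ p ∈ Nat.primesLE (4 * X), Real.log p ≤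
        ∑ p ∈ Nat.primesLE X ∪ (Ioc X (4 * X)).filter Nat.Prime, Real.log p :=
      Finset.sum_le_sum_of_subset_of_nonneg hsub fun p _ _ => Real.log_natCast_nonneg p
    have h2 : ∑ p ∈ Nat.primesLE X ∪ (Ioc X (4 * X)).filter Nat.Prime, Real.log p ≤
        ∑ p ∈ Nat.primesLE X, Real.log p + ∑ p ∈ (Ioc X (4 * X)).filter Nat.Prime, Real.log p := by
      rw [← Finset.sum_union_inter]
      have : 0 ≤ ∑ p ∈ Nat.primesLE X ∩ (Ioc X (4 * X)).filter Nat.Prime, Real.log p :=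
        Finset.sum_nonneg fun p _ => Real.log_natCast_nonneg p
      linarith
    have h3 : ∑ p ∈ (Ioc X (4 * X)).filter Nat.Prime, Real.log p ≤
        ((Ioc X (4 * X)).filter Nat.Prime).card * Real.log (4 * X) := by
      rw [← nsmul_eq_mul]
      apply Finset.sum_le_card_nsmul
      intro p hp
      rw [mem_filter, mem_Ioc] at hp
      apply Real.log_le_log
      · exact_mod_cast hp.2.pos
      · exact_mod_cast hp.1.2
    linarith
  obtain ⟨N, hN⟩ : ∃ N : ℝ, N = ((Ioc X (4 * X)).filter Nat.Prime).card := ⟨_, rfl⟩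
  have hN0 : 0 ≤ N := by rw [hN]; positivity
  rw [← hN] at hdiff ⊢
  push_cast at hth hdiff
  have h4 : Real.log 4 = 2 * Real.log 2 := by
    rw [show (4 : ℝ) = 2 ^ 2 by norm_num, Real.log_pow, Nat.cast_ofNat]
  rw [h4] at hup
  have hl2 := Real.log_two_gt_d9
  have hs := Real.sq_sqrt (show (0 : ℝ) ≤ 4 * X by linarith)
  have hs0 := Real.sqrt_nonneg (4 * (X : ℝ))
  have hl4 := hlog (4 * X) (by linarith)
  have hsl : Real.sqrt (4 * X) * Real.log (4 * X) ≤ 1 / 100 * (4 * X) := by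
    calc Real.sqrt (4 * X) * Real.log (4 * X)
        ≤ Real.sqrt (4 * X) * (1 / 100 * Real.sqrt (4 * X)) :=
          mul_le_mul_of_nonneg_left hl4 hs0
      _ = 1 / 100 * (Real.sqrt (4 * X) ^ 2) := by ring
      _ = 1 / 100 * (4 * X) := by rw [hs]
  have hl5 : Real.log (4 * X + 1) ≤ 1 / 100 * (4 * X + 1) := by
    refine (hlog (4 * X + 1) (by linarith)).trans ?_
    have h1 : Real.sqrt (4 * X + 1) ≤ 4 * X + 1 := by
      rw [Real.sqrt_le_left (by linarith)]
      nlinarith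
    linarith
  have hlX : 0 < Real.log X := Real.log_pos (by linarith)
  have hl6 : Real.log (4 * X) ≤ 2 * Real.log X := by
    rw [Real.log_mul (by norm_num) (by linarith)]
    have := Real.log_le_log (by norm_num) hX4
    linarith
  have hfin : (X : ℝ) ≤ N * Real.log (4 * X) := by nlinarith
  nlinarith [mul_le_mul_of_nonneg_left hl6 hN0]

/-- few elements of one class with a large modulus -/
lemma class_le (X p b : ℕ) (hp : 0 < p) (h : X < 2 * p) :
    ((Ioc X (4 * X)).filter (fun q => q.Prime ∧ q ≡ b [MOD p])).card ≤ 8 := by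
  have h8 : (range 8).card = 8 := card_range 8
  rw [← h8]
  apply Finset.card_le_card_of_injOn (fun q => q / p)
  · intro q hq
    rw [Finset.mem_coe, mem_filter, mem_Ioc] at hq
    rw [Finset.mem_coe, mem_range, Nat.div_lt_iff_lt_mul hp]
    omega
  · intro q hq q' hq' he
    rw [Finset.mem_coe, mem_filter, mem_Ioc] at hq hq'
    have h1 : q % p = q' % p := hq.2.2.trans hq'.2.2.symm
    simp only at he
    rw [← Nat.div_add_mod q p, ← Nat.div_add_mod q' p, he, h1]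

/-- the combinatorial part -/
lemma shared_count (P : Finset ℕ) (hP : ∀ p ∈ P, p.Prime) (r : ℕ → ℤ) (y : ℕ)
    (hc : Covers P r y) (n : ℤ) (hn0 : 0 ≤ n) (hn1 : n ≤ y + 1) (D : Finset ℕ) (hD : D ⊆ P)
    (M : ℕ) (hM : M = ∏ p ∈ D.filter (fun p : ℕ => ¬ (p : ℤ) ∣ n - r p), p) (X : ℕ)
    (h8 : 8 * M * X ≤ y) :
    ∃ b : ℕ → ℕ, ∀ q : ℕ, q.Prime → q ≤ 4 * X → q ∉ P →
      ∃ p ∈ (P \ D).filter (fun p : ℕ => ¬ (p : ℤ) ∣ n - r p), q ≡ b p [MOD p] := by
  have hdvd : ∀ p : ℕ, p.Prime → p ∣ M → p ∈ D.filter (fun p : ℕ => ¬ (p : ℤ) ∣ n - r p) := by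
    intro p hp h
    rw [hM] at h
    obtain ⟨a, ha, hpa⟩ := (hp.prime.dvd_finsetProd_iff _).1 h
    have ha' : a.Prime := hP a (hD (mem_filter.1 ha).1)
    rwa [(Nat.prime_dvd_prime_iff_eq hp ha').1 hpa]
  have hM1 : 1 ≤ M := by
    rw [hM, Nat.one_le_iff_ne_zero, Finset.prod_ne_zero_iff]
    intro p hp
    exact (hP p (hD (mem_filter.1 hp).1)).ne_zero
  obtain ⟨s, hs, hsq⟩ : ∃ s : ℤ, (s = 1 ∨ s = -1) ∧ ∀ q : ℕ, 1 ≤ q → q ≤ 4 * X →
      1 ≤ n + s * ((M : ℤ) * q) ∧ n + s * ((M : ℤ) * q) ≤ y := by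
    have hb : ∀ q : ℕ, 1 ≤ q → q ≤ 4 * X → (1 : ℤ) ≤ (M : ℤ) * q ∧ 2 * ((M : ℤ) * q) ≤ y := by
      intro q hq1 hq2
      constructor
      · have : 1 ≤ M * q := Nat.mul_pos hM1 hq1
        exact_mod_cast this
      · have : 2 * (M * q) ≤ y := by
          calc 2 * (M * q) ≤ 2 * (M * (4 * X)) := by gcongr
            _ = 8 * M * X := by ring
            _ ≤ y := h8
        exact_mod_cast this
    by_cases h : 2 * n ≤ y + 1
    · refine ⟨1, Or.inl rfl, fun q h1 h2 => ?_⟩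
      obtain ⟨h3, h4⟩ := hb q h1 h2
      obtain ⟨w, hw⟩ : ∃ w : ℤ, w = (M : ℤ) * q := ⟨_, rfl⟩
      rw [← hw] at h3 h4 ⊢
      constructor <;> omega
    · refine ⟨-1, Or.inr rfl, fun q h1 h2 => ?_⟩
      obtain ⟨h3, h4⟩ := hb q h1 h2
      obtain ⟨w, hw⟩ : ∃ w : ℤ, w = (M : ℤ) * q := ⟨_, rfl⟩
      rw [← hw] at h3 h4 ⊢
      constructor <;> omega
  have hs1 : s * s = 1 := by
    rcases hs with rfl | rfl <;> norm_num
  refine ⟨fun p => if h : ∃ q : ℕ, (p : ℤ) ∣ (n - r p) + s * ((M : ℤ) * q) then h.choose else 0,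
    fun q hq hqX hqP => ?_⟩
  obtain ⟨h1, h2⟩ := hsq q hq.one_lt.le hqX
  obtain ⟨p, hpP, hp⟩ := hc _ h1 h2
  have hpp := hP p hpP
  have hpZ : Prime (p : ℤ) := Nat.prime_iff_prime_int.1 hpp
  have hp' : (p : ℤ) ∣ (n - r p) + s * ((M : ℤ) * q) := by
    have : (n - r p) + s * ((M : ℤ) * q) = n + s * ((M : ℤ) * q) - r p := by ring
    rwa [this]
  have hcan : ∀ t : ℤ, (p : ℤ) ∣ s * t → (p : ℤ) ∣ t := by
    intro t ht
    have : t = s * (s * t) := by rw [← mul_assoc, hs1, one_mul]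
    rw [this]
    exact Dvd.dvd.mul_left ht s
  have hE : ¬ (p : ℤ) ∣ n - r p := by
    intro h
    have h3 : (p : ℤ) ∣ s * ((M : ℤ) * q) := (dvd_add_right h).1 hp'
    have h4 := hcan _ h3
    rcases hpZ.dvd_or_dvd h4 with h5 | h5
    · have h6 : p ∣ M := by exact_mod_cast h5
      exact (mem_filter.1 (hdvd p hpp h6)).2 h
    · have h6 : p ∣ q := by exact_mod_cast h5
      rw [(Nat.prime_dvd_prime_iff_eq hpp hq).1 h6] at hpP
      exact hqP hpP
  have hD' : p ∉ D := by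
    intro h
    have h3 : p ∣ M := by
      rw [hM]
      exact Finset.dvd_prod_of_mem (fun p => p) (mem_filter.2 ⟨h, hE⟩)
    have h4 : (p : ℤ) ∣ (M : ℤ) := by exact_mod_cast h3
    exact hE ((dvd_add_left ((h4.mul_right _).mul_left _)).1 hp')
  refine ⟨p, mem_filter.2 ⟨mem_sdiff.2 ⟨hpP, hD'⟩, hE⟩, ?_⟩
  have hex : ∃ q : ℕ, (p : ℤ) ∣ (n - r p) + s * ((M : ℤ) * q) := ⟨q, hp'⟩
  beta_reduce
  rw [dif_pos hex]
  obtain ⟨q', hq'⟩ : ∃ q', q' = hex.choose := ⟨_, rfl⟩
  have hspec := hex.choose_spec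
  rw [← hq'] at hspec ⊢
  have h3 : (p : ℤ) ∣ s * ((M : ℤ) * ((q' : ℤ) - q)) := by
    have h4 := dvd_sub hspec hp'
    have h5 : (n - r p) + s * ((M : ℤ) * q') - ((n - r p) + s * ((M : ℤ) * q)) =
        s * ((M : ℤ) * ((q' : ℤ) - q)) := by ring
    rwa [h5] at h4
  rcases hpZ.dvd_or_dvd (hcan _ h3) with h5 | h5
  · have h6 : p ∣ M := by exact_mod_cast h5
    exact absurd (mem_filter.1 (hdvd p hpp h6)).1 hD'
  · exact (Nat.modEq_iff_dvd).2 h5

/-- a sieve bound for primes in `(X, 4X]` in one class -/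
theorem bt_four : ∃ C : ℝ, 0 < C ∧ ∀ p b X : ℕ, p.Prime → 2 * p ≤ X →
    (((Ioc X (4 * X)).filter (fun q => q.Prime ∧ q ≡ b [MOD p])).card : ℝ) ≤
      C * X / (p * Real.log (X / p)) := by
  obtain ⟨C, hC, h⟩ := bt_prime
  refine ⟨3 * C, by positivity, fun p b X hp hX => ?_⟩
  have h1 := h p b X hp hX
  have h2 := h p b (2 * X) hp (by omega)
  have hp0 : (0 : ℝ) < p := by exact_mod_cast hp.pos
  have hX' : 2 * (p : ℝ) ≤ X := by exact_mod_cast hX
  have hX0 : (0 : ℝ) < X := by linarith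
  have hratio : (2 : ℝ) ≤ (X : ℝ) / p := by
    rw [le_div_iff₀ hp0]
    exact hX'
  have hL0 : 0 < Real.log ((X : ℝ) / p) := Real.log_pos (by linarith)
  have hL1 : Real.log ((X : ℝ) / p) ≤ Real.log (((2 * X : ℕ) : ℝ) / p) := by
    apply Real.log_le_log (by linarith)
    push_cast
    gcongr
    linarith
  have hsub : (Ioc X (4 * X)).filter (fun q => q.Prime ∧ q ≡ b [MOD p]) ⊆
      (Ioc X (2 * X)).filter (fun q => q.Prime ∧ q ≡ b [MOD p]) ∪
      (Ioc (2 * X) (2 * (2 * X))).filter (fun q => q.Prime ∧ q ≡ b [MOD p]) := by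
    intro q hq
    rw [mem_filter, mem_Ioc] at hq
    rw [mem_union, mem_filter, mem_filter, mem_Ioc, mem_Ioc]
    by_cases h : q ≤ 2 * X
    · exact Or.inl ⟨⟨hq.1.1, h⟩, hq.2⟩
    · exact Or.inr ⟨⟨by omega, by omega⟩, hq.2⟩
  have h3 := (Finset.card_le_card hsub).trans (Finset.card_union_le _ _)
  have h4 : (((Ioc X (4 * X)).filter (fun q => q.Prime ∧ q ≡ b [MOD p])).card : ℝ) ≤
      ((Ioc X (2 * X)).filter (fun q => q.Prime ∧ q ≡ b [MOD p])).card +
      ((Ioc (2 * X) (2 * (2 * X))).filter (fun q => q.Prime ∧ q ≡ b [MOD p])).card := by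
    exact_mod_cast h3
  have h5 : C * ((2 * X : ℕ) : ℝ) / (p * Real.log (((2 * X : ℕ) : ℝ) / p)) ≤
      2 * C * X / (p * Real.log (X / p)) := by
    have h6 : C * ((2 * X : ℕ) : ℝ) = 2 * C * X := by
      push_cast
      ring
    rw [h6]
    gcongr
  have h6 : 3 * C * X / (p * Real.log (X / p)) =
      C * X / (p * Real.log (X / p)) + 2 * C * X / (p * Real.log (X / p)) := by ring
  rw [h6]
  linarith

/-- elementary: `36 k log X ≤ X` for `X ≥ C k log k` -/
lemma klog_le (k : ℕ) (hk : 2 ≤ k) (X C : ℝ) (hC : 20736 ≤ C) (hX : C * (k * Real.log k) ≤ X) :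
    36 * k * Real.log X ≤ X := by
  have hk2 : (2 : ℝ) ≤ k := by exact_mod_cast hk
  have hlk : 1 / 2 ≤ Real.log k := by
    have h1 := Real.log_le_log (by norm_num) hk2
    have := Real.log_two_gt_d9
    linarith
  have hkl : 1 ≤ k * Real.log k := by nlinarith
  have hX1 : 20736 ≤ X := by nlinarith
  by_contra hcon
  push Not at hcon
  have h1 : C * Real.log k < 36 * Real.log X := by
    have h2 : (k : ℝ) * (C * Real.log k) < k * (36 * Real.log X) := by
      calc (k : ℝ) * (C * Real.log k) = C * (k * Real.log k) := by ring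
        _ ≤ X := hX
        _ < 36 * k * Real.log X := hcon
        _ = k * (36 * Real.log X) := by ring
    exact lt_of_mul_lt_mul_left h2 (by linarith)
  have h3 : Real.log ((k : ℝ) ^ 4) < Real.log X := by
    rw [Real.log_pow]
    push_cast
    nlinarith
  have hX0 : 0 < X := by linarith
  have h4 : (k : ℝ) ^ 4 < X := (Real.log_lt_log_iff (by positivity) hX0).1 h3
  obtain ⟨w, hw⟩ : ∃ w, w = Real.sqrt (Real.sqrt X) := ⟨_, rfl⟩
  have hw0 : 0 < w := by rw [hw]; exact Real.sqrt_pos.2 (Real.sqrt_pos.2 hX0)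
  have hw4 : w ^ 4 = X := by
    have h5 : w ^ 2 = Real.sqrt X := by rw [hw]; exact Real.sq_sqrt (Real.sqrt_nonneg X)
    calc w ^ 4 = (w ^ 2) ^ 2 := by ring
      _ = X := by rw [h5]; exact Real.sq_sqrt hX0.le
  have hkw : (k : ℝ) < w := by
    rw [← hw4] at h4
    exact lt_of_pow_lt_pow_left₀ 4 hw0.le h4
  have hlw : Real.log X ≤ 4 * w := by
    rw [← hw4, Real.log_pow]
    push_cast
    have := Real.log_le_sub_one_of_pos hw0
    linarith
  have h5 : X < 144 * w ^ 2 := by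
    have hlX : 0 < Real.log X := Real.log_pos (by linarith)
    calc X < 36 * k * Real.log X := hcon
      _ ≤ 36 * w * Real.log X := by
          apply mul_le_mul_of_nonneg_right _ hlX.le
          linarith
      _ ≤ 36 * w * (4 * w) := by
          apply mul_le_mul_of_nonneg_left hlw
          linarith
      _ = 144 * w ^ 2 := by ring
  rw [← hw4] at h5 hX1
  have h6 : w ^ 2 < 144 := by
    by_contra h7
    push Not at h7
    nlinarith [sq_nonneg w]
  nlinarith [sq_nonneg w]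

/-- **an integer shared by most primes cannot occur in a long covering** -/
theorem shared : ∃ c C : ℝ, 0 < c ∧ 0 < C ∧ ∀ (k : ℕ) (P D : Finset ℕ) (r : ℕ → ℤ) (y : ℕ)
    (n : ℤ) (X : ℝ), 2 ≤ k → (∀ p ∈ P, p.Prime) → P.card ≤ k → Covers P r y →
    0 ≤ n → n ≤ y + 1 → D ⊆ P → C * (k * Real.log k) ≤ X → X * ∏ p ∈ D, (p : ℝ) ≤ y →
    c ≤ ∑ p ∈ (P \ D).filter (fun p : ℕ => ¬ (p : ℤ) ∣ n - r p ∧ 16 * (p : ℝ) ≤ X),
      Real.log X / (p * Real.log (X / p)) := by
  obtain ⟨X₀, hX₀⟩ := cheb_low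
  obtain ⟨B, hB, hbt⟩ := bt_four
  refine ⟨1 / (20 * B), 16 * (20736 + X₀), by positivity, by positivity, ?_⟩
  intro k P D r y n X hk hP hPk hc hn0 hn1 hD hX hXy
  have hk2 : (2 : ℝ) ≤ k := by exact_mod_cast hk
  have hlk : 1 / 2 ≤ Real.log k := by
    have h1 := Real.log_le_log (by norm_num) hk2
    have := Real.log_two_gt_d9
    linarith
  have hkl : 1 ≤ k * Real.log k := by nlinarith
  have hX₀' : (0 : ℝ) ≤ X₀ := Nat.cast_nonneg _
  have hX1 : 16 * (20736 + (X₀ : ℝ)) ≤ X := by nlinarith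
  have hXpos : 0 < X := by linarith
  obtain ⟨Z, hZ⟩ : ∃ Z : ℕ, Z = ⌊X / 8⌋₊ := ⟨_, rfl⟩
  have hZ1 : (Z : ℝ) ≤ X / 8 := by
    rw [hZ]
    exact Nat.floor_le (by linarith)
  have hZ2 : X / 16 ≤ Z := by
    have h1 := Nat.lt_floor_add_one (X / 8)
    rw [← hZ] at h1
    linarith
  have hZ3 : (20736 + (X₀ : ℝ)) * (k * Real.log k) ≤ Z := by linarith
  have hZ4 : (20736 + (X₀ : ℝ)) ≤ Z := by nlinarith
  have hZpos : (0 : ℝ) < Z := by linarith
  have hklog := klog_le k hk Z (20736 + X₀) (by linarith) hZ3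
  have hZX₀ : X₀ ≤ Z := by
    have : (X₀ : ℝ) ≤ Z := by linarith
    exact_mod_cast this
  have hcheb := hX₀ Z hZX₀
  obtain ⟨M, hM⟩ : ∃ M : ℕ, M = ∏ p ∈ D.filter (fun p : ℕ => ¬ (p : ℤ) ∣ n - r p), p := ⟨_, rfl⟩
  have hMle : (M : ℝ) ≤ ∏ p ∈ D, (p : ℝ) := by
    have h1 : M ≤ ∏ p ∈ D, p := by
      rw [hM]
      apply Nat.le_of_dvd
      · exact Finset.prod_pos fun p hp => (hP p (hD hp)).pos
      · exact Finset.prod_dvd_prod_of_subset _ _ _ (Finset.filter_subset _ _)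
    have h2 : (M : ℝ) ≤ ((∏ p ∈ D, p : ℕ) : ℝ) := Nat.cast_le.2 h1
    rwa [Nat.cast_prod] at h2
  have h8 : 8 * M * Z ≤ y := by
    have h1 : (8 : ℝ) * M * Z ≤ y := by
      calc (8 : ℝ) * M * Z ≤ 8 * M * (X / 8) := by gcongr
        _ = X * M := by ring
        _ ≤ X * ∏ p ∈ D, (p : ℝ) := by gcongr
        _ ≤ y := hXy
    exact_mod_cast h1
  obtain ⟨b, hb⟩ := shared_count P hP r y hc n hn0 hn1 D hD M hM Z h8
  obtain ⟨E, hE⟩ : ∃ E, E = (P \ D).filter (fun p : ℕ => ¬ (p : ℤ) ∣ n - r p) := ⟨_, rfl⟩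
  rw [← hE] at hb
  have hEP : E ⊆ P := by
    rw [hE]
    exact (Finset.filter_subset _ _).trans Finset.sdiff_subset
  -- counting
  have hcard : ((Ioc Z (4 * Z)).filter Nat.Prime).card ≤ P.card +
      ∑ p ∈ E, ((Ioc Z (4 * Z)).filter (fun q => q.Prime ∧ q ≡ b p [MOD p])).card := by
    have hsub : (Ioc Z (4 * Z)).filter Nat.Prime ⊆ P ∪
        E.biUnion (fun p => (Ioc Z (4 * Z)).filter (fun q => q.Prime ∧ q ≡ b p [MOD p])) := by
      intro q hq
      rw [mem_filter, mem_Ioc] at hq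
      rw [mem_union, mem_biUnion]
      by_cases h : q ∈ P
      · exact Or.inl h
      · right
        obtain ⟨p, hp, hqp⟩ := hb q hq.2 hq.1.2 h
        exact ⟨p, hp, mem_filter.2 ⟨mem_Ioc.2 hq.1, hq.2, hqp⟩⟩
    refine (Finset.card_le_card hsub).trans ((Finset.card_union_le _ _).trans ?_)
    exact Nat.add_le_add_left Finset.card_biUnion_le _
  have hsplit := Finset.sum_filter_add_sum_filter_not E (fun p => 2 * p ≤ Z)
    (fun p => ((Ioc Z (4 * Z)).filter (fun q => q.Prime ∧ q ≡ b p [MOD p])).card)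
  have hbig : ∑ p ∈ E.filter (fun p => ¬ 2 * p ≤ Z),
      ((Ioc Z (4 * Z)).filter (fun q => q.Prime ∧ q ≡ b p [MOD p])).card ≤ k * 8 := by
    have h1 : ∑ p ∈ E.filter (fun p => ¬ 2 * p ≤ Z),
      ((Ioc Z (4 * Z)).filter (fun q => q.Prime ∧ q ≡ b p [MOD p])).card ≤
        (E.filter (fun p => ¬ 2 * p ≤ Z)).card • 8 := by
      apply Finset.sum_le_card_nsmul
      intro p hp
      rw [mem_filter] at hp
      exact class_le Z p (b p) (hP p (hEP hp.1)).pos (by omega)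
    rw [smul_eq_mul] at h1
    refine h1.trans (Nat.mul_le_mul_right _ ?_)
    exact (Finset.card_le_card (Finset.filter_subset _ _)).trans
      ((Finset.card_le_card hEP).trans hPk)
  obtain ⟨S, hS⟩ : ∃ S : ℝ, S = ∑ p ∈ E.filter (fun p => 2 * p ≤ Z),
      1 / ((p : ℝ) * Real.log (Z / p)) := ⟨_, rfl⟩
  have hsmall : ((∑ p ∈ E.filter (fun p => 2 * p ≤ Z),
      ((Ioc Z (4 * Z)).filter (fun q => q.Prime ∧ q ≡ b p [MOD p])).card : ℕ) : ℝ) ≤
      B * Z * S := by
    rw [hS, Finset.mul_sum, Nat.cast_sum]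
    apply Finset.sum_le_sum
    intro p hp
    rw [mem_filter] at hp
    refine (hbt p (b p) Z (hP p (hEP hp.1)) hp.2).trans (le_of_eq ?_)
    rw [mul_one_div]
  have hN : (((Ioc Z (4 * Z)).filter Nat.Prime).card : ℝ) ≤ 9 * k + B * Z * S := by
    have h1 : ((Ioc Z (4 * Z)).filter Nat.Prime).card ≤ k + (∑ p ∈ E.filter (fun p => 2 * p ≤ Z),
      ((Ioc Z (4 * Z)).filter (fun q => q.Prime ∧ q ≡ b p [MOD p])).card + k * 8) := by
      rw [← hsplit] at hcard
      omega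
    have h2 : (((Ioc Z (4 * Z)).filter Nat.Prime).card : ℝ) ≤ k +
        (((∑ p ∈ E.filter (fun p => 2 * p ≤ Z),
      ((Ioc Z (4 * Z)).filter (fun q => q.Prime ∧ q ≡ b p [MOD p])).card : ℕ) : ℝ) + k * 8) := by
      exact_mod_cast h1
    linarith
  have hlZ : 0 < Real.log Z := Real.log_pos (by linarith)
  have hkey : 1 ≤ 4 * B * (Real.log Z * S) := by
    have h1 : (Z : ℝ) ≤ 2 * Real.log Z * (9 * k + B * Z * S) :=
      hcheb.trans (mul_le_mul_of_nonneg_left hN (by linarith))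
    have h2 : (Z : ℝ) * 1 ≤ Z * (4 * B * (Real.log Z * S)) := by nlinarith
    exact le_of_mul_le_mul_left h2 hZpos
  -- comparison of the weights
  have hcomp : Real.log Z * S ≤ 5 * ∑ p ∈ (P \ D).filter
      (fun p : ℕ => ¬ (p : ℤ) ∣ n - r p ∧ 16 * (p : ℝ) ≤ X),
      Real.log X / (p * Real.log (X / p)) := by
    rw [hS, Finset.mul_sum, Finset.mul_sum]
    have hsub : E.filter (fun p => 2 * p ≤ Z) ⊆ (P \ D).filter
        (fun p : ℕ => ¬ (p : ℤ) ∣ n - r p ∧ 16 * (p : ℝ) ≤ X) := by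
      intro p hp
      rw [hE, mem_filter, mem_filter] at hp
      rw [mem_filter]
      refine ⟨hp.1.1, hp.1.2, ?_⟩
      have h1 : 2 * (p : ℝ) ≤ Z := by exact_mod_cast hp.2
      linarith
    have hlX : 0 < Real.log X := Real.log_pos (by linarith)
    refine le_trans ?_ (Finset.sum_le_sum_of_subset_of_nonneg hsub ?_)
    · apply Finset.sum_le_sum
      intro p hp
      rw [mem_filter] at hp
      have hp0 : (0 : ℝ) < p := by exact_mod_cast (hP p (hEP hp.1)).pos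
      have h1 : 2 * (p : ℝ) ≤ Z := by exact_mod_cast hp.2
      have h2 : (2 : ℝ) ≤ (Z : ℝ) / p := by
        rw [le_div_iff₀ hp0]
        exact h1
      have h3 : Real.log 2 ≤ Real.log ((Z : ℝ) / p) := Real.log_le_log (by norm_num) h2
      have hl2 := Real.log_two_gt_d9
      have h4 : 0 < Real.log ((Z : ℝ) / p) := by linarith
      have h5 : X / p ≤ 16 * ((Z : ℝ) / p) := by
        rw [← mul_div_assoc]
        gcongr
        linarith
      have h6 : Real.log (X / p) ≤ 5 * Real.log ((Z : ℝ) / p) := by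
        have h7 := Real.log_le_log (by positivity) h5
        rw [Real.log_mul (by norm_num) (by positivity),
          show (16 : ℝ) = 2 ^ 4 by norm_num, Real.log_pow] at h7
        push_cast at h7
        linarith
      have h7 : 0 < Real.log (X / p) := by
        apply Real.log_pos
        have : (Z : ℝ) / p ≤ X / p := by
          gcongr
          linarith
        linarith
      have h8 : Real.log Z ≤ Real.log X := Real.log_le_log hZpos (by linarith)
      rw [mul_one_div, ← mul_div_assoc, div_le_div_iff₀ (by positivity) (by positivity)]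
      calc Real.log Z * (p * Real.log (X / p)) ≤ Real.log X * (p * (5 * Real.log ((Z : ℝ) / p))) := by
            gcongr
        _ = 5 * Real.log X * (p * Real.log ((Z : ℝ) / p)) := by ring
    · intro p hp _
      rw [mem_filter] at hp
      have hp0 : (0 : ℝ) < p := by exact_mod_cast (hP p (mem_sdiff.1 hp.1).1).pos
      have h7 : 0 < Real.log (X / p) := by
        apply Real.log_pos
        rw [lt_div_iff₀ hp0]
        linarith
      positivity
  rw [div_le_iff₀ (by positivity)]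
  nlinarith

end Pool.Agent.Lib.MP_2a99c0_nt.H73
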