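import Mathlib

/-!
# A weight of compact support with bounded second differences
-/

set_option autoImplicit false

namespace Pool.Agent.Lib.MP_2a99c0_nt.H73

/-- the square of the positive part -/
noncomputable def hh (u : ℝ) : ℝ := max u 0 ^ 2

lemma hh_nonneg (u : ℝ) : 0 ≤ hh u := by unfold hh; positivity

lemma hh_of_nonpos {u : ℝ} (h : u ≤ 0) : hh u = 0 := by
  unfold hh
  rw [max_eq_right h]
  norm_num

lemma hh_of_nonneg {u : ℝ} (h : 0 ≤ u) : hh u = u ^ 2 := by
  unfold hh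
  rw [max_eq_left h]

lemma hh_le {u c : ℝ} (h : u ≤ c) (hc : 0 ≤ c) : hh u ≤ c ^ 2 := by
  unfold hh
  apply pow_le_pow_left₀ (le_max_right _ _)
  exact max_le h hc

lemma hh_diff {v a c : ℝ} (ha : 0 ≤ a) (hc : v + a ≤ c) (hc0 : 0 ≤ c) :
    0 ≤ hh (v + a) - hh v ∧ hh (v + a) - hh v ≤ 2 * c * a := by
  rcases le_total 0 v with h1 | h1
  · rw [hh_of_nonneg h1, hh_of_nonneg (by linarith)]
    constructor <;> nlinarith
  · rcases le_total 0 (v + a) with h2 | h2
    · rw [hh_of_nonpos h1, hh_of_nonneg h2]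
      constructor
      · nlinarith
      · nlinarith
    · rw [hh_of_nonpos h1, hh_of_nonpos h2]
      constructor
      · linarith
      · have : 0 ≤ c * a := mul_nonneg hc0 ha
        linarith

lemma hh_second {v a b : ℝ} (ha : 0 ≤ a) (hb : 0 ≤ b) :
    0 ≤ hh (v + a + b) - hh (v + a) - hh (v + b) + hh v ∧
      hh (v + a + b) - hh (v + a) - hh (v + b) + hh v ≤ 2 * a * b := by
  have hab : 0 ≤ a * b := mul_nonneg ha hb
  rcases le_total 0 v with h1 | h1
  · rw [hh_of_nonneg h1, hh_of_nonneg (by linarith : 0 ≤ v + a + b),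
      hh_of_nonneg (by linarith : 0 ≤ v + a), hh_of_nonneg (by linarith : 0 ≤ v + b)]
    constructor <;> nlinarith
  · rw [hh_of_nonpos h1]
    rcases le_total 0 (v + a) with h2 | h2
    · rw [hh_of_nonneg h2, hh_of_nonneg (by linarith : 0 ≤ v + a + b)]
      rcases le_total 0 (v + b) with h3 | h3
      · rw [hh_of_nonneg h3]
        constructor <;> nlinarith
      · rw [hh_of_nonpos h3]
        constructor <;> nlinarith
    · rw [hh_of_nonpos h2]
      rcases le_total 0 (v + b) with h3 | h3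
      · rw [hh_of_nonneg h3, hh_of_nonneg (by linarith : 0 ≤ v + a + b)]
        constructor <;> nlinarith
      · rw [hh_of_nonpos h3]
        rcases le_total 0 (v + a + b) with h4 | h4
        · rw [hh_of_nonneg h4]
          constructor <;> nlinarith
        · rw [hh_of_nonpos h4]
          constructor <;> linarith

/-- the weight, supported in `[1, 16]` -/
noncomputable def GG (u : ℝ) : ℝ := hh (u - 1) * hh (16 - u)

lemma GG_nonneg (u : ℝ) : 0 ≤ GG u := mul_nonneg (hh_nonneg _) (hh_nonneg _)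

lemma GG_zero_left {u : ℝ} (h : u ≤ 1) : GG u = 0 := by
  unfold GG
  rw [hh_of_nonpos (by linarith), zero_mul]

lemma GG_zero_right {u : ℝ} (h : 16 ≤ u) : GG u = 0 := by
  unfold GG
  rw [hh_of_nonpos (by linarith : 16 - u ≤ 0), mul_zero]

lemma GG_le (u : ℝ) : GG u ≤ 60000 := by
  rcases le_total u 1 with h1 | h1
  · rw [GG_zero_left h1]
    norm_num
  · rcases le_total 16 u with h2 | h2
    · rw [GG_zero_right h2]
      norm_num
    · unfold GG
      have h3 := hh_le (show u - 1 ≤ 15 by linarith) (by norm_num)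
      have h4 := hh_le (show 16 - u ≤ 15 by linarith) (by norm_num)
      have h5 := hh_nonneg (u - 1)
      have h6 := hh_nonneg (16 - u)
      calc hh (u - 1) * hh (16 - u) ≤ 15 ^ 2 * 15 ^ 2 := mul_le_mul h3 h4 h6 (by positivity)
        _ ≤ 60000 := by norm_num

lemma GG_ge {u : ℝ} (h1 : 2 ≤ u) (h2 : u ≤ 8) : 1 ≤ GG u := by
  unfold GG
  rw [hh_of_nonneg (by linarith), hh_of_nonneg (by linarith)]
  have h3 : 1 ≤ (u - 1) ^ 2 := by nlinarith
  have h4 : 1 ≤ (16 - u) ^ 2 := by nlinarith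
  nlinarith

lemma GG_lip {u a : ℝ} (hu : 0 ≤ u) (ha : 0 ≤ a) (hua : u + a ≤ 100) :
    |GG (u + a) - GG u| ≤ 400000 * a := by
  unfold GG
  have h1 := hh_diff (v := u - 1) ha (show u - 1 + a ≤ 100 by linarith) (by norm_num)
  have h2 := hh_diff (v := 16 - (u + a)) ha (show 16 - (u + a) + a ≤ 16 by linarith) (by norm_num)
  rw [show u - 1 + a = u + a - 1 by ring] at h1
  rw [show 16 - (u + a) + a = 16 - u by ring] at h2
  have h3 := hh_le (show 16 - (u + a) ≤ 16 by linarith) (by norm_num)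
  have h4 := hh_le (show u - 1 ≤ 100 by linarith) (by norm_num)
  have h5 := hh_nonneg (u - 1)
  have h6 := hh_nonneg (16 - (u + a))
  have e : hh (u + a - 1) * hh (16 - (u + a)) - hh (u - 1) * hh (16 - u) =
      (hh (u + a - 1) - hh (u - 1)) * hh (16 - (u + a)) -
        hh (u - 1) * (hh (16 - u) - hh (16 - (u + a))) := by ring
  rw [e]
  have h7 : |(hh (u + a - 1) - hh (u - 1)) * hh (16 - (u + a))| ≤ 2 * 100 * a * 16 ^ 2 := by
    rw [abs_mul, abs_of_nonneg h1.1, abs_of_nonneg h6]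
    exact mul_le_mul h1.2 h3 h6 (by positivity)
  have h8 : |hh (u - 1) * (hh (16 - u) - hh (16 - (u + a)))| ≤ 100 ^ 2 * (2 * 16 * a) := by
    rw [abs_mul, abs_of_nonneg h5, abs_of_nonneg h2.1]
    exact mul_le_mul h4 h2.2 h2.1 (by positivity)
  refine (abs_sub _ _).trans ?_
  linarith

lemma GG_second {u a b : ℝ} (hu : 0 ≤ u) (ha : 0 ≤ a) (hb : 0 ≤ b) (h : u + a + b ≤ 100) :
    |GG (u + a + b) - GG (u + a) - GG (u + b) + GG u| ≤ 40000 * (a * b) := by
  unfold GG
  have hab : 0 ≤ a * b := mul_nonneg ha hb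
  -- first factor
  have f2 := hh_second (v := u - 1) ha hb
  have fa := hh_diff (v := u - 1) ha (show u - 1 + a ≤ 100 by linarith) (by norm_num)
  have fb := hh_diff (v := u - 1) hb (show u - 1 + b ≤ 100 by linarith) (by norm_num)
  rw [show u - 1 + a + b = u + a + b - 1 by ring, show u - 1 + a = u + a - 1 by ring,
    show u - 1 + b = u + b - 1 by ring] at f2
  rw [show u - 1 + a = u + a - 1 by ring] at fa
  rw [show u - 1 + b = u + b - 1 by ring] at fb
  have f0 := hh_le (show u - 1 ≤ 100 by linarith) (by norm_num)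
  have f0' := hh_nonneg (u - 1)
  -- second factor
  have k2 := hh_second (v := 16 - (u + a + b)) ha hb
  have kb := hh_diff (v := 16 - (u + a + b)) hb (show 16 - (u + a + b) + b ≤ 16 by linarith)
    (by norm_num)
  have ka := hh_diff (v := 16 - (u + a + b)) ha (show 16 - (u + a + b) + a ≤ 16 by linarith)
    (by norm_num)
  rw [show 16 - (u + a + b) + a + b = 16 - u by ring,
    show 16 - (u + a + b) + a = 16 - (u + b) by ring,
    show 16 - (u + a + b) + b = 16 - (u + a) by ring] at k2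
  rw [show 16 - (u + a + b) + b = 16 - (u + a) by ring] at kb
  rw [show 16 - (u + a + b) + a = 16 - (u + b) by ring] at ka
  have k11 := hh_le (show 16 - (u + a + b) ≤ 16 by linarith) (by norm_num)
  have k11' := hh_nonneg (16 - (u + a + b))
  obtain ⟨f11, hf11⟩ : ∃ f, f = hh (u + a + b - 1) := ⟨_, rfl⟩
  obtain ⟨f10, hf10⟩ : ∃ f, f = hh (u + a - 1) := ⟨_, rfl⟩
  obtain ⟨f01, hf01⟩ : ∃ f, f = hh (u + b - 1) := ⟨_, rfl⟩
  obtain ⟨f00, hf00⟩ : ∃ f, f = hh (u - 1) := ⟨_, rfl⟩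
  obtain ⟨g11, hg11⟩ : ∃ f, f = hh (16 - (u + a + b)) := ⟨_, rfl⟩
  obtain ⟨g10, hg10⟩ : ∃ f, f = hh (16 - (u + a)) := ⟨_, rfl⟩
  obtain ⟨g01, hg01⟩ : ∃ f, f = hh (16 - (u + b)) := ⟨_, rfl⟩
  obtain ⟨g00, hg00⟩ : ∃ f, f = hh (16 - u) := ⟨_, rfl⟩
  rw [← hf11, ← hf10, ← hf01, ← hf00, ← hg11, ← hg10, ← hg01, ← hg00]
  rw [← hf11, ← hf10, ← hf01, ← hf00] at f2
  rw [← hf10, ← hf00] at fa
  rw [← hf01, ← hf00] at fb
  rw [← hf00] at f0 f0'
  rw [← hg11, ← hg10, ← hg01, ← hg00] at k2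
  rw [← hg10, ← hg11] at kb
  rw [← hg01, ← hg11] at ka
  rw [← hg11] at k11 k11'
  have e : f11 * g11 - f10 * g10 - f01 * g01 + f00 * g00 =
      (f11 - f10 - f01 + f00) * g11 - (f10 - f00) * (g10 - g11) - (f01 - f00) * (g01 - g11) +
        f00 * (g00 - g01 - g10 + g11) := by ring
  rw [e]
  have t1 : |(f11 - f10 - f01 + f00) * g11| ≤ 2 * a * b * 16 ^ 2 := by
    rw [abs_mul, abs_of_nonneg f2.1, abs_of_nonneg k11']
    exact mul_le_mul f2.2 k11 k11' (by positivity)
  have t2 : |(f10 - f00) * (g10 - g11)| ≤ 2 * 100 * a * (2 * 16 * b) := by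
    rw [abs_mul, abs_of_nonneg fa.1, abs_of_nonneg kb.1]
    exact mul_le_mul fa.2 kb.2 kb.1 (by positivity)
  have t3 : |(f01 - f00) * (g01 - g11)| ≤ 2 * 100 * b * (2 * 16 * a) := by
    rw [abs_mul, abs_of_nonneg fb.1, abs_of_nonneg ka.1]
    exact mul_le_mul fb.2 ka.2 ka.1 (by positivity)
  have t4 : |f00 * (g00 - g01 - g10 + g11)| ≤ 100 ^ 2 * (2 * a * b) := by
    rw [abs_mul, abs_of_nonneg f0', abs_of_nonneg k2.1]
    exact mul_le_mul f0 k2.2 k2.1 (by positivity)
  have s1 := abs_add_le ((f11 - f10 - f01 + f00) * g11 - (f10 - f00) * (g10 - g11) -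
    (f01 - f00) * (g01 - g11)) (f00 * (g00 - g01 - g10 + g11))
  have s2 := abs_sub ((f11 - f10 - f01 + f00) * g11 - (f10 - f00) * (g10 - g11))
    ((f01 - f00) * (g01 - g11))
  have s3 := abs_sub ((f11 - f10 - f01 + f00) * g11) ((f10 - f00) * (g10 - g11))
  linarith

/-- differences of `G (x z / Z)` -/
lemma GG_mixed (Z x z : ℝ) (hZ : 1 ≤ Z) (hx : 0 ≤ x) (hz : 0 ≤ z)
    (h : (x + 1) * (z + 1) ≤ 100 * Z) (h2 : x * z ≤ 64 * Z) :
    |GG ((x + 1) * (z + 1) / Z) - GG ((x + 1) * z / Z) - GG (x * (z + 1) / Z) + GG (x * z / Z)| ≤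
      3000000 / Z := by
  have hZ0 : 0 < Z := by linarith
  have hsum : x * z / Z + z / Z + x / Z + 1 / Z ≤ 100 := by
    rw [← add_div, ← add_div, ← add_div, div_le_iff₀ hZ0]
    nlinarith
  have h1Z : 0 ≤ 1 / Z := by positivity
  have hxZ : 0 ≤ x / Z := by positivity
  have hzZ : 0 ≤ z / Z := by positivity
  have hxz : 0 ≤ x * z / Z := by positivity
  have a1 := GG_second hxz hzZ hxZ (by linarith)
  have a2 := GG_lip (u := x * z / Z + z / Z + x / Z) (a := 1 / Z) (by linarith) h1Z hsum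
  have e1 : (x + 1) * (z + 1) / Z = x * z / Z + z / Z + x / Z + 1 / Z := by ring
  have e2 : (x + 1) * z / Z = x * z / Z + z / Z := by ring
  have e3 : x * (z + 1) / Z = x * z / Z + x / Z := by ring
  rw [e1, e2, e3]
  have e4 : z / Z * (x / Z) ≤ 64 / Z := by
    rw [div_mul_div_comm, div_le_div_iff₀ (by positivity) hZ0]
    nlinarith
  have e5 : GG (x * z / Z + z / Z + x / Z + 1 / Z) - GG (x * z / Z + z / Z) -
      GG (x * z / Z + x / Z) + GG (x * z / Z) =
      (GG (x * z / Z + z / Z + x / Z + 1 / Z) - GG (x * z / Z + z / Z + x / Z)) +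
      (GG (x * z / Z + z / Z + x / Z) - GG (x * z / Z + z / Z) - GG (x * z / Z + x / Z) +
        GG (x * z / Z)) := by ring
  rw [e5]
  refine (abs_add_le _ _).trans ?_
  have e6 : (3000000 : ℝ) / Z = 3000000 * (1 / Z) := by ring
  have e7 : (64 : ℝ) / Z = 64 * (1 / Z) := by ring
  rw [e7] at e4
  rw [e6]
  linarith

end Pool.Agent.Lib.MP_2a99c0_nt.H73
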