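import Mathlib

/-!
# The sieve of Brun and Hooley: lower bound with divisors up to a power of `z`
-/

set_option autoImplicit false

namespace Pool.Agent.Lib.MP_2a99c0_nt.H73

open Finset
open scoped Classical

/-- sums over the subsets of `E` -/
noncomputable def Gen (E : Finset ℕ) (τ : ℕ → ℝ) (c : Finset ℕ → ℝ) : ℝ :=
  ∑ S ∈ E.powerset, c S * ∏ p ∈ S, τ p

/-- truncated Moebius coefficients -/
noncomputable def cU (J : ℕ) (S : Finset ℕ) : ℝ := if S.card ≤ J then (-1) ^ S.card else 0

/-- coefficients of the elementary symmetric function -/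
noncomputable def cX (j : ℕ) (S : Finset ℕ) : ℝ := if S.card = j then 1 else 0

lemma Gen_insert (E : Finset ℕ) (τ : ℕ → ℝ) (c : Finset ℕ → ℝ) (p : ℕ) (hp : p ∉ E) :
    Gen (insert p E) τ c = Gen E τ c + τ p * Gen E τ (fun S => c (insert p S)) := by
  unfold Gen
  rw [Finset.sum_powerset_insert hp, Finset.mul_sum]
  congr 1
  apply Finset.sum_congr rfl
  intro S hS
  have hpS : p ∉ S := fun h => hp ((mem_powerset.1 hS) h)
  rw [Finset.prod_insert hpS]
  ring

lemma Gen_congr (E : Finset ℕ) (τ : ℕ → ℝ) (c c' : Finset ℕ → ℝ)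
    (h : ∀ S ∈ E.powerset, c S = c' S) : Gen E τ c = Gen E τ c' := by
  unfold Gen
  apply Finset.sum_congr rfl
  intro S hS
  rw [h S hS]

lemma Gen_cU_succ (E : Finset ℕ) (τ : ℕ → ℝ) (p J : ℕ) (hp : p ∉ E) :
    Gen (insert p E) τ (cU (J + 1)) = Gen E τ (cU (J + 1)) - τ p * Gen E τ (cU J) := by
  rw [Gen_insert E τ _ p hp]
  have h1 : Gen E τ (fun S => cU (J + 1) (insert p S)) = - Gen E τ (cU J) := by
    unfold Gen
    rw [← Finset.sum_neg_distrib]
    apply Finset.sum_congr rfl
    intro S hS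
    have hpS : p ∉ S := fun h => hp ((mem_powerset.1 hS) h)
    unfold cU
    beta_reduce
    rw [Finset.card_insert_of_notMem hpS]
    by_cases h : S.card ≤ J
    · rw [if_pos h, if_pos (by omega)]
      ring
    · rw [if_neg h, if_neg (by omega)]
      ring
  rw [h1]
  ring

lemma Gen_cU_zero (E : Finset ℕ) (τ : ℕ → ℝ) : Gen E τ (cU 0) = 1 := by
  unfold Gen
  rw [Finset.sum_eq_single ∅]
  · simp [cU]
  · intro S _ hS
    unfold cU
    rw [if_neg, zero_mul]
    rw [Nat.le_zero, Finset.card_eq_zero]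
    exact hS
  · intro h
    exact absurd (Finset.empty_mem_powerset E) h

lemma Gen_cX_zero (E : Finset ℕ) (τ : ℕ → ℝ) : Gen E τ (cX 0) = 1 := by
  unfold Gen
  rw [Finset.sum_eq_single ∅]
  · simp [cX]
  · intro S _ hS
    unfold cX
    rw [if_neg, zero_mul]
    rw [Finset.card_eq_zero]
    exact hS
  · intro h
    exact absurd (Finset.empty_mem_powerset E) h

lemma Gen_cX_succ (E : Finset ℕ) (τ : ℕ → ℝ) (p j : ℕ) (hp : p ∉ E) :
    Gen (insert p E) τ (cX (j + 1)) = Gen E τ (cX (j + 1)) + τ p * Gen E τ (cX j) := by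
  rw [Gen_insert E τ _ p hp]
  congr 2
  unfold Gen
  apply Finset.sum_congr rfl
  intro S hS
  have hpS : p ∉ S := fun h => hp ((mem_powerset.1 hS) h)
  unfold cX
  beta_reduce
  rw [Finset.card_insert_of_notMem hpS]
  by_cases h : S.card = j
  · rw [if_pos h, if_pos (by omega)]
  · rw [if_neg h, if_neg (by omega)]

lemma prod_nonneg' (E : Finset ℕ) (τ : ℕ → ℝ) (hτ : ∀ p ∈ E, 0 ≤ τ p ∧ τ p ≤ 1) :
    0 ≤ ∏ p ∈ E, (1 - τ p) :=
  Finset.prod_nonneg fun p hp => by linarith [(hτ p hp).2]

theorem Gen_alt (τ : ℕ → ℝ) (E : Finset ℕ) : (∀ p ∈ E, 0 ≤ τ p ∧ τ p ≤ 1) →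
    ∀ J : ℕ, (Even J → ∏ p ∈ E, (1 - τ p) ≤ Gen E τ (cU J)) ∧
      (¬ Even J → Gen E τ (cU J) ≤ ∏ p ∈ E, (1 - τ p)) := by
  induction E using Finset.induction_on with
  | empty =>
    intro _ J
    have h1 : Gen ∅ τ (cU J) = 1 := by simp [Gen, cU]
    rw [h1, Finset.prod_empty]
    exact ⟨fun _ => le_rfl, fun _ => le_rfl⟩
  | insert p E hp ih =>
    intro hτ J
    have hτp := hτ p (mem_insert_self p E)
    have hτE : ∀ q ∈ E, 0 ≤ τ q ∧ τ q ≤ 1 := fun q hq => hτ q (mem_insert_of_mem hq)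
    have hP := prod_nonneg' E τ hτE
    rw [Finset.prod_insert hp]
    cases J with
    | zero =>
      refine ⟨fun _ => ?_, fun h => absurd (by simp) h⟩
      rw [Gen_cU_zero]
      have h1 := (ih hτE 0).1 (by simp)
      rw [Gen_cU_zero] at h1
      nlinarith
    | succ J =>
      rw [Gen_cU_succ E τ p J hp]
      obtain ⟨h2, h3⟩ := ih hτE (J + 1)
      obtain ⟨h4, h5⟩ := ih hτE J
      constructor
      · intro h
        have h6 : ¬ Even J := by
          rw [Nat.even_add_one] at h
          exact h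
        have := h2 h
        have := mul_le_mul_of_nonneg_left (h5 h6) hτp.1
        linarith
      · intro h
        have h6 : Even J := by
          rw [Nat.even_add_one, not_not] at h
          exact h
        have := h3 h
        have := mul_le_mul_of_nonneg_left (h4 h6) hτp.1
        linarith

theorem Gen_up (τ : ℕ → ℝ) (E : Finset ℕ) (hτ : ∀ p ∈ E, 0 ≤ τ p ∧ τ p ≤ 1) (k : ℕ) :
    Gen E τ (cU (2 * k)) ≤ ∏ p ∈ E, (1 - τ p) + Gen E τ (cX (2 * k + 1)) := by
  have h1 := (Gen_alt τ E hτ (2 * k + 1)).2 (by simp)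
  have h2 : Gen E τ (cU (2 * k)) = Gen E τ (cU (2 * k + 1)) + Gen E τ (cX (2 * k + 1)) := by
    unfold Gen
    rw [← Finset.sum_add_distrib]
    apply Finset.sum_congr rfl
    intro S _
    rw [← add_mul]
    congr 1
    unfold cU cX
    rcases lt_trichotomy S.card (2 * k + 1) with h | h | h
    · rw [if_pos (by omega), if_pos (by omega), if_neg (by omega), add_zero]
    · rw [if_neg (by omega), if_pos (by omega), if_pos h, h, pow_succ, pow_mul]
      norm_num
    · rw [if_neg (by omega), if_neg (by omega), if_neg (by omega), add_zero]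
  rw [h2]
  linarith

lemma Gen_cX_nonneg (τ : ℕ → ℝ) (E : Finset ℕ) (hτ : ∀ p ∈ E, 0 ≤ τ p) (j : ℕ) :
    0 ≤ Gen E τ (cX j) := by
  unfold Gen
  apply Finset.sum_nonneg
  intro S hS
  apply mul_nonneg
  · unfold cX
    split_ifs
    · exact zero_le_one
    · exact le_rfl
  · exact Finset.prod_nonneg fun p hp => hτ p ((mem_powerset.1 hS) hp)

lemma binom_two' (m t : ℝ) (hm : 0 ≤ m) (ht : 0 ≤ t) :
    ∀ j : ℕ, m ^ (j + 1) + (j + 1) * t * m ^ j ≤ (m + t) ^ (j + 1) := by
  intro j
  induction j with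
  | zero => simp
  | succ j ih =>
    have h1 : (m + t) ^ (j + 1 + 1) = (m + t) * (m + t) ^ (j + 1) := by ring
    have h2 : (m + t) * (m ^ (j + 1) + (j + 1) * t * m ^ j) ≤ (m + t) * (m + t) ^ (j + 1) :=
      mul_le_mul_of_nonneg_left ih (by linarith)
    have h3 : (m + t) * (m ^ (j + 1) + (j + 1) * t * m ^ j) =
        m ^ (j + 1 + 1) + ((j + 1 : ℕ) + 1) * t * m ^ (j + 1) + (j + 1) * t ^ 2 * m ^ j := by
      push_cast
      ring
    have h4 : 0 ≤ ((j : ℝ) + 1) * t ^ 2 * m ^ j := by positivity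
    rw [h1]
    linarith

theorem Gen_cX_le (τ : ℕ → ℝ) (E : Finset ℕ) : (∀ p ∈ E, 0 ≤ τ p) →
    ∀ j : ℕ, Gen E τ (cX j) ≤ (∑ p ∈ E, τ p) ^ j / j.factorial := by
  induction E using Finset.induction_on with
  | empty =>
    intro _ j
    cases j with
    | zero => simp [Gen, cX]
    | succ j => simp [Gen, cX]
  | insert p E hp ih =>
    intro hτ j
    have hτp := hτ p (mem_insert_self p E)
    have hτE : ∀ q ∈ E, 0 ≤ τ q := fun q hq => hτ q (mem_insert_of_mem hq)
    have hM0 : 0 ≤ ∑ q ∈ E, τ q := Finset.sum_nonneg hτE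
    rw [Finset.sum_insert hp, add_comm]
    cases j with
    | zero =>
      rw [Gen_cX_zero]
      simp
    | succ j =>
      rw [Gen_cX_succ E τ p j hp]
      have h3 := ih hτE (j + 1)
      have h4 := mul_le_mul_of_nonneg_left (ih hτE j) hτp
      have h5 := binom_two' (∑ q ∈ E, τ q) (τ p) hM0 hτp j
      have hf : ((j + 1).factorial : ℝ) = (j + 1) * j.factorial := by
        rw [Nat.factorial_succ]
        push_cast
        ring
      have hf0 : (0 : ℝ) < j.factorial := by exact_mod_cast Nat.factorial_pos j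
      have h6 : (∑ q ∈ E, τ q) ^ (j + 1) / ((j + 1).factorial : ℝ) +
          τ p * ((∑ q ∈ E, τ q) ^ j / j.factorial) =
          ((∑ q ∈ E, τ q) ^ (j + 1) + (j + 1) * τ p * (∑ q ∈ E, τ q) ^ j) /
            ((j + 1).factorial : ℝ) := by
        rw [hf]
        field_simp
      calc Gen E τ (cX (j + 1)) + τ p * Gen E τ (cX j)
          ≤ (∑ q ∈ E, τ q) ^ (j + 1) / ((j + 1).factorial : ℝ) +
            τ p * ((∑ q ∈ E, τ q) ^ j / j.factorial) := by linarith
        _ = _ := h6
        _ ≤ _ := by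
          apply div_le_div_of_nonneg_right h5
          positivity

/-- products over disjoint sets -/
theorem Gen_union (τ : ℕ → ℝ) (E F : Finset ℕ) (hEF : Disjoint E F) (c c' : Finset ℕ → ℝ) :
    Gen (E ∪ F) τ (fun S => c (S ∩ E) * c' (S ∩ F)) = Gen E τ c * Gen F τ c' := by
  unfold Gen
  rw [Finset.sum_mul_sum, ← Finset.sum_product']
  symm
  apply Finset.sum_bij' (fun (p : Finset ℕ × Finset ℕ) _ => p.1 ∪ p.2)
    (fun S _ => (S ∩ E, S ∩ F))
  · intro p hp
    rw [mem_product, mem_powerset, mem_powerset] at hp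
    rw [mem_powerset]
    exact Finset.union_subset_union hp.1 hp.2
  · intro S _
    rw [mem_product, mem_powerset, mem_powerset]
    exact ⟨Finset.inter_subset_right, Finset.inter_subset_right⟩
  · intro p hp
    rw [mem_product, mem_powerset, mem_powerset] at hp
    have h1 : (p.1 ∪ p.2) ∩ E = p.1 := by
      ext q
      rw [mem_inter, mem_union]
      constructor
      · rintro ⟨h | h, hq⟩
        · exact h
        · exact absurd (hp.2 h) (Finset.disjoint_left.1 hEF hq)
      · intro h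
        exact ⟨Or.inl h, hp.1 h⟩
    have h2 : (p.1 ∪ p.2) ∩ F = p.2 := by
      ext q
      rw [mem_inter, mem_union]
      constructor
      · rintro ⟨h | h, hq⟩
        · exact absurd hq (Finset.disjoint_left.1 hEF (hp.1 h))
        · exact h
      · intro h
        exact ⟨Or.inr h, hp.2 h⟩
    rw [h1, h2]
  · intro S hS
    rw [mem_powerset] at hS
    rw [← Finset.inter_union_distrib_left]
    exact Finset.inter_eq_left.2 hS
  · intro p hp
    rw [mem_product, mem_powerset, mem_powerset] at hp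
    have hd : Disjoint p.1 p.2 := Finset.disjoint_of_subset_left hp.1
      (Finset.disjoint_of_subset_right hp.2 hEF)
    have h1 : (p.1 ∪ p.2) ∩ E = p.1 := by
      ext q
      rw [mem_inter, mem_union]
      constructor
      · rintro ⟨h | h, hq⟩
        · exact h
        · exact absurd (hp.2 h) (Finset.disjoint_left.1 hEF hq)
      · intro h
        exact ⟨Or.inl h, hp.1 h⟩
    have h2 : (p.1 ∪ p.2) ∩ F = p.2 := by
      ext q
      rw [mem_inter, mem_union]
      constructor
      · rintro ⟨h | h, hq⟩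
        · exact absurd hq (Finset.disjoint_left.1 hEF (hp.1 h))
        · exact h
      · intro h
        exact ⟨Or.inr h, hp.2 h⟩
    beta_reduce
    rw [h1, h2, Finset.prod_union hd]
    ring

end Pool.Agent.Lib.MP_2a99c0_nt.H73
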