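import Pool.Agent.Lib.MP_2a99c0_nt.H73.Ma
import Pool.Agent.Lib.MP_2a99c0_nt.H73.Cor

/-!
# Primes avoiding classes modulo all primes up to a power: lower bound
-/

set_option autoImplicit false

namespace Pool.Agent.Lib.MP_2a99c0_nt.H73

open Finset Pool.Agent.Lib.MP_ba0fa5_ag Pool.Agent.Lib.MP_ba0fa5_ag.AA
open ArithmeticFunction (vonMangoldt)
open scoped Classical

lemma Psi_low : ∃ X₀ : ℕ, ∀ Z : ℕ, X₀ ≤ Z → (Z : ℝ) / 2 ≤ Psi Z := by
  obtain ⟨X₀, h⟩ := cheb_low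
  refine ⟨X₀ + 2, fun Z hZ => ?_⟩
  have h1 := h Z (by omega)
  have hZ2 : (2 : ℝ) ≤ Z := by
    have : 2 ≤ Z := by omega
    exact_mod_cast this
  have hl : 0 < Real.log Z := Real.log_pos (by linarith)
  have h2 : ((Ioc Z (4 * Z)).filter Nat.Prime).card * Real.log Z ≤ Psi Z := by
    have h3 : ∑ n ∈ (Ioc Z (4 * Z)).filter Nat.Prime, (vonMangoldt n : ℝ) ≤ Psi Z :=
      Finset.sum_le_sum_of_subset_of_nonneg (Finset.filter_subset _ _)
        fun n _ _ => ArithmeticFunction.vonMangoldt_nonneg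
    refine le_trans ?_ h3
    rw [← nsmul_eq_mul]
    apply Finset.card_nsmul_le_sum
    intro q hq
    rw [mem_filter, mem_Ioc] at hq
    rw [ArithmeticFunction.vonMangoldt_apply_prime hq.2]
    apply Real.log_le_log (by linarith)
    exact_mod_cast hq.1.1.le
  linarith

lemma PP_low (w z : ℕ) (hw : 3 ≤ w) (E : Finset ℕ) (hE : E ⊆ primesIn w z) :
    VV w z ^ 2 ≤ ∏ p ∈ E, (1 - 1 / ((p : ℝ) - 1)) := by
  have hmem : ∀ p ∈ primesIn w z, (4 : ℝ) ≤ p := by
    intro p hp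
    rw [primesIn, mem_filter, mem_Ioc] at hp
    have : 4 ≤ p := by omega
    exact_mod_cast this
  have h1 : VV w z ^ 2 ≤ ∏ p ∈ primesIn w z, (1 - 1 / ((p : ℝ) - 1)) := by
    rw [VV, ← Finset.prod_pow]
    apply Finset.prod_le_prod
    · intro p _
      positivity
    · intro p hp
      have h4 := hmem p hp
      have hp1 : (0 : ℝ) < (p : ℝ) - 1 := by linarith
      have hp0 : (0 : ℝ) < p := by linarith
      have h5 : (1 - 1 / ((p : ℝ) - 1)) - (1 - 1 / (p : ℝ)) ^ 2 =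
          ((p : ℝ) ^ 2 - 3 * p + 1) / (p ^ 2 * (p - 1)) := by
        field_simp
        ring
      have h6 : 0 ≤ ((p : ℝ) ^ 2 - 3 * p + 1) / (p ^ 2 * (p - 1)) := by
        apply div_nonneg
        · nlinarith
        · positivity
      linarith
  refine h1.trans ?_
  rw [← Finset.prod_sdiff hE]
  have h2 : ∏ p ∈ primesIn w z \ E, (1 - 1 / ((p : ℝ) - 1)) ≤ 1 := by
    apply Finset.prod_le_one
    · intro p hp
      have h4 := hmem p (mem_sdiff.1 hp).1
      have : 1 / ((p : ℝ) - 1) ≤ 1 := by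
        rw [div_le_one (by linarith)]
        linarith
      linarith
    · intro p hp
      have h4 := hmem p (mem_sdiff.1 hp).1
      have : 0 ≤ 1 / ((p : ℝ) - 1) := by
        apply div_nonneg (by norm_num)
        linarith
      linarith
  have h3 : 0 ≤ ∏ p ∈ E, (1 - 1 / ((p : ℝ) - 1)) := by
    apply Finset.prod_nonneg
    intro p hp
    have h4 := hmem p (hE hp)
    have : 1 / ((p : ℝ) - 1) ≤ 1 := by
      rw [div_le_one (by linarith)]
      linarith
    linarith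
  nlinarith


lemma PG_ge : ∃ X₀ : ℕ, ∀ Z : ℕ, X₀ ≤ Z → (Z : ℝ) ≤ PG Z := by
  obtain ⟨X₀, h⟩ := Psi_low
  refine ⟨X₀ + 1, fun Z hZ => ?_⟩
  have hZ0 : (0 : ℝ) < Z := by
    have : 0 < Z := by omega
    exact_mod_cast this
  have h1 := h (2 * Z) (by omega)
  have h2 : ((2 * Z : ℕ) : ℝ) / 2 = Z := by
    push_cast
    ring
  rw [h2] at h1
  refine h1.trans ?_
  unfold Psi PG
  have hsub : Ioc (2 * Z) (4 * (2 * Z)) ⊆ Ioc Z (16 * Z) := by
    intro n hn
    rw [mem_Ioc] at hn ⊢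
    omega
  refine le_trans (Finset.sum_le_sum (g := fun n : ℕ => vonMangoldt n * GG ((n : ℝ) / Z)) ?_)
    (Finset.sum_le_sum_of_subset_of_nonneg hsub ?_)
  · intro n hn
    rw [mem_Ioc] at hn
    have h3 : (2 : ℝ) ≤ (n : ℝ) / Z := by
      rw [le_div_iff₀ hZ0]
      exact_mod_cast hn.1.le
    have h4 : (n : ℝ) / Z ≤ 8 := by
      rw [div_le_iff₀ hZ0]
      have : n ≤ 8 * Z := by omega
      exact_mod_cast this
    have h5 := GG_ge h3 h4
    have h6 : (0 : ℝ) ≤ vonMangoldt n := ArithmeticFunction.vonMangoldt_nonneg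
    nlinarith
  · intro n _ _
    exact mul_nonneg ArithmeticFunction.vonMangoldt_nonneg (GG_nonneg _)

open Pool.Agent.Lib.MP_02fec8_nt.Mert in
lemma bucket : ∃ w₀ : ℕ, 10 ≤ w₀ ∧ ∀ (w : ℕ) (E : Finset ℕ), w₀ ≤ w →
    (∀ p ∈ E, p.Prime ∧ w < p) → ∀ t : ℕ,
    ∑ p ∈ E.filter (fun p => Nat.sqrt t < p ∧ p ≤ t), 1 / ((p : ℝ) - 1) ≤ 3 / 2 := by
  obtain ⟨K, hK0, hK⟩ := mertens1
  refine ⟨⌈Real.exp (5 * (4 * K + 4))⌉₊ + 10, by omega, fun w E hw hE t => ?_⟩
  by_cases htw : t ≤ w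
  · have h1 : E.filter (fun p => Nat.sqrt t < p ∧ p ≤ t) = ∅ := by
      rw [Finset.filter_eq_empty_iff]
      intro p hp h
      have := (hE p hp).2
      omega
    rw [h1, Finset.sum_empty]
    norm_num
  rw [not_le] at htw
  obtain ⟨s, hs⟩ : ∃ s, s = Nat.sqrt t := ⟨_, rfl⟩
  rw [← hs]
  have hw0 : Real.exp (5 * (4 * K + 4)) ≤ w := by
    have h1 : ⌈Real.exp (5 * (4 * K + 4))⌉₊ ≤ w := by omega
    exact (Nat.le_ceil _).trans (by exact_mod_cast h1)
  have hwt : (w : ℝ) ≤ t := by exact_mod_cast htw.le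
  have ht0 : (0 : ℝ) < t := lt_of_lt_of_le (Real.exp_pos _) (hw0.trans hwt)
  obtain ⟨T, hT⟩ : ∃ T, T = Real.log t := ⟨_, rfl⟩
  have hT5 : 5 * (4 * K + 4) ≤ T := by
    rw [hT, Real.le_log_iff_exp_le ht0]
    exact hw0.trans hwt
  have hT0 : 0 < T := by linarith
  have hs1 : 1 ≤ s := by
    rw [hs, Nat.le_sqrt]
    omega
  have hs0 : (0 : ℝ) < s := by exact_mod_cast hs1
  have hst : s ≤ t := by
    rw [hs]
    exact Nat.sqrt_le_self t
  have hlt : t < (s + 1) * (s + 1) := by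
    rw [hs]
    exact Nat.lt_succ_sqrt t
  have hlogs : T / 2 - 1 ≤ Real.log s := by
    have h1 : (t : ℝ) ≤ 4 * (s : ℝ) ^ 2 := by
      have h2 : t ≤ 4 * s ^ 2 := by nlinarith
      exact_mod_cast h2
    have h2 := Real.log_le_log ht0 h1
    rw [Real.log_mul (by norm_num) (by positivity), Real.log_pow, ← hT] at h2
    have h3 : Real.log 4 ≤ 2 := by
      rw [show (4 : ℝ) = 2 ^ 2 by norm_num, Real.log_pow]
      have := Real.log_two_lt_d9
      push_cast
      linarith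
    push_cast at h2
    linarith
  have hsub : E.filter (fun p => s < p ∧ p ≤ t) ⊆ Nat.primesLE t \ Nat.primesLE s := by
    intro p hp
    rw [mem_filter] at hp
    rw [mem_sdiff, Nat.mem_primesLE, Nat.mem_primesLE]
    refine ⟨⟨hp.2.2, (hE p hp.1).1⟩, fun h => ?_⟩
    omega
  have hterm : ∀ p ∈ E.filter (fun p => s < p ∧ p ≤ t), 1 / ((p : ℝ) - 1) ≤
      (11 / 10) * (2 / T) * (Real.log p / p) := by
    intro p hp
    rw [mem_filter] at hp
    have hpw := (hE p hp.1).2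
    have hp11 : (11 : ℝ) ≤ p := by
      have : 11 ≤ p := by omega
      exact_mod_cast this
    have h1 : T ≤ 2 * Real.log p := by
      have h2 : (t : ℝ) ≤ (p : ℝ) ^ 2 := by
        have h3 : t ≤ p ^ 2 := by nlinarith
        exact_mod_cast h3
      have h4 := Real.log_le_log ht0 h2
      rw [Real.log_pow] at h4
      push_cast at h4
      rw [hT]
      exact h4
    have h2 : 1 / ((p : ℝ) - 1) ≤ (11 / 10) * (1 / p) := by
      rw [mul_one_div, div_le_div_iff₀ (by linarith) (by linarith)]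
      linarith
    have h3 : (11 / 10) * (2 / T) * (Real.log p / p) =
        ((11 / 10) * (1 / p)) * (2 * Real.log p / T) := by
      field_simp
    rw [h3]
    have h4 : 1 ≤ 2 * Real.log p / T := by
      rw [le_div_iff₀ hT0]
      linarith
    have h5 : (0 : ℝ) ≤ (11 / 10) * (1 / p) := by positivity
    nlinarith
  have h1 : ∑ p ∈ E.filter (fun p => s < p ∧ p ≤ t), 1 / ((p : ℝ) - 1) ≤
      (11 / 10) * (2 / T) * (M t - M s) := by
    have h2 : M t - M s = ∑ p ∈ Nat.primesLE t \ Nat.primesLE s, Real.log p / p := by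
      have hss : Nat.primesLE s ⊆ Nat.primesLE t := by
        intro p hp
        rw [Nat.mem_primesLE] at hp ⊢
        exact ⟨hp.1.trans hst, hp.2⟩
      have h2 := Finset.sum_sdiff (f := fun p : ℕ => Real.log p / (p : ℝ)) hss
      unfold M
      linarith
    rw [h2, Finset.mul_sum]
    refine (Finset.sum_le_sum hterm).trans (Finset.sum_le_sum_of_subset_of_nonneg hsub ?_)
    intro p _ _
    positivity
  have ht1 : 1 ≤ t := by omega
  have hMt := (abs_le.1 (hK t ht1)).2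
  have hMs := (abs_le.1 (hK s hs1)).1
  rw [← hT] at hMt
  have h2 : M t - M s ≤ T / 2 + (2 * K + 1) := by linarith
  have h3 : (11 / 10) * (2 / T) * (M t - M s) ≤ (11 / 10) * (2 / T) * (T / 2 + (2 * K + 1)) :=
    mul_le_mul_of_nonneg_left h2 (by positivity)
  have h4 : (11 / 10) * (2 / T) * (T / 2 + (2 * K + 1)) =
      11 / 10 + (11 / 10) * ((4 * K + 2) / T) := by
    field_simp
    ring
  have h5 : (4 * K + 2) / T ≤ 1 / 5 := by
    rw [div_le_iff₀ hT0]
    linarith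
  linarith

/-- **many primes avoid classes modulo all primes up to a power** -/
theorem lower : ∃ w₀ Z₀ : ℕ, 3 ≤ w₀ ∧ ∀ (Z z w : ℕ) (E : Finset ℕ) (b : ℕ → ℕ),
    Z₀ ≤ Z → w₀ ≤ w → 3 ≤ z → z ^ 162 ≤ Z → (∀ p ∈ E, p.Prime ∧ w < p ∧ p ≤ z ∧ ¬ p ∣ b p) →
    (Z : ℝ) * ∏ p ∈ E, (1 - 1 / ((p : ℝ) - 1)) ≤ 480000 * (Real.log Z *
      ((Ioc Z (16 * Z)).filter (fun q => q.Prime ∧ ∀ p ∈ E, ¬ q ≡ b p [MOD p])).card) := by
  obtain ⟨c', C', hc', hC', hV⟩ := b_vbnd
  obtain ⟨w₀, hw₀, hbu⟩ := bucket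
  obtain ⟨X₀, hX₀⟩ := PG_ge
  obtain ⟨Z₁, hZ₁⟩ := brun 4
  obtain ⟨x₃, hx₃⟩ := ev_pow 3 (7680000 / c' ^ 2) (1 / 2) (by norm_num)
  refine ⟨w₀, X₀ + Z₁ + x₃ + ⌈Real.exp (20 / c' ^ 2 + 3)⌉₊ + 16, by omega,
    fun Z z w E b hZ hw hz hzZ hE => ?_⟩
  have hZ16 : (16 : ℝ) ≤ Z := by
    have : 16 ≤ Z := by omega
    exact_mod_cast this
  have hZ0 : (0 : ℝ) < Z := by linarith
  obtain ⟨L, hL⟩ : ∃ L, L = Real.log Z := ⟨_, rfl⟩
  have hLbig : 20 / c' ^ 2 + 3 ≤ L := by
    rw [hL, Real.le_log_iff_exp_le hZ0]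
    have h1 : ⌈Real.exp (20 / c' ^ 2 + 3)⌉₊ ≤ Z := by omega
    exact (Nat.le_ceil _).trans (by exact_mod_cast h1)
  have hc20 : 0 < 20 / c' ^ 2 := by positivity
  have hL3 : 3 ≤ L := by linarith
  have hL0 : 0 < L := by linarith
  have hLc : 20 ≤ c' ^ 2 * L := by
    have h1 : 20 / c' ^ 2 ≤ L := by linarith
    rw [div_le_iff₀ (by positivity)] at h1
    linarith
  rw [← hL]
  have hz3 : (3 : ℝ) ≤ z := by exact_mod_cast hz
  have hzle : z ≤ Z := by
    calc z = z ^ 1 := (pow_one z).symm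
      _ ≤ z ^ 162 := Nat.pow_le_pow_right (by omega) (by norm_num)
      _ ≤ Z := hzZ
  have hlz : Real.log z ≤ L := by
    rw [hL]
    exact Real.log_le_log (by linarith) (by exact_mod_cast hzle)
  have hl3 : 1 ≤ Real.log 3 := by
    rw [Real.le_log_iff_exp_le (by norm_num)]
    have := Real.exp_one_lt_d9
    linarith
  have hlz1 : 1 ≤ Real.log z := hl3.trans (Real.log_le_log (by norm_num) hz3)
  -- the product
  obtain ⟨Pi, hPi⟩ : ∃ Pi, Pi = ∏ p ∈ E, (1 - 1 / ((p : ℝ) - 1)) := ⟨_, rfl⟩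
  have hE3 : E ⊆ primesIn 3 z := by
    intro p hp
    obtain ⟨h1, h2, h3, -⟩ := hE p hp
    rw [primesIn, mem_filter, mem_Ioc]
    exact ⟨⟨by omega, h3⟩, h1⟩
  have hPi2 : c' ^ 2 / L ^ 2 ≤ Pi := by
    rw [hPi]
    refine le_trans ?_ (PP_low 3 z le_rfl E hE3)
    have h1 := (hV 3 z le_rfl hz).1
    have h2 : c' / L ≤ c' * Real.log (3 : ℕ) / Real.log z := by
      push_cast
      rw [div_le_div_iff₀ hL0 (by linarith)]
      calc c' * Real.log z ≤ c' * L := mul_le_mul_of_nonneg_left hlz hc'.le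
        _ = c' * 1 * L := by ring
        _ ≤ c' * Real.log 3 * L := by gcongr
    rw [← div_pow]
    exact pow_le_pow_left₀ (by positivity) (h2.trans h1) 2
  rw [← hPi]
  have hPi0 : 0 < Pi := lt_of_lt_of_le (by positivity) hPi2
  -- levels
  obtain ⟨r, hr⟩ : ∃ r, r = Nat.log 2 z + 1 := ⟨_, rfl⟩
  have hLev : Lev r z E := by
    intro p hp
    obtain ⟨h1, h2, h3, -⟩ := hE p hp
    refine ⟨?_, h3⟩
    have h4 := levels_log z (by omega)
    rw [← hr] at h4
    omega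
  have hr1 : (1 : ℝ) + r ≤ (5 / 2) * L := by
    have h1 : (2 : ℝ) ^ (Nat.log 2 z) ≤ z := by
      exact_mod_cast Nat.pow_log_le_self 2 (by omega)
    have h2 := Real.log_le_log (by positivity) h1
    rw [Real.log_pow] at h2
    have h3 := Real.log_two_gt_d9
    have h4 : (0 : ℝ) ≤ Nat.log 2 z := Nat.cast_nonneg _
    have h5 : (2 / 3 : ℝ) * Nat.log 2 z ≤ L := by nlinarith
    rw [hr]
    push_cast
    linarith
  have hτ : ∀ p ∈ E, 0 ≤ 1 / ((p : ℝ) - 1) ∧ 1 / ((p : ℝ) - 1) ≤ 1 / 2 := by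
    intro p hp
    obtain ⟨h1, h2, h3, -⟩ := hE p hp
    have h4 : (10 : ℝ) ≤ p := by
      have : 10 ≤ p := by omega
      exact_mod_cast this
    constructor
    · apply div_nonneg (by norm_num)
      linarith
    · rw [div_le_div_iff₀ (by linarith) (by norm_num)]
      linarith
  have hmod := model_ge (fun p => 1 / ((p : ℝ) - 1)) r z 3 E le_rfl hLev hτ
    (hbu w E hw (fun p hp => ⟨(hE p hp).1, (hE p hp).2.1⟩))
  have hcP := Gen_cP_ge (fun p => 1 / ((p : ℝ) - 1)) r z 3 E hLev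
    (fun p hp => ⟨(hτ p hp).1, (hτ p hp).2.trans (by norm_num)⟩)
  rw [← hPi] at hcP
  have hcQ : Pi / 2 ≤ Gen E (fun p => 1 / ((p : ℝ) - 1)) (cQ r z 3) := by
    have h8 : (1 - 4 / 2 ^ 3 : ℝ) = 1 / 2 := by norm_num
    rw [h8] at hmod
    linarith
  have hbr := hZ₁ Z z r E b (by omega) (by omega) hzZ hLev
    (fun p hp => ⟨(hE p hp).1, (hE p hp).2.2.2⟩)
  have hPG := hX₀ Z (by omega)
  have hlow1 : Z * (Pi / 2) ≤ PG Z * Gen E (fun p => 1 / ((p : ℝ) - 1)) (cQ r z 3) :=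
    mul_le_mul hPG hcQ (by positivity) (by linarith)
  have herr : (1 + (r : ℝ)) * (Z / Real.log Z ^ 4) ≤ Z * Pi / 8 := by
    rw [← hL]
    calc (1 + (r : ℝ)) * (Z / L ^ 4) ≤ ((5 / 2) * L) * (Z / L ^ 4) :=
          mul_le_mul_of_nonneg_right hr1 (by positivity)
      _ = Z * (20 / (8 * L ^ 3)) := by
          field_simp
          ring
      _ ≤ Z * (c' ^ 2 * L / (8 * L ^ 3)) := by
          apply mul_le_mul_of_nonneg_left _ hZ0.le
          apply div_le_div_of_nonneg_right hLc (by positivity)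
      _ = Z * (c' ^ 2 / L ^ 2) / 8 := by
          field_simp
      _ ≤ Z * Pi / 8 := by
          apply div_le_div_of_nonneg_right _ (by norm_num)
          exact mul_le_mul_of_nonneg_left hPi2 hZ0.le
  obtain ⟨N, hN⟩ : ∃ N : ℝ, N = ((Ioc Z (16 * Z)).filter
      (fun q => q.Prime ∧ ∀ p ∈ E, ¬ q ≡ b p [MOD p])).card := ⟨_, rfl⟩
  rw [← hN]
  have hN0 : 0 ≤ N := by rw [hN]; positivity
  have hlog16 : Real.log (16 * (Z : ℝ)) ≤ 2 * L := by
    rw [Real.log_mul (by norm_num) (by linarith), hL]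
    have := Real.log_le_log (by norm_num) hZ16
    linarith
  have hlog16' : 0 ≤ Real.log (16 * (Z : ℝ)) := Real.log_nonneg (by linarith)
  have hup : ∑ n ∈ (Ioc Z (16 * Z)).filter (fun n => ∀ p ∈ E, ¬ n ≡ b p [MOD p]),
        vonMangoldt n * GG ((n : ℝ) / Z) ≤
      N * (2 * L * 60000) + 60000 * (2 * Real.sqrt (16 * Z) * Real.log (16 * Z)) := by
    rw [← Finset.sum_filter_add_sum_filter_not _ (fun n => n.Prime)]
    apply add_le_add
    · rw [Finset.filter_filter]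
      have h1 : (Ioc Z (16 * Z)).filter (fun n => (∀ p ∈ E, ¬ n ≡ b p [MOD p]) ∧ n.Prime) =
          (Ioc Z (16 * Z)).filter (fun q => q.Prime ∧ ∀ p ∈ E, ¬ q ≡ b p [MOD p]) := by
        ext n
        simp only [mem_filter]
        tauto
      rw [h1, hN, ← nsmul_eq_mul]
      apply Finset.sum_le_card_nsmul
      intro q hq
      rw [mem_filter, mem_Ioc] at hq
      rw [ArithmeticFunction.vonMangoldt_apply_prime hq.2.1]
      have h2 : Real.log (q : ℝ) ≤ 2 * L := by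
        refine le_trans ?_ hlog16
        apply Real.log_le_log
        · exact_mod_cast hq.2.1.pos
        · exact_mod_cast hq.1.2
      exact mul_le_mul h2 (GG_le _) (GG_nonneg _) (by linarith)
    · have h1 := Chebyshev.psi_sub_theta_le (x := ((16 * Z : ℕ) : ℝ)) (by
        push_cast
        linarith)
      rw [Chebyshev.psi_sub_theta_eq_sum_not_prime, Nat.floor_natCast] at h1
      push_cast at h1
      refine le_trans ?_ (mul_le_mul_of_nonneg_left h1 (by norm_num))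
      rw [Finset.mul_sum]
      refine le_trans (Finset.sum_le_sum (g := fun n : ℕ => 60000 * (vonMangoldt n : ℝ)) ?_)
        (Finset.sum_le_sum_of_subset_of_nonneg ?_ ?_)
      · intro n _
        beta_reduce
        rw [mul_comm]
        exact mul_le_mul_of_nonneg_right (GG_le _) ArithmeticFunction.vonMangoldt_nonneg
      · intro n hn
        rw [mem_filter, mem_filter, mem_Ioc] at hn
        rw [mem_filter, mem_Ioc]
        exact ⟨⟨by omega, hn.1.1.2⟩, hn.2⟩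
      · intro n _ _
        exact mul_nonneg (by norm_num) ArithmeticFunction.vonMangoldt_nonneg
  have hsmall : 60000 * (2 * Real.sqrt (16 * Z) * Real.log (16 * Z)) ≤ Z * Pi / 8 := by
    have h1 := hx₃ Z (by omega)
    rw [← Real.sqrt_eq_rpow, ← hL] at h1
    have h11 : Real.sqrt (16 * Z) = 4 * Real.sqrt Z := by
      rw [Real.sqrt_mul (by norm_num), show (16 : ℝ) = 4 ^ 2 by norm_num,
        Real.sqrt_sq (by norm_num)]
    have h13 := Real.mul_self_sqrt hZ0.le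
    have h14 : 0 < Real.sqrt Z := Real.sqrt_pos.2 hZ0
    have h15 : 7680000 * L ^ 3 ≤ c' ^ 2 * Real.sqrt Z := by
      have h16 : 7680000 / c' ^ 2 * L ^ 3 * c' ^ 2 = 7680000 * L ^ 3 := by field_simp
      have h17 := mul_le_mul_of_nonneg_right h1 (show (0 : ℝ) ≤ c' ^ 2 by positivity)
      linarith
    have h18 : 60000 * (2 * Real.sqrt (16 * Z) * Real.log (16 * Z)) ≤
        960000 * (Real.sqrt Z * L) := by
      rw [h11]
      calc 60000 * (2 * (4 * Real.sqrt Z) * Real.log (16 * Z)) ≤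
            60000 * (2 * (4 * Real.sqrt Z) * (2 * L)) := by gcongr
        _ = 960000 * (Real.sqrt Z * L) := by ring
    refine h18.trans ?_
    have h19 : Z * (c' ^ 2 / L ^ 2) / 8 ≤ Z * Pi / 8 := by
      apply div_le_div_of_nonneg_right _ (by norm_num)
      exact mul_le_mul_of_nonneg_left hPi2 hZ0.le
    refine le_trans ?_ h19
    have h20 : 960000 * (Real.sqrt Z * L) = Real.sqrt Z * (7680000 * L ^ 3) / (8 * L ^ 2) := by
      field_simp
      ring
    rw [h20]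
    have h21 : (Z : ℝ) * (c' ^ 2 / L ^ 2) / 8 =
        Real.sqrt Z * (c' ^ 2 * Real.sqrt Z) / (8 * L ^ 2) := by
      have h22 : Real.sqrt Z * (c' ^ 2 * Real.sqrt Z) = c' ^ 2 * (Real.sqrt Z * Real.sqrt Z) := by
        ring
      rw [h22, h13]
      field_simp
    rw [h21]
    apply div_le_div_of_nonneg_right _ (by positivity)
    exact mul_le_mul_of_nonneg_left h15 h14.le
  linarith

end Pool.Agent.Lib.MP_2a99c0_nt.H73
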