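import Pool.Agent.Lib.MP_2a99c0_nt.H73.Buk
import Pool.Agent.Lib.MP_2a99c0_nt.H73.Bvf

/-!
# The lower bound sieve for primes, with level of distribution a power
-/

set_option autoImplicit false

namespace Pool.Agent.Lib.MP_2a99c0_nt.H73

open Finset
open ArithmeticFunction (vonMangoldt)
open scoped Classical

lemma sieve_ineq (E : Finset ℕ) (r z k : ℕ) (hL : Lev r z E) (b : ℕ → ℕ) (n : ℕ) :
    ∑ S ∈ E.powerset, cQ r z k S * (if ∀ p ∈ S, n ≡ b p [MOD p] then (1 : ℝ) else 0) ≤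
      if ∀ p ∈ E, ¬ n ≡ b p [MOD p] then (1 : ℝ) else 0 := by
  have h := Gen_cQ_le (fun p => if n ≡ b p [MOD p] then (1 : ℝ) else 0) r z k E hL (by
    intro p _
    beta_reduce
    split_ifs <;> norm_num)
  have h1 : Gen E (fun p => if n ≡ b p [MOD p] then (1 : ℝ) else 0) (cQ r z k) =
      ∑ S ∈ E.powerset, cQ r z k S * (if ∀ p ∈ S, n ≡ b p [MOD p] then (1 : ℝ) else 0) := by
    unfold Gen
    apply Finset.sum_congr rfl
    intro S _
    rw [Finset.prod_ite_zero, Finset.prod_const_one]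
  rw [← h1]
  refine h.trans ?_
  split_ifs with h2
  · apply le_of_eq
    apply Finset.prod_eq_one
    intro p hp
    rw [if_neg (h2 p hp), sub_zero]
  · apply le_of_eq
    push Not at h2
    obtain ⟨p, hp, h3⟩ := h2
    apply Finset.prod_eq_zero hp
    rw [if_pos h3, sub_self]

lemma crt (b : ℕ → ℕ) (S : Finset ℕ) : (∀ p ∈ S, p.Prime) →
    ∃ c : ℕ, (∀ p ∈ S, c ≡ b p [MOD p]) ∧
      ∀ n : ℕ, n ≡ c [MOD ∏ p ∈ S, p] ↔ ∀ p ∈ S, n ≡ b p [MOD p] := by
  induction S using Finset.induction_on with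
  | empty =>
    intro _
    refine ⟨0, by simp, fun n => ?_⟩
    rw [Finset.prod_empty]
    exact ⟨fun _ => by simp, fun _ => Nat.modEq_one⟩
  | insert p S hp ih =>
    intro hS
    have hpp := hS p (mem_insert_self p S)
    obtain ⟨c, hc1, hc2⟩ := ih (fun q hq => hS q (mem_insert_of_mem hq))
    have hcop : p.Coprime (∏ q ∈ S, q) := by
      apply Nat.Coprime.prod_right
      intro q hq
      rw [Nat.coprime_primes hpp (hS q (mem_insert_of_mem hq))]
      rintro rfl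
      exact hp hq
    obtain ⟨c', hc'⟩ := Nat.chineseRemainder hcop (b p) c
    have hiff : ∀ n : ℕ, n ≡ c' [MOD ∏ q ∈ insert p S, q] ↔
        ∀ q ∈ insert p S, n ≡ b q [MOD q] := by
      intro n
      rw [Finset.prod_insert hp, ← Nat.modEq_and_modEq_iff_modEq_mul hcop]
      constructor
      · rintro ⟨h1, h2⟩ q hq
        rcases mem_insert.1 hq with rfl | hq
        · exact h1.trans hc'.1
        · exact (hc2 n).1 (h2.trans hc'.2) q hq
      · intro h
        refine ⟨(h p (mem_insert_self p S)).trans hc'.1.symm, ?_⟩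
        exact ((hc2 n).2 (fun q hq => h q (mem_insert_of_mem hq))).trans hc'.2.symm
    exact ⟨c', (hiff c').1 (Nat.ModEq.refl c'), hiff⟩

lemma phi_prod (S : Finset ℕ) : (∀ p ∈ S, p.Prime) →
    ((∏ p ∈ S, p).totient : ℝ) = ∏ p ∈ S, ((p : ℝ) - 1) := by
  induction S using Finset.induction_on with
  | empty =>
    intro _
    simp
  | insert p S hp ih =>
    intro hS
    have hpp := hS p (mem_insert_self p S)
    have hcop : p.Coprime (∏ q ∈ S, q) := by
      apply Nat.Coprime.prod_right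
      intro q hq
      rw [Nat.coprime_primes hpp (hS q (mem_insert_of_mem hq))]
      rintro rfl
      exact hp hq
    rw [Finset.prod_insert hp, Finset.prod_insert hp, Nat.totient_mul hcop, Nat.cast_mul,
      ih (fun q hq => hS q (mem_insert_of_mem hq)), Nat.totient_prime hpp,
      Nat.cast_sub hpp.one_lt.le, Nat.cast_one]

/-- the sieve -/
theorem brun (B : ℕ) : ∃ Z₀ : ℕ, ∀ (Z z r : ℕ) (E : Finset ℕ) (b : ℕ → ℕ), Z₀ ≤ Z → 2 ≤ z →
    z ^ 162 ≤ Z → Lev r z E → (∀ p ∈ E, p.Prime ∧ ¬ p ∣ b p) →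
    PG Z * Gen E (fun p => 1 / ((p : ℝ) - 1)) (cQ r z 3) -
      (1 + r) * (Z / Real.log Z ^ B) ≤
      ∑ n ∈ (Ioc Z (16 * Z)).filter (fun n => ∀ p ∈ E, ¬ n ≡ b p [MOD p]),
        vonMangoldt n * GG ((n : ℝ) / Z) := by
  obtain ⟨Z₀, hbv⟩ := bv B
  refine ⟨Z₀, fun Z z r E b hZ hz hzZ hL hE => ?_⟩
  obtain ⟨D, hD⟩ : ∃ D, D = z ^ 18 := ⟨_, rfl⟩
  have hD2 : 2 ≤ D := by
    calc 2 ≤ z := hz
      _ = z ^ 1 := (pow_one z).symm
      _ ≤ z ^ 18 := Nat.pow_le_pow_right (by omega) (by norm_num)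
      _ = D := hD.symm
  have hDZ : D ^ 9 ≤ Z := by
    rw [hD, ← pow_mul]
    exact hzZ
  have hEp : ∀ S : Finset ℕ, S ⊆ E → ∀ p ∈ S, p.Prime := fun S hS p hp => (hE p (hS hp)).1
  obtain ⟨c, hc⟩ : ∃ c : ℕ → ℕ, c = fun d => if h : d.primeFactors ⊆ E then
    (crt b d.primeFactors (hEp _ h)).choose else 1 := ⟨_, rfl⟩
  have hcop : ∀ d ∈ Icc 1 D, (c d).Coprime d := by
    intro d hd
    rw [hc]
    beta_reduce
    split_ifs with h
    · have hs := (crt b d.primeFactors (hEp _ h)).choose_spec.1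
      obtain ⟨c', hc'⟩ : ∃ c', c' = (crt b d.primeFactors (hEp _ h)).choose := ⟨_, rfl⟩
      rw [← hc'] at hs ⊢
      apply Nat.Coprime.symm
      apply Nat.coprime_of_dvd
      intro p hp hpd hpc
      have hd0 : d ≠ 0 := by
        rw [mem_Icc] at hd
        omega
      have hpm : p ∈ d.primeFactors := Nat.mem_primeFactors.2 ⟨hp, hpd, hd0⟩
      have h1 := hs p hpm
      have h2 : b p ≡ 0 [MOD p] := h1.symm.trans (Nat.modEq_zero_iff_dvd.2 hpc)
      exact (hE p (h hpm)).2 (Nat.modEq_zero_iff_dvd.1 h2)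
    · exact Nat.coprime_one_left d
  have hmain := hbv Z D hZ hD2 hDZ c hcop
  obtain ⟨I, hI⟩ : ∃ I, I = Ioc Z (16 * Z) := ⟨_, rfl⟩
  obtain ⟨f, hf⟩ : ∃ f : ℕ → ℝ, f = fun n => vonMangoldt n * GG ((n : ℝ) / Z) := ⟨_, rfl⟩
  have hf0 : ∀ n, 0 ≤ f n := by
    intro n
    rw [hf]
    exact mul_nonneg ArithmeticFunction.vonMangoldt_nonneg (GG_nonneg _)
  obtain ⟨err, herr⟩ : ∃ err : ℕ → ℝ, err = fun d =>
    ∑ n ∈ I.filter (fun n => n ≡ c d [MOD d]), f n - PG Z / d.totient := ⟨_, rfl⟩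
  have hmain' : ∑ d ∈ Icc 1 D, |err d| ≤ Z / Real.log Z ^ B := by
    rw [herr, hI, hf]
    exact hmain
  have hgoal : ∑ n ∈ (Ioc Z (16 * Z)).filter (fun n => ∀ p ∈ E, ¬ n ≡ b p [MOD p]),
        vonMangoldt n * GG ((n : ℝ) / Z) =
      ∑ n ∈ I, f n * (if ∀ p ∈ E, ¬ n ≡ b p [MOD p] then (1 : ℝ) else 0) := by
    rw [hI, hf, Finset.sum_filter]
    apply Finset.sum_congr rfl
    intro n _
    split_ifs <;> simp
  rw [hgoal]
  have h1 : ∑ n ∈ I, f n * (∑ S ∈ E.powerset, cQ r z 3 S *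
      (if ∀ p ∈ S, n ≡ b p [MOD p] then (1 : ℝ) else 0)) ≤
      ∑ n ∈ I, f n * (if ∀ p ∈ E, ¬ n ≡ b p [MOD p] then (1 : ℝ) else 0) :=
    Finset.sum_le_sum fun n _ => mul_le_mul_of_nonneg_left (sieve_ineq E r z 3 hL b n) (hf0 n)
  refine le_trans ?_ h1
  have h2 : ∑ n ∈ I, f n * (∑ S ∈ E.powerset, cQ r z 3 S *
      (if ∀ p ∈ S, n ≡ b p [MOD p] then (1 : ℝ) else 0)) =
      ∑ S ∈ E.powerset, cQ r z 3 S * ∑ n ∈ I.filter (fun n => ∀ p ∈ S, n ≡ b p [MOD p]), f n := by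
    rw [Finset.sum_congr rfl (fun n _ => Finset.mul_sum _ _ _), Finset.sum_comm]
    apply Finset.sum_congr rfl
    intro S _
    rw [Finset.mul_sum, Finset.sum_filter]
    apply Finset.sum_congr rfl
    intro n _
    split_ifs
    · ring
    · simp
  rw [h2]
  have hSd : ∀ S ∈ E.powerset, ∑ n ∈ I.filter (fun n => ∀ p ∈ S, n ≡ b p [MOD p]), f n =
      PG Z * ∏ p ∈ S, (1 / ((p : ℝ) - 1)) + err (∏ p ∈ S, p) := by
    intro S hS
    rw [mem_powerset] at hS
    have hSp := hEp S hS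
    have hpf : (∏ p ∈ S, p).primeFactors = S := Nat.primeFactors_prod hSp
    have h3 : I.filter (fun n => ∀ p ∈ S, n ≡ b p [MOD p]) =
        I.filter (fun n => n ≡ c (∏ p ∈ S, p) [MOD ∏ p ∈ S, p]) := by
      apply Finset.filter_congr
      intro n _
      have h4 : (∏ p ∈ S, p).primeFactors ⊆ E := by rw [hpf]; exact hS
      have h5 := (crt b (∏ p ∈ S, p).primeFactors (hEp _ h4)).choose_spec.2 n
      have h6 : c (∏ p ∈ S, p) = (crt b (∏ p ∈ S, p).primeFactors (hEp _ h4)).choose := by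
        rw [hc]
        beta_reduce
        rw [dif_pos h4]
      rw [h6]
      obtain ⟨c', hc'⟩ : ∃ c', c' = (crt b (∏ p ∈ S, p).primeFactors (hEp _ h4)).choose :=
        ⟨_, rfl⟩
      rw [← hc'] at h5 ⊢
      rw [hpf] at h5
      exact h5.symm
    have h4 : PG Z * ∏ p ∈ S, (1 / ((p : ℝ) - 1)) = PG Z / (∏ p ∈ S, p).totient := by
      rw [phi_prod S hSp, Finset.prod_div_distrib, Finset.prod_const_one]
      ring
    rw [h4, herr, h3]
    beta_reduce
    ring
  rw [Finset.sum_congr rfl (fun S hS => by rw [hSd S hS])]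
  have h3 : ∑ S ∈ E.powerset, cQ r z 3 S * (PG Z * ∏ p ∈ S, (1 / ((p : ℝ) - 1)) +
      err (∏ p ∈ S, p)) = PG Z * Gen E (fun p => 1 / ((p : ℝ) - 1)) (cQ r z 3) +
      ∑ S ∈ E.powerset, cQ r z 3 S * err (∏ p ∈ S, p) := by
    unfold Gen
    rw [Finset.mul_sum, ← Finset.sum_add_distrib]
    apply Finset.sum_congr rfl
    intro S _
    ring
  rw [h3]
  have h4 : |∑ S ∈ E.powerset, cQ r z 3 S * err (∏ p ∈ S, p)| ≤
      (1 + r) * (Z / Real.log Z ^ B) := by
    refine (Finset.abs_sum_le_sum_abs _ _).trans ?_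
    refine le_trans ?_ (mul_le_mul_of_nonneg_left hmain' (by positivity))
    rw [Finset.mul_sum]
    have h5 : ∑ S ∈ E.powerset, |cQ r z 3 S * err (∏ p ∈ S, p)| ≤
        ∑ S ∈ E.powerset.filter (fun S => cQ r z 3 S ≠ 0), (1 + r) * |err (∏ p ∈ S, p)| := by
      rw [Finset.sum_filter]
      apply Finset.sum_le_sum
      intro S _
      split_ifs with h
      · rw [abs_mul]
        exact mul_le_mul_of_nonneg_right (abs_cQ r z 3 S) (abs_nonneg _)
      · rw [not_not] at h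
        rw [h, zero_mul, abs_zero]
    refine h5.trans ?_
    have hinj : Set.InjOn (fun S : Finset ℕ => ∏ p ∈ S, p)
        (E.powerset.filter (fun S => cQ r z 3 S ≠ 0) : Finset (Finset ℕ)) := by
      intro S hS S' hS' h
      rw [Finset.mem_coe, mem_filter, mem_powerset] at hS hS'
      simp only at h
      rw [← Nat.primeFactors_prod (hEp S hS.1), ← Nat.primeFactors_prod (hEp S' hS'.1), h]
    rw [← Finset.sum_image (f := fun d => (1 + (r : ℝ)) * |err d|) hinj]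
    apply Finset.sum_le_sum_of_subset_of_nonneg
    · intro d hd
      rw [mem_image] at hd
      obtain ⟨S, hS, rfl⟩ := hd
      rw [mem_filter, mem_powerset] at hS
      rw [mem_Icc]
      constructor
      · exact Finset.prod_pos fun p hp => (hEp S hS.1 p hp).pos
      · have h6 := supp r z 3 S (by omega) (fun p hp => hL p (hS.1 hp)) (Or.inr hS.2)
        rw [hD]
        exact h6
    · intro d _ _
      positivity
  have h5 := (abs_le.1 h4).1
  linarith

end Pool.Agent.Lib.MP_2a99c0_nt.H73
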