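import Pool.Agent.Lib.MP_2a99c0_nt.H73.Up
import Pool.Agent.Lib.MP_2a99c0_nt.H73.Lw

/-!
# Coverings with arbitrary classes for all small primes
-/

set_option autoImplicit false

namespace Pool.Agent.Lib.MP_2a99c0_nt.H73

open Finset Pool.Agent.Lib.MP_ba0fa5_ag Pool.Agent.Lib.MP_ba0fa5_ag.AA
open scoped Classical

/-- **the inequality, with arbitrary classes for the primes up to `z`** -/
theorem gen : ∃ c C : ℝ, 0 < c ∧ 1 ≤ C ∧ ∀ (x z : ℕ) (l : ℝ) (r : ℕ → ℤ) (y : ℕ) (n : ℤ),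
    C ≤ x → C ≤ l → l ≤ x → 3 ≤ z → z ^ 162 ≤ x → l * x ≤ y →
    Covers (Nat.primesLE x) r y → 0 ≤ n → n ≤ y + 1 →
    c ≤ ∑ p ∈ (Nat.primesLE x).filter (fun p : ℕ => z < p ∧ ¬ (p : ℤ) ∣ n - r p),
      Real.log x / (p * Real.log (l * x / p)) * (1 + Real.log z / Real.log (l * x / p)) := by
  obtain ⟨B, C₀, hC₀, hup⟩ := upper
  obtain ⟨w₀, Z₀, hw₀, hlow⟩ := lower
  obtain ⟨K, hK⟩ : ∃ K : ℝ, K = 64 * 4 ^ w₀ := ⟨_, rfl⟩
  have hK64 : 64 ≤ K := by
    have h1 : (1 : ℝ) ≤ 4 ^ w₀ := one_le_pow₀ (by norm_num)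
    rw [hK]
    linarith
  have h3B : (0 : ℝ) < 3 ^ B := by positivity
  refine ⟨1 / (3840000 * C₀), Z₀ + K ^ 2 + K * 3 ^ B + K + 3, by positivity, ?_, ?_⟩
  · have h1 : (0 : ℝ) ≤ Z₀ := Nat.cast_nonneg _
    have h2 : 0 ≤ K ^ 2 := by positivity
    have h3 : 0 ≤ K * 3 ^ B := by positivity
    linarith
  intro x z l r y n hx hl hlx hz3 hz162 hy hcov hn0 hn1
  have hZ₀0 : (0 : ℝ) ≤ Z₀ := Nat.cast_nonneg _
  have hK2 : 0 ≤ K ^ 2 := by positivity
  have hK3 : 0 ≤ K * 3 ^ B := by positivity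
  have hl1 : K ^ 2 ≤ l := by linarith
  have hl2 : K * 3 ^ B ≤ l := by linarith
  have hl3 : K ≤ l := by linarith
  have hl0 : 0 < l := by linarith
  have hx3 : (3 : ℝ) ≤ x := by linarith
  have hx0 : (0 : ℝ) < x := by linarith
  have hK0 : 0 < K := by linarith
  obtain ⟨L, hL⟩ : ∃ L, L = Real.log x := ⟨_, rfl⟩
  have hL0 : 0 < L := by rw [hL]; exact Real.log_pos (by linarith)
  have hz3' : (3 : ℝ) ≤ z := by exact_mod_cast hz3
  have hlz0 : 0 < Real.log z := Real.log_pos (by linarith)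
  -- `Z`
  obtain ⟨Z, hZ⟩ : ∃ Z : ℕ, Z = ⌊l * x / (K / 2)⌋₊ := ⟨_, rfl⟩
  have hlx0 : 0 < l * x := by positivity
  have hZle : (Z : ℝ) ≤ l * x / (K / 2) := by
    rw [hZ]
    exact Nat.floor_le (by positivity)
  have hbig : (2 : ℝ) * x ≤ l * x / (K / 2) := by
    rw [le_div_iff₀ (by positivity)]
    calc 2 * (x : ℝ) * (K / 2) = K * x := by ring
      _ ≤ l * x := mul_le_mul_of_nonneg_right hl3 hx0.le
  have hZge : l * x / K ≤ Z := by
    have h1 := Nat.lt_floor_add_one (l * x / (K / 2))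
    rw [← hZ] at h1
    have h2 : l * x / (K / 2) = 2 * (l * x / K) := by
      field_simp
    rw [h2] at h1 hbig
    linarith
  have hxZ' : (x : ℝ) ≤ Z := by
    refine le_trans ?_ hZge
    rw [le_div_iff₀ hK0, mul_comm]
    exact mul_le_mul_of_nonneg_right hl3 hx0.le
  have hxZ : x ≤ Z := by exact_mod_cast hxZ'
  have hZ0 : (0 : ℝ) < Z := lt_of_lt_of_le hx0 hxZ'
  have hZZ₀ : Z₀ ≤ Z := by
    have h1 : (Z₀ : ℝ) ≤ Z := by linarith
    exact_mod_cast h1
  have hzB : ∀ p : ℕ, p ≤ x → 3 ^ B * p ≤ Z := by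
    intro p hp
    have h1 : ((3 ^ B * p : ℕ) : ℝ) ≤ Z := by
      push_cast
      refine le_trans ?_ hZge
      rw [le_div_iff₀ hK0]
      have hp' : (p : ℝ) ≤ x := by exact_mod_cast hp
      calc (3 : ℝ) ^ B * p * K = (K * 3 ^ B) * p := by ring
        _ ≤ l * x := mul_le_mul hl2 hp' (Nat.cast_nonneg _) hl0.le
    exact_mod_cast h1
  -- the covering
  have hP : ∀ p ∈ Nat.primesLE x, p.Prime := fun p hp => (Nat.mem_primesLE.1 hp).2
  obtain ⟨D, hD⟩ : ∃ D, D = (Nat.primesLE x).filter (fun p : ℕ => p ≤ w₀) := ⟨_, rfl⟩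
  have hDP : D ⊆ Nat.primesLE x := by rw [hD]; exact Finset.filter_subset _ _
  obtain ⟨M, hM⟩ : ∃ M : ℕ, M = ∏ p ∈ D.filter (fun p : ℕ => ¬ (p : ℤ) ∣ n - r p), p := ⟨_, rfl⟩
  have hM4 : M ≤ 4 ^ w₀ := by
    refine le_trans ?_ (primorial_le_four_pow w₀)
    rw [primorial_eq_prod_primesLE, hM]
    apply Nat.le_of_dvd
    · exact Finset.prod_pos fun p hp => (Nat.mem_primesLE.1 hp).2.pos
    · apply Finset.prod_dvd_prod_of_subset
      intro p hp
      rw [mem_filter, hD, mem_filter, Nat.mem_primesLE] at hp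
      rw [Nat.mem_primesLE]
      exact ⟨hp.1.2, hp.1.1.2⟩
  have h8 : 8 * M * (4 * Z) ≤ y := by
    have h3 : (M : ℝ) ≤ (4 : ℝ) ^ w₀ := by exact_mod_cast hM4
    have h2 : ((8 * M * (4 * Z) : ℕ) : ℝ) ≤ y := by
      push_cast
      refine le_trans ?_ hy
      calc 8 * (M : ℝ) * (4 * Z) ≤ 8 * 4 ^ w₀ * (4 * (l * x / (K / 2))) := by gcongr
        _ = l * x := by
            rw [hK]
            field_simp
            ring
    exact_mod_cast h2
  obtain ⟨b, hb⟩ := shared_count (Nat.primesLE x) hP r y hcov n hn0 hn1 D hDP M hM (4 * Z) h8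
  obtain ⟨E₁, hE₁⟩ : ∃ E₁, E₁ = ((Nat.primesLE x \ D).filter
    (fun p : ℕ => ¬ (p : ℤ) ∣ n - r p)).filter (fun p : ℕ => p ≤ z ∧ ¬ p ∣ b p) := ⟨_, rfl⟩
  obtain ⟨E₂, hE₂⟩ : ∃ E₂, E₂ = ((Nat.primesLE x \ D).filter
    (fun p : ℕ => ¬ (p : ℤ) ∣ n - r p)).filter (fun p : ℕ => z < p) := ⟨_, rfl⟩
  have hE₁' : ∀ p ∈ E₁, p.Prime ∧ w₀ < p ∧ p ≤ z ∧ ¬ p ∣ b p := by
    intro p hp
    rw [hE₁, mem_filter, mem_filter, mem_sdiff] at hp
    obtain ⟨⟨⟨h1, h2⟩, h3⟩, h4, h5⟩ := hp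
    refine ⟨hP p h1, ?_, h4, h5⟩
    by_contra hcon
    apply h2
    rw [hD, mem_filter]
    exact ⟨h1, by omega⟩
  have hE₂' : ∀ p ∈ E₂, p.Prime ∧ z < p ∧ p ≤ x := by
    intro p hp
    rw [hE₂, mem_filter, mem_filter, mem_sdiff] at hp
    exact ⟨hP p hp.1.1.1, hp.2, (Nat.mem_primesLE.1 hp.1.1.1).1⟩
  have hE₁3 : E₁ ⊆ primesIn 3 z := by
    intro p hp
    obtain ⟨h1, h2, h3, -⟩ := hE₁' p hp
    rw [primesIn, mem_filter, mem_Ioc]
    exact ⟨⟨by omega, h3⟩, h1⟩
  obtain ⟨Pi, hPi⟩ : ∃ Pi, Pi = ∏ p ∈ E₁, (1 - 1 / ((p : ℝ) - 1)) := ⟨_, rfl⟩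
  have hPi0 : 0 < Pi := by
    rw [hPi]
    apply Finset.prod_pos
    intro p hp
    have h1 := hE₁3 hp
    rw [primesIn, mem_filter, mem_Ioc] at h1
    have h2 : (4 : ℝ) ≤ p := by
      have : 4 ≤ p := by omega
      exact_mod_cast this
    rw [sub_pos, div_lt_one (by linarith)]
    linarith
  have hlo := hlow Z z w₀ E₁ b hZZ₀ le_rfl hz3 (hz162.trans hxZ) hE₁'
  rw [← hPi] at hlo
  have hcard : ((Ioc Z (16 * Z)).filter (fun q => q.Prime ∧ ∀ p ∈ E₁, ¬ q ≡ b p [MOD p])).card ≤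
      ∑ p ∈ E₂, ((Ioc Z (16 * Z)).filter (fun q => q.Prime ∧ q ≡ b p [MOD p] ∧
        ∀ l ∈ E₁, ¬ q ≡ b l [MOD l])).card := by
    refine le_trans (Finset.card_le_card ?_) Finset.card_biUnion_le
    intro q hq
    rw [mem_filter, mem_Ioc] at hq
    obtain ⟨⟨hq1, hq2⟩, hqp, hqa⟩ := hq
    have hqP : q ∉ Nat.primesLE x := by
      intro h
      have := (Nat.mem_primesLE.1 h).1
      omega
    obtain ⟨p, hp, hqb⟩ := hb q hqp (by omega) hqP
    have hpx : p ≤ x ∧ p.Prime := by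
      rw [mem_filter, mem_sdiff] at hp
      exact Nat.mem_primesLE.1 hp.1.1
    rw [mem_biUnion]
    refine ⟨p, ?_, ?_⟩
    · rw [hE₂, mem_filter]
      refine ⟨hp, ?_⟩
      by_contra hcon
      rw [not_lt] at hcon
      by_cases hdv : p ∣ b p
      · have h1 : p ∣ q := Nat.modEq_zero_iff_dvd.1 (hqb.trans (Nat.modEq_zero_iff_dvd.2 hdv))
        rcases (Nat.dvd_prime hqp).1 h1 with h2 | h2
        · exact hpx.2.one_lt.ne' h2
        · omega
      · apply hqa p _ hqb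
        rw [hE₁, mem_filter]
        exact ⟨hp, hcon, hdv⟩
    · rw [mem_filter, mem_Ioc]
      exact ⟨⟨hq1, hq2⟩, hqp, hqb, hqa⟩
  have hlogZ : Real.log Z ≤ 2 * L := by
    have h1 : (Z : ℝ) ≤ x * x := by
      refine hZle.trans ?_
      rw [div_le_iff₀ (by positivity)]
      calc l * x ≤ x * x := mul_le_mul_of_nonneg_right hlx hx0.le
        _ = x * x * 1 := (mul_one _).symm
        _ ≤ x * x * (K / 2) := by
            apply mul_le_mul_of_nonneg_left _ (by positivity)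
            linarith
    have h2 := Real.log_le_log hZ0 h1
    rw [Real.log_mul hx0.ne' hx0.ne', ← hL] at h2
    linarith
  have hlK : 0 ≤ Real.log K := Real.log_nonneg (by linarith)
  have hll : 2 * Real.log K ≤ Real.log l := by
    have h1 := Real.log_le_log (by positivity) hl1
    rw [Real.log_pow] at h1
    exact_mod_cast h1
  have hll0 : 0 < Real.log l := Real.log_pos (by linarith)
  have hG : ∀ p : ℕ, p.Prime → p ≤ x → Real.log l ≤ Real.log (l * x / p) ∧
      Real.log (l * x / p) / 2 ≤ Real.log ((Z : ℝ) / p) := by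
    intro p hp hpx
    have hp0 : (0 : ℝ) < p := by exact_mod_cast hp.pos
    have hpx' : (p : ℝ) ≤ x := by exact_mod_cast hpx
    have h1 : Real.log l ≤ Real.log (l * x / p) := by
      apply Real.log_le_log hl0
      rw [le_div_iff₀ hp0]
      exact mul_le_mul_of_nonneg_left hpx' hl0.le
    refine ⟨h1, ?_⟩
    have h2 : (l * x / p) / K ≤ (Z : ℝ) / p := by
      have h3 : (l * x / p) / K = (l * x / K) / p := by
        field_simp
      rw [h3]
      exact div_le_div_of_nonneg_right hZge hp0.le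
    have h4 := Real.log_le_log (by positivity) h2
    rw [Real.log_div (by positivity) hK0.ne'] at h4
    linarith
  obtain ⟨S, hS⟩ : ∃ S : ℝ, S = ∑ p ∈ E₂, 1 / (p * Real.log (l * x / p)) *
    (1 + Real.log z / Real.log (l * x / p)) := ⟨_, rfl⟩
  have hub : ((∑ p ∈ E₂, ((Ioc Z (16 * Z)).filter (fun q => q.Prime ∧ q ≡ b p [MOD p] ∧
        ∀ l ∈ E₁, ¬ q ≡ b l [MOD l])).card : ℕ) : ℝ) ≤ 4 * C₀ * Z * Pi * S := by
    rw [hS, Finset.mul_sum, Nat.cast_sum]
    apply Finset.sum_le_sum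
    intro p hp
    obtain ⟨h1, h2, h3⟩ := hE₂' p hp
    have h4 := hup p z Z (b p) E₁ b h1 hz3 h2 (hzB p h3) hE₁3 (fun l hl => (hE₁' l hl).2.2.2)
    rw [← hPi] at h4
    refine h4.trans ?_
    have hp0 : (0 : ℝ) < p := by exact_mod_cast h1.pos
    obtain ⟨h5, h6⟩ := hG p h1 h3
    obtain ⟨G, hGG⟩ : ∃ G, G = Real.log (l * x / p) := ⟨_, rfl⟩
    obtain ⟨H, hH⟩ : ∃ H, H = Real.log ((Z : ℝ) / p) := ⟨_, rfl⟩
    rw [← hGG] at h5 h6 ⊢
    rw [← hH] at h6 ⊢
    have hG0 : 0 < G := by linarith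
    have hH0 : 0 < H := by linarith
    have h7 : (Z : ℝ) / (p * H) ≤ Z / (p * (G / 2)) := by gcongr
    have h8 : 1 + Real.log z / H ≤ 2 * (1 + Real.log z / G) := by
      have h9 : Real.log z / H ≤ Real.log z / (G / 2) := by gcongr
      have h10 : Real.log z / (G / 2) = 2 * (Real.log z / G) := by
        field_simp
      linarith
    calc C₀ * (Z / (p * H) * (1 + Real.log z / H)) * Pi
        ≤ C₀ * (Z / (p * (G / 2)) * (2 * (1 + Real.log z / G))) * Pi := by
          have h11 : 0 ≤ 1 + Real.log z / H := by positivity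
          gcongr
      _ = 4 * C₀ * Z * Pi * (1 / (p * G) * (1 + Real.log z / G)) := by
          field_simp
          ring
  have hS0 : 0 ≤ S := by
    rw [hS]
    apply Finset.sum_nonneg
    intro p hp
    obtain ⟨h1, h2, h3⟩ := hE₂' p hp
    have h5 := (hG p h1 h3).1
    have hp0 : (0 : ℝ) < p := by exact_mod_cast h1.pos
    have hG0 : 0 < Real.log (l * x / p) := by linarith
    positivity
  have hN : (((Ioc Z (16 * Z)).filter (fun q => q.Prime ∧
      ∀ p ∈ E₁, ¬ q ≡ b p [MOD p])).card : ℝ) ≤ 4 * C₀ * Z * Pi * S := by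
    refine le_trans ?_ hub
    exact_mod_cast hcard
  have hfin : (Z : ℝ) * Pi * 1 ≤ Z * Pi * (3840000 * C₀ * (L * S)) := by
    have h1 : (Z : ℝ) * Pi ≤ 480000 * ((2 * L) * (4 * C₀ * Z * Pi * S)) := by
      refine hlo.trans ?_
      apply mul_le_mul_of_nonneg_left _ (by norm_num)
      exact mul_le_mul hlogZ hN (Nat.cast_nonneg _) (by positivity)
    have h2 : 480000 * ((2 * L) * (4 * C₀ * Z * Pi * S)) =
        Z * Pi * (3840000 * C₀ * (L * S)) := by ring
    rw [h2] at h1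
    linarith
  have hkey : 1 ≤ 3840000 * C₀ * (L * S) := le_of_mul_le_mul_left hfin (by positivity)
  have hkey2 : 1 / (3840000 * C₀) ≤ L * S := by
    rw [div_le_iff₀ (by positivity)]
    linarith
  refine hkey2.trans ?_
  rw [hS, Finset.mul_sum, ← hL]
  have hsub : E₂ ⊆ (Nat.primesLE x).filter (fun p : ℕ => z < p ∧ ¬ (p : ℤ) ∣ n - r p) := by
    intro p hp
    rw [hE₂, mem_filter, mem_filter, mem_sdiff] at hp
    rw [mem_filter]
    exact ⟨hp.1.1.1, hp.2, hp.1.2⟩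
  refine le_trans (le_of_eq ?_) (Finset.sum_le_sum_of_subset_of_nonneg hsub ?_)
  · apply Finset.sum_congr rfl
    intro p _
    ring
  · intro p hp _
    rw [mem_filter, Nat.mem_primesLE] at hp
    have h5 := (hG p hp.1.2 hp.1.1).1
    have hp0 : (0 : ℝ) < p := by exact_mod_cast hp.1.2.pos
    have hG0 : 0 < Real.log (l * x / p) := by linarith
    positivity

open Pool.Agent.Lib.MP_02fec8_nt.Mert in
/-- the primes in `(z, x]`, `z` at least the square root -/
lemma sum_large : ∃ K : ℝ, 0 ≤ K ∧ ∀ x z : ℕ, 1 ≤ z → z ≤ x →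
    Real.log x / 2 ≤ Real.log (z + 1) → 2 ≤ x →
    ∑ p ∈ Nat.primesLE x \ Nat.primesLE z, 1 / (p : ℝ) ≤
      2 / Real.log x * (Real.log x - Real.log z + K) := by
  obtain ⟨K, hK0, hK⟩ := mertens1
  refine ⟨2 * K, by positivity, fun x z hz hzx hlog hx2 => ?_⟩
  have hx2' : (2 : ℝ) ≤ x := by exact_mod_cast hx2
  have hL0 : 0 < Real.log x := Real.log_pos (by linarith)
  have hlow : ∀ p ∈ Nat.primesLE x \ Nat.primesLE z,
      1 / (p : ℝ) ≤ 2 / Real.log x * (Real.log p / p) := by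
    intro p hp
    rw [mem_sdiff, Nat.mem_primesLE, Nat.mem_primesLE] at hp
    have hp0 : (0 : ℝ) < p := by exact_mod_cast hp.1.2.pos
    have h1 : z + 1 ≤ p := by
      by_contra h3
      exact hp.2 ⟨by omega, hp.1.2⟩
    have h3 : Real.log x / 2 ≤ Real.log p := by
      refine hlog.trans (Real.log_le_log (by positivity) ?_)
      exact_mod_cast h1
    have h4 : 2 / Real.log x * (Real.log p / p) = (2 * Real.log p / Real.log x) * (1 / p) := by
      field_simp
    rw [h4]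
    have h5 : 1 ≤ 2 * Real.log p / Real.log x := by
      rw [le_div_iff₀ hL0]
      linarith
    have h6 : (0 : ℝ) ≤ 1 / p := by positivity
    nlinarith
  have h1 : M x - M z = ∑ p ∈ Nat.primesLE x \ Nat.primesLE z, Real.log p / p := by
    have hss : Nat.primesLE z ⊆ Nat.primesLE x := by
      intro p hp
      rw [Nat.mem_primesLE] at hp ⊢
      exact ⟨hp.1.trans hzx, hp.2⟩
    have h2 := Finset.sum_sdiff (f := fun p : ℕ => Real.log p / (p : ℝ)) hss
    unfold M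
    linarith
  refine (Finset.sum_le_sum hlow).trans ?_
  rw [← Finset.mul_sum, ← h1]
  apply mul_le_mul_of_nonneg_left _ (by positivity)
  have hMx := (abs_le.1 (hK x (by omega))).2
  have hMz := (abs_le.1 (hK z hz)).1
  linarith

/-- **no integer is shared by all primes between two powers of `l`** -/
theorem uniform : ∃ c C : ℝ, 0 < c ∧ 0 < C ∧ ∀ (x : ℕ) (l : ℝ) (r : ℕ → ℤ) (y : ℕ) (n : ℤ),
    C ≤ x → C ≤ l → l ≤ x → l * x ≤ y → Covers (Nat.primesLE x) r y → 0 ≤ n → n ≤ y + 1 →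
    c * (Real.log l / Real.log x) ≤ ∑ p ∈ (Nat.primesLE x).filter
      (fun p : ℕ => l ^ c < p ∧ ¬ (p : ℤ) ∣ n - r p), 1 / (p : ℝ) ∧
    ∃ p : ℕ, p.Prime ∧ l ^ c < p ∧ (p : ℝ) ≤ x / l ^ c ∧ ¬ (p : ℤ) ∣ n - r p := by
  obtain ⟨c₁, C₁, hc₁, hC₁, h⟩ := gen
  obtain ⟨K, hK0, hK⟩ := sum_large
  obtain ⟨c, hc⟩ : ∃ c : ℝ, c = min (1 / 162) (c₁ / 16) := ⟨_, rfl⟩
  have hc0 : 0 < c := by rw [hc]; positivity
  have e1 : c ≤ 1 / 162 := by rw [hc]; exact min_le_left _ _
  have e2 : c ≤ c₁ / 16 := by rw [hc]; exact min_le_right _ _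
  obtain ⟨T, hT⟩ : ∃ T : ℝ, T = 2 / c + 16 * (1 + K) / c₁ := ⟨_, rfl⟩
  refine ⟨c, C₁ + Real.exp T + 3, hc0, by positivity, ?_⟩
  intro x l r y n hx hl hlx hy hcov hn0 hn1
  have hexp := Real.exp_pos T
  have hx3 : (3 : ℝ) ≤ x := by linarith
  have hx0 : (0 : ℝ) < x := by linarith
  have hl3 : 3 ≤ l := by linarith
  have hl0 : 0 < l := by linarith
  obtain ⟨L, hL⟩ : ∃ L, L = Real.log x := ⟨_, rfl⟩
  obtain ⟨e, he⟩ : ∃ e, e = Real.log l := ⟨_, rfl⟩
  have hL0 : 0 < L := by rw [hL]; exact Real.log_pos (by linarith)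
  have he0 : 0 < e := by rw [he]; exact Real.log_pos (by linarith)
  have heL : e ≤ L := by rw [he, hL]; exact Real.log_le_log hl0 hlx
  have heT : T ≤ e := by
    rw [he, Real.le_log_iff_exp_le hl0]
    linarith
  have t1 : 0 < 2 / c := by positivity
  have t2 : 0 ≤ 16 * (1 + K) / c₁ := by positivity
  have hce : 2 ≤ c * e := by
    have h1 : 2 / c ≤ e := by linarith
    rw [div_le_iff₀ hc0] at h1
    linarith
  have hKe : 16 * (1 + K) ≤ c₁ * e := by
    have h1 : 16 * (1 + K) / c₁ ≤ e := by linarith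
    rw [div_le_iff₀ hc₁] at h1
    linarith
  have hlc : l ^ c = Real.exp (c * e) := by
    rw [Real.rpow_def_of_pos hl0, he, mul_comm]
  obtain ⟨z, hz⟩ : ∃ z : ℕ, z = ⌊l ^ c⌋₊ := ⟨_, rfl⟩
  have hzle : (z : ℝ) ≤ l ^ c := by
    rw [hz]
    exact Nat.floor_le (by positivity)
  have hz3 : 3 ≤ z := by
    rw [hz]
    apply Nat.le_floor
    rw [hlc]
    push_cast
    have h1 := Real.add_one_le_exp (c * e)
    linarith
  have hz3' : (3 : ℝ) ≤ z := by exact_mod_cast hz3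
  have hlz : Real.log z ≤ e := by
    have h1 := Real.log_le_log (by linarith) hzle
    rw [Real.log_rpow hl0, ← he] at h1
    nlinarith
  have hlz0 : 0 < Real.log z := Real.log_pos (by linarith)
  have hz162 : z ^ 162 ≤ x := by
    have h1 : ((z ^ 162 : ℕ) : ℝ) ≤ x := by
      push_cast
      calc (z : ℝ) ^ 162 ≤ (l ^ c) ^ 162 := pow_le_pow_left₀ (Nat.cast_nonneg _) hzle _
        _ = l ^ (c * (162 : ℕ)) := by
            rw [← Real.rpow_natCast (l ^ c) 162, ← Real.rpow_mul hl0.le]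
        _ ≤ l ^ (1 : ℝ) := by
            apply Real.rpow_le_rpow_of_exponent_le (by linarith)
            push_cast
            linarith
        _ = l := Real.rpow_one l
        _ ≤ x := hlx
    exact_mod_cast h1
  have hmain := h x z l r y n (by linarith) (by linarith) hlx hz3 hz162 hy hcov hn0 hn1
  obtain ⟨F, hF⟩ : ∃ F, F = (Nat.primesLE x).filter
      (fun p : ℕ => l ^ c < p ∧ ¬ (p : ℤ) ∣ n - r p) := ⟨_, rfl⟩
  have hFe : (Nat.primesLE x).filter (fun p : ℕ => z < p ∧ ¬ (p : ℤ) ∣ n - r p) = F := by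
    rw [hF]
    apply Finset.filter_congr
    intro p _
    rw [hz, Nat.floor_lt (by positivity)]
  rw [hFe, ← hL] at hmain
  have hFp : ∀ p ∈ F, p.Prime ∧ p ≤ x := by
    intro p hp
    rw [hF, mem_filter, Nat.mem_primesLE] at hp
    exact ⟨hp.1.2, hp.1.1⟩
  have hsum : c₁ / 2 * (e / L) ≤ ∑ p ∈ F, 1 / (p : ℝ) := by
    have h1 : ∑ p ∈ F, L / (p * Real.log (l * x / p)) *
        (1 + Real.log z / Real.log (l * x / p)) ≤ 2 * L / e * ∑ p ∈ F, 1 / (p : ℝ) := by
      rw [Finset.mul_sum]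
      apply Finset.sum_le_sum
      intro p hp
      obtain ⟨h2, h3⟩ := hFp p hp
      have hp0 : (0 : ℝ) < p := by exact_mod_cast h2.pos
      have hpx' : (p : ℝ) ≤ x := by exact_mod_cast h3
      have h4 : e ≤ Real.log (l * x / p) := by
        rw [he]
        apply Real.log_le_log hl0
        rw [le_div_iff₀ hp0]
        exact mul_le_mul_of_nonneg_left hpx' hl0.le
      have h5 : Real.log z / Real.log (l * x / p) ≤ 1 := by
        rw [div_le_one (by linarith)]
        linarith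
      have h6 : L / (p * Real.log (l * x / p)) ≤ L / (p * e) := by gcongr
      have h7 : 0 ≤ L / (p * e) := by positivity
      have h8 : 0 ≤ Real.log z / Real.log (l * x / p) := by
        apply div_nonneg hlz0.le
        linarith
      calc L / (p * Real.log (l * x / p)) * (1 + Real.log z / Real.log (l * x / p))
          ≤ L / (p * e) * 2 := by
            apply mul_le_mul h6 _ (by linarith) h7
            linarith
        _ = 2 * L / e * (1 / p) := by
            field_simp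
    have h2 := hmain.trans h1
    have h3 : 2 * L / e * ∑ p ∈ F, 1 / (p : ℝ) = (∑ p ∈ F, 1 / (p : ℝ)) * (2 * L) / e := by ring
    rw [h3, le_div_iff₀ he0] at h2
    have h4 : c₁ / 2 * (e / L) = c₁ * e / (2 * L) := by
      field_simp
    rw [h4, div_le_iff₀ (by positivity)]
    exact h2
  rw [← he, ← hL, ← hF]
  constructor
  · refine le_trans ?_ hsum
    apply mul_le_mul_of_nonneg_right _ (by positivity)
    linarith
  have hcl0 : 0 < l ^ c := by positivity
  obtain ⟨w, hw⟩ : ∃ w : ℝ, w = x / l ^ c := ⟨_, rfl⟩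
  have hw0 : 0 < w := by rw [hw]; positivity
  have hlw : Real.log w = L - c * e := by
    rw [hw, Real.log_div hx0.ne' hcl0.ne', Real.log_rpow hl0, hL, he]
  have hlw2 : L / 2 ≤ Real.log w := by
    rw [hlw]
    nlinarith
  have hw1 : 1 ≤ w := by
    by_contra hcon
    push Not at hcon
    have := Real.log_neg hw0 hcon
    linarith
  have hwx : w ≤ x := by
    rw [hw]
    apply div_le_self hx0.le
    exact Real.one_le_rpow (by linarith) hc0.le
  rw [← hw]
  by_contra hcon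
  push Not at hcon
  obtain ⟨v, hv⟩ : ∃ v : ℕ, v = ⌊w⌋₊ := ⟨_, rfl⟩
  have hvle : (v : ℝ) ≤ w := by
    rw [hv]
    exact Nat.floor_le (by linarith)
  have hv1 : 1 ≤ v := by
    rw [hv]
    exact Nat.le_floor (by exact_mod_cast hw1)
  have hvlt : w < v + 1 := by
    rw [hv]
    exact Nat.lt_floor_add_one w
  have hv1' : (1 : ℝ) ≤ v := by exact_mod_cast hv1
  have hvx : v ≤ x := by
    have h1 : (v : ℝ) ≤ x := hvle.trans hwx
    exact_mod_cast h1
  have hsub : F ⊆ Nat.primesLE x \ Nat.primesLE v := by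
    intro p hp
    rw [hF, mem_filter] at hp
    rw [mem_sdiff]
    refine ⟨hp.1, fun hpz => ?_⟩
    have hpp := (Nat.mem_primesLE.1 hp.1).2
    have h1 : (p : ℝ) ≤ w := by
      have h2 : (p : ℝ) ≤ v := by exact_mod_cast (Nat.mem_primesLE.1 hpz).1
      linarith
    exact hp.2.2 (hcon p hpp hp.2.1 h1)
  have hx2 : 2 ≤ x := by
    have : (2 : ℝ) ≤ x := by linarith
    exact_mod_cast this
  have hS := hK x v hv1 hvx (by
    rw [← hL]
    refine hlw2.trans (Real.log_le_log hw0 ?_)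
    exact hvlt.le) hx2
  rw [← hL] at hS
  have hlv : L - c * e - 1 ≤ Real.log v := by
    have h0 : w / 2 ≤ v := by linarith
    have h1 := Real.log_le_log (by positivity) h0
    rw [Real.log_div (by positivity) (by norm_num), hlw] at h1
    have := Real.log_two_lt_d9
    linarith
  have h1 : ∑ p ∈ F, 1 / (p : ℝ) ≤ ∑ p ∈ Nat.primesLE x \ Nat.primesLE v, 1 / (p : ℝ) :=
    Finset.sum_le_sum_of_subset_of_nonneg hsub fun p _ _ => by positivity
  have h2 : c₁ / 2 * (e / L) ≤ 2 / L * (c * e + 1 + K) := by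
    refine hsum.trans (h1.trans (hS.trans ?_))
    apply mul_le_mul_of_nonneg_left _ (by positivity)
    linarith
  have h3 := mul_le_mul_of_nonneg_right h2 hL0.le
  have h4 : c₁ / 2 * (e / L) * L = c₁ / 2 * e := by field_simp
  have h5 : 2 / L * (c * e + 1 + K) * L = 2 * (c * e + 1 + K) := by field_simp
  rw [h4, h5] at h3
  have h6 : c * e ≤ c₁ / 16 * e := mul_le_mul_of_nonneg_right e2 he0.le
  have h7 : 0 < c₁ * e := by positivity
  linarith

/-- **the limit of the method of Erdős and Rankin** -/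
theorem er_limit : ∃ C : ℝ, 0 < C ∧ ∀ (x z : ℕ) (r : ℕ → ℤ) (y : ℕ) (n : ℤ),
    C ≤ x → 3 ≤ z → z ^ 162 ≤ x → Covers (Nat.primesLE x) r y → 0 ≤ n → n ≤ y + 1 →
    (∀ p : ℕ, p.Prime → z < p → 2 * p ≤ x → (p : ℤ) ∣ n - r p) →
    (y : ℝ) ≤ x * Real.exp (C * Real.sqrt (Real.log z)) := by
  obtain ⟨c₁, C₁, hc₁, hC₁, h⟩ := gen
  obtain ⟨K, hK0, hK⟩ := sum_large
  obtain ⟨C, hC⟩ : ∃ C : ℝ, C = 2 * (4 + 2 * K) / c₁ + C₁ + 1 := ⟨_, rfl⟩
  have t1 : 0 < 2 * (4 + 2 * K) / c₁ := by positivity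
  have hC1 : 1 ≤ C := by linarith
  have hCc : 2 * (4 + 2 * K) < c₁ * C := by
    have h1 : 2 * (4 + 2 * K) / c₁ < C := by linarith
    rw [div_lt_iff₀ hc₁] at h1
    linarith
  refine ⟨C + Real.exp C + 4, by positivity, ?_⟩
  intro x z r y n hx hz3 hz162 hcov hn0 hn1 hsh
  have hexp := Real.exp_pos C
  obtain ⟨C', hC'⟩ : ∃ C', C' = C + Real.exp C + 4 := ⟨_, rfl⟩
  rw [← hC'] at hx ⊢
  have hCC' : C ≤ C' := by linarith
  have hx4 : (4 : ℝ) ≤ x := by linarith
  have hx0 : (0 : ℝ) < x := by linarith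
  have hz3' : (3 : ℝ) ≤ z := by exact_mod_cast hz3
  obtain ⟨L, hL⟩ : ∃ L, L = Real.log x := ⟨_, rfl⟩
  have hLC : C ≤ L := by
    rw [hL, Real.le_log_iff_exp_le hx0]
    linarith
  have hL0 : 0 < L := by linarith
  obtain ⟨t, ht⟩ : ∃ t, t = Real.sqrt (Real.log z) := ⟨_, rfl⟩
  have hlz1 : 1 ≤ Real.log z := by
    rw [Real.le_log_iff_exp_le (by linarith)]
    have := Real.exp_one_lt_d9
    linarith
  have htt : t * t = Real.log z := by rw [ht]; exact Real.mul_self_sqrt (by linarith)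
  have ht1 : 1 ≤ t := by
    rw [ht]
    exact Real.one_le_sqrt.2 hlz1
  have hlzL : Real.log z ≤ L := by
    rw [hL]
    apply Real.log_le_log (by linarith)
    have h1 : z ≤ z ^ 162 := Nat.le_self_pow (by norm_num) z
    exact_mod_cast h1.trans hz162
  rw [← ht]
  by_contra hcon
  push Not at hcon
  obtain ⟨l, hl⟩ : ∃ l : ℝ, l = min ((y : ℝ) / x) x := ⟨_, rfl⟩
  have hyx : Real.exp (C' * t) < (y : ℝ) / x := by
    rw [lt_div_iff₀ hx0]
    linarith
  have hlx : l ≤ x := by rw [hl]; exact min_le_right _ _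
  have hly : l * x ≤ y := by
    have h1 : l ≤ (y : ℝ) / x := by rw [hl]; exact min_le_left _ _
    rwa [le_div_iff₀ hx0] at h1
  have hCt : C * t ≤ C' * t := mul_le_mul_of_nonneg_right hCC' (by linarith)
  have hC1t : C ≤ C * t := by nlinarith
  -- `log l` is large
  have hcase : C ≤ Real.log l ∧ C * (t * t) ≤ Real.log l * Real.log l ∧ 0 < l := by
    rcases min_choice ((y : ℝ) / x) (x : ℝ) with h1 | h1
    · rw [h1] at hl
      have h2 : Real.exp (C' * t) ≤ l := by rw [hl]; exact hyx.le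
      have hl0 : 0 < l := lt_of_lt_of_le (Real.exp_pos _) h2
      have h3 : C' * t ≤ Real.log l := (Real.le_log_iff_exp_le hl0).2 h2
      have h4 : C * t ≤ Real.log l := hCt.trans h3
      refine ⟨by linarith, ?_, hl0⟩
      have h5 : (C * t) * (C * t) ≤ Real.log l * Real.log l :=
        mul_le_mul h4 h4 (by positivity) (by linarith)
      have h6 : C * (t * t) ≤ (C * t) * (C * t) := by
        have h7 : 0 ≤ t * t := by positivity
        calc C * (t * t) = 1 * (C * (t * t)) := (one_mul _).symm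
          _ ≤ C * (C * (t * t)) := mul_le_mul_of_nonneg_right hC1 (by positivity)
          _ = (C * t) * (C * t) := by ring
      linarith
    · rw [h1] at hl
      rw [hl, ← hL, htt]
      refine ⟨hLC, ?_, hx0⟩
      exact mul_le_mul hLC hlzL (by linarith) hL0.le
  obtain ⟨hl1, hl2, hl0⟩ := hcase
  have hlC1 : C₁ ≤ l := by
    have h1 : Real.exp C ≤ l := (Real.le_log_iff_exp_le hl0).1 hl1
    have h2 := Real.add_one_le_exp C
    linarith
  have hmain := h x z l r y n (by linarith) hlC1 hlx hz3 hz162 hly hcov hn0 hn1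
  obtain ⟨e, he⟩ : ∃ e, e = Real.log l := ⟨_, rfl⟩
  rw [← he] at hl1 hl2
  have he0 : 0 < e := by linarith
  obtain ⟨F, hF⟩ : ∃ F, F = (Nat.primesLE x).filter
      (fun p : ℕ => z < p ∧ ¬ (p : ℤ) ∣ n - r p) := ⟨_, rfl⟩
  rw [← hF, ← hL] at hmain
  have hx4' : 4 ≤ x := by exact_mod_cast hx4
  have hsub : F ⊆ Nat.primesLE x \ Nat.primesLE (x / 2) := by
    intro p hp
    rw [hF, mem_filter] at hp
    rw [mem_sdiff]
    refine ⟨hp.1, fun hpz => ?_⟩
    have h1 := (Nat.mem_primesLE.1 hpz).1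
    exact hp.2.2 (hsh p (Nat.mem_primesLE.1 hp.1).2 hp.2.1 (by omega))
  have hv4 : (x : ℝ) ≤ 4 * ((x / 2 : ℕ) : ℝ) := by
    have : x ≤ 4 * (x / 2) := by omega
    exact_mod_cast this
  have hlog4 : Real.log 4 ≤ 2 := by
    rw [show (4 : ℝ) = 2 ^ 2 by norm_num, Real.log_pow]
    have := Real.log_two_lt_d9
    push_cast
    linarith
  have hv0 : (0 : ℝ) < ((x / 2 : ℕ) : ℝ) := by linarith
  have hlogv : L - 2 ≤ Real.log ((x / 2 : ℕ) : ℝ) := by
    have h1 := Real.log_le_log hx0 hv4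
    rw [Real.log_mul (by norm_num) hv0.ne', ← hL] at h1
    linarith
  have hS := hK x (x / 2) (by omega) (by omega) (by
    rw [← hL]
    have h1 : (x : ℝ) ≤ (((x / 2 : ℕ) : ℝ) + 1) ^ 2 := by
      have h2 : x ≤ (x / 2 + 1) ^ 2 := by
        have h3 : x ≤ 2 * (x / 2) + 1 := by omega
        nlinarith
      exact_mod_cast h2
    have h2 := Real.log_le_log hx0 h1
    rw [Real.log_pow, ← hL] at h2
    push_cast at h2
    linarith) (by omega)
  rw [← hL] at hS
  have hsum : ∑ p ∈ F, 1 / (p : ℝ) ≤ (4 + 2 * K) / L := by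
    refine (Finset.sum_le_sum_of_subset_of_nonneg hsub fun p _ _ => by positivity).trans
      (hS.trans ?_)
    have h1 : (4 + 2 * K) / L = 2 / L * (2 + K) := by ring
    rw [h1]
    apply mul_le_mul_of_nonneg_left _ (by positivity)
    linarith
  have hle : ∑ p ∈ F, L / (p * Real.log (l * x / p)) *
      (1 + Real.log z / Real.log (l * x / p)) ≤
      L / e * (1 + Real.log z / e) * ∑ p ∈ F, 1 / (p : ℝ) := by
    rw [Finset.mul_sum]
    apply Finset.sum_le_sum
    intro p hp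
    rw [hF, mem_filter, Nat.mem_primesLE] at hp
    have hp0 : (0 : ℝ) < p := by exact_mod_cast hp.1.2.pos
    have hpx' : (p : ℝ) ≤ x := by exact_mod_cast hp.1.1
    have h4 : e ≤ Real.log (l * x / p) := by
      rw [he]
      apply Real.log_le_log hl0
      rw [le_div_iff₀ hp0]
      exact mul_le_mul_of_nonneg_left hpx' hl0.le
    have h5 : Real.log z / Real.log (l * x / p) ≤ Real.log z / e := by gcongr
    have h6 : L / (p * Real.log (l * x / p)) ≤ L / (p * e) := by gcongr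
    have h8 : 0 ≤ Real.log z / Real.log (l * x / p) := by
      apply div_nonneg (by linarith)
      linarith
    calc L / (p * Real.log (l * x / p)) * (1 + Real.log z / Real.log (l * x / p))
        ≤ L / (p * e) * (1 + Real.log z / e) := by
          apply mul_le_mul h6 _ (by linarith) (by positivity)
          linarith
      _ = L / e * (1 + Real.log z / e) * (1 / p) := by
          field_simp
  have h1 : c₁ ≤ L / e * (1 + Real.log z / e) * ((4 + 2 * K) / L) := by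
    refine hmain.trans (hle.trans ?_)
    apply mul_le_mul_of_nonneg_left hsum
    have : 0 ≤ Real.log z / e := by positivity
    positivity
  have h2 : L / e * (1 + Real.log z / e) * ((4 + 2 * K) / L) =
      (4 + 2 * K) * (e + t * t) / (e * e) := by
    rw [htt]
    field_simp
  rw [h2, le_div_iff₀ (by positivity)] at h1
  have h3 : C * e ≤ e * e := mul_le_mul_of_nonneg_right hl1 he0.le
  have h4 : 0 < e + t * t := by positivity
  have h5 : C * (e + t * t) ≤ 2 * (e * e) := by linarith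
  have h6 : c₁ * (C * (e + t * t)) ≤ c₁ * (2 * (e * e)) := mul_le_mul_of_nonneg_left h5 hc₁.le
  have h7 : 2 * (4 + 2 * K) * (e + t * t) < c₁ * C * (e + t * t) :=
    mul_lt_mul_of_pos_right hCc h4
  linarith

end Pool.Agent.Lib.MP_2a99c0_nt.H73
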