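import Pool.Agent.Lib.MP_2a99c0_nt.H73.Bt2

/-!
# Primes in one class avoiding classes modulo smaller primes: upper bound
-/

set_option autoImplicit false

namespace Pool.Agent.Lib.MP_2a99c0_nt.H73

open Finset Pool.Agent.Lib.MP_ba0fa5_ag Pool.Agent.Lib.MP_ba0fa5_ag.AA
open Pool.Agent.Lib.MP_ba0fa5_ag.AA.H54
open scoped Classical

/-- the first element of the class -/
def sft (a p Z : ℕ) : ℕ := (a + (p - (Z + 1) % p)) % p

/-- the excluded classes -/
noncomputable def Om (a p Z : ℕ) (E : Finset ℕ) (b : ℕ → ℕ) (l : ℕ) : Finset ℕ :=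
  (range l).filter (fun r => l ∣ Z + 1 + sft a p Z + p * r ∨
    (l ∈ E ∧ Z + 1 + sft a p Z + p * r ≡ b l [MOD l]))

lemma sft_form (a p Z q : ℕ) (hp : 1 ≤ p) (h1 : Z < q) (h3 : q ≡ a [MOD p]) :
    q = Z + 1 + sft a p Z + p * ((q - (Z + 1)) / p) := by
  obtain ⟨s, hs⟩ : ∃ s, s = sft a p Z := ⟨_, rfl⟩
  rw [← hs]
  unfold sft at hs
  have h4 : (q - (Z + 1)) % p = s := by
    have hsq : s < p := by rw [hs]; exact Nat.mod_lt _ hp
    have h5 : (Z + 1) + (a + (p - (Z + 1) % p)) ≡ a [MOD p] := by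
      have h6 : (Z + 1) % p ≤ p := (Nat.mod_lt _ hp).le
      have h7 : (Z + 1) + (a + (p - (Z + 1) % p)) = a + p * (1 + (Z + 1) / p) := by
        have h8 := Nat.div_add_mod (Z + 1) p
        have h9 : p * (1 + (Z + 1) / p) = p + p * ((Z + 1) / p) := by ring
        rw [h9]
        omega
      rw [h7]
      exact (Nat.modEq_iff_dvd' (by omega)).2 ⟨1 + (Z + 1) / p, by
        rw [Nat.add_sub_cancel_left]⟩ |>.symm
    have h6 : (Z + 1) + (q - (Z + 1)) ≡ (Z + 1) + s [MOD p] := by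
      rw [Nat.add_sub_cancel' (by omega)]
      refine h3.trans (h5.symm.trans ?_)
      rw [hs]
      exact Nat.ModEq.add_left _ (Nat.mod_modEq _ _).symm
    have h7 := Nat.ModEq.add_left_cancel' _ h6
    rw [Nat.ModEq, Nat.mod_eq_of_lt hsq] at h7
    exact h7
  have h5 := Nat.div_add_mod (q - (Z + 1)) p
  rw [h4] at h5
  omega

lemma count2 (a p Z z : ℕ) (hp : 1 ≤ p) (hz : z ≤ Z) (E : Finset ℕ) (b : ℕ → ℕ)
    (hE : ∀ l ∈ E, l.Prime) :
    ((Ioc Z (16 * Z)).filter (fun q => q.Prime ∧ q ≡ a [MOD p] ∧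
      ∀ l ∈ E, ¬ q ≡ b l [MOD l])).card ≤
      ((range (15 * Z / p + 1)).filter (fun w => ∀ l ∈ (primesIn 3 z).filter (fun l => ¬ l ∣ p),
        w % l ∉ Om a p Z E b l)).card := by
  apply Finset.card_le_card_of_injOn (fun q => (q - (Z + 1)) / p)
  · intro q hq
    rw [Finset.mem_coe, mem_filter, mem_Ioc] at hq
    obtain ⟨⟨h1, h2⟩, hqp, h3, hav⟩ := hq
    have hq' := sft_form a p Z q hp h1 h3
    rw [Finset.mem_coe, mem_filter, mem_range]
    refine ⟨?_, ?_⟩
    · exact Nat.lt_succ_of_le (Nat.div_le_div_right (by omega))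
    · intro l hl hmem
      rw [mem_filter, primesIn, mem_filter, mem_Ioc] at hl
      unfold Om at hmem
      rw [mem_filter] at hmem
      obtain ⟨⟨⟨h3', hpz⟩, hpp⟩, -⟩ := hl
      have hcong : q ≡ Z + 1 + sft a p Z + p * (((q - (Z + 1)) / p) % l) [MOD l] := by
        conv_lhs => rw [hq']
        exact Nat.ModEq.add_left _ (Nat.ModEq.mul_left _ (Nat.mod_modEq _ _).symm)
      rcases hmem.2 with h | ⟨hlE, h⟩
      · have h4 : l ∣ q := Nat.modEq_zero_iff_dvd.1 (hcong.trans (Nat.modEq_zero_iff_dvd.2 h))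
        rcases (Nat.dvd_prime hqp).1 h4 with h5 | h5
        · omega
        · omega
      · exact hav l hlE (hcong.trans h)
  · intro l hl l' hl' h
    rw [Finset.mem_coe, mem_filter, mem_Ioc] at hl hl'
    have e1 := sft_form a p Z l hp hl.1.1 hl.2.2.1
    have e2 := sft_form a p Z l' hp hl'.1.1 hl'.2.2.1
    simp only at h
    rw [e1, e2, h]

lemma Om_card_one (a p Z : ℕ) (E : Finset ℕ) (b : ℕ → ℕ) (l : ℕ) (hl : l.Prime) (hlp : ¬ l ∣ p)
    (hlE : l ∉ E) : (Om a p Z E b l).card = 1 := by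
  have h1 : Om a p Z E b l = (range l).filter (fun r => l ∣ (Z + 1 + sft a p Z) + p * r) := by
    unfold Om
    apply Finset.filter_congr
    intro r _
    constructor
    · rintro (h | h)
      · exact h
      · exact absurd h.1 hlE
    · intro h
      exact Or.inl h
  rw [h1]
  exact card_class l p _ hl hlp

lemma Om_card_two (a p Z : ℕ) (E : Finset ℕ) (b : ℕ → ℕ) (l : ℕ) (hl : l.Prime) (hlp : ¬ l ∣ p)
    (hlE : l ∈ E) (hb : ¬ l ∣ b l) : (Om a p Z E b l).card = 2 := by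
  obtain ⟨t, ht⟩ : ∃ t, t = Z + 1 + sft a p Z := ⟨_, rfl⟩
  have key : ∀ r : ℕ, (t + p * r ≡ b l [MOD l]) ↔ l ∣ (t + (l - b l % l)) + p * r := by
    intro r
    have hlt := Nat.mod_lt (b l) hl.pos
    have h1 : (t + (l - b l % l)) + p * r + b l % l = (t + p * r) + l := by omega
    constructor
    · intro h
      have h2 : (t + (l - b l % l)) + p * r + b l % l ≡ 0 + b l % l [MOD l] := by
        rw [h1, zero_add]
        have h3 : (t + p * r) + l ≡ t + p * r [MOD l] := by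
          simp [Nat.ModEq]
        exact h3.trans (h.trans (Nat.mod_modEq _ _).symm)
      exact Nat.modEq_zero_iff_dvd.1 (Nat.ModEq.add_right_cancel' _ h2)
    · intro h
      have h2 : (t + (l - b l % l)) + p * r + b l % l ≡ 0 + b l % l [MOD l] :=
        Nat.ModEq.add_right _ (Nat.modEq_zero_iff_dvd.2 h)
      rw [h1, zero_add] at h2
      have h3 : (t + p * r) + l ≡ t + p * r [MOD l] := by
        simp [Nat.ModEq]
      exact h3.symm.trans (h2.trans (Nat.mod_modEq _ _))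
  have h1 : Om a p Z E b l = (range l).filter (fun r => l ∣ t + p * r) ∪
      (range l).filter (fun r => l ∣ (t + (l - b l % l)) + p * r) := by
    unfold Om
    rw [← ht]
    ext r
    rw [mem_union, mem_filter, mem_filter, mem_filter]
    constructor
    · rintro ⟨h1, h | h⟩
      · exact Or.inl ⟨h1, h⟩
      · exact Or.inr ⟨h1, (key r).1 h.2⟩
    · rintro (⟨h1, h⟩ | ⟨h1, h⟩)
      · exact ⟨h1, Or.inl h⟩
      · exact ⟨h1, Or.inr ⟨hlE, (key r).2 h⟩⟩
  have hdis : Disjoint ((range l).filter (fun r => l ∣ t + p * r))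
      ((range l).filter (fun r => l ∣ (t + (l - b l % l)) + p * r)) := by
    rw [Finset.disjoint_left]
    intro r hr hr'
    rw [mem_filter] at hr hr'
    have h2 := (key r).2 hr'.2
    exact hb (Nat.modEq_zero_iff_dvd.1 (h2.symm.trans (Nat.modEq_zero_iff_dvd.2 hr.2)))
  rw [h1, Finset.card_union_of_disjoint hdis, card_class l p _ hl hlp, card_class l p _ hl hlp]

lemma prod_Icc_sq (N : ℕ) (hN : 3 ≤ N) :
    ∏ l ∈ Icc 4 N, (1 - 1 / ((l : ℝ) - 1) ^ 2) = 2 / 3 * (N / ((N : ℝ) - 1)) := by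
  induction N, hN using Nat.le_induction with
  | base => norm_num
  | succ N hN ih =>
    rw [Finset.prod_Icc_succ_top (by omega), ih]
    have h1 : (3 : ℝ) ≤ N := by exact_mod_cast hN
    have h2 : (N : ℝ) - 1 ≠ 0 := by
      intro h
      linarith
    have h3 : (N : ℝ) ≠ 0 := by
      intro h
      linarith
    push_cast
    have h4 : (N : ℝ) + 1 - 1 = N := by ring
    rw [h4]
    field_simp
    ring

lemma prod_sq_ge (S : Finset ℕ) (N : ℕ) (hN : 3 ≤ N) (hS : S ⊆ Icc 4 N) :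
    2 / 3 ≤ ∏ l ∈ S, (1 - 1 / ((l : ℝ) - 1) ^ 2) := by
  have hf : ∀ l ∈ Icc 4 N, 0 ≤ 1 - 1 / ((l : ℝ) - 1) ^ 2 ∧ 1 - 1 / ((l : ℝ) - 1) ^ 2 ≤ 1 := by
    intro l hl
    rw [mem_Icc] at hl
    have h1 : (4 : ℝ) ≤ l := by exact_mod_cast hl.1
    have h2 : (1 : ℝ) ≤ ((l : ℝ) - 1) ^ 2 := by nlinarith
    constructor
    · rw [sub_nonneg, div_le_one (by linarith)]
      exact h2
    · have : 0 ≤ 1 / ((l : ℝ) - 1) ^ 2 := by positivity
      linarith
  have h1 := prod_Icc_sq N hN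
  have hN3 : (3 : ℝ) ≤ N := by exact_mod_cast hN
  have h2 : (2 / 3 : ℝ) ≤ 2 / 3 * (N / ((N : ℝ) - 1)) := by
    have h3 : 1 ≤ (N : ℝ) / ((N : ℝ) - 1) := by
      rw [one_le_div (by linarith)]
      linarith
    linarith
  rw [← h1] at h2
  refine h2.trans ?_
  rw [← Finset.prod_sdiff hS]
  have h3 : ∏ l ∈ Icc 4 N \ S, (1 - 1 / ((l : ℝ) - 1) ^ 2) ≤ 1 :=
    Finset.prod_le_one (fun l hl => (hf l (mem_sdiff.1 hl).1).1)
      (fun l hl => (hf l (mem_sdiff.1 hl).1).2)
  have h4 : 0 ≤ ∏ l ∈ S, (1 - 1 / ((l : ℝ) - 1) ^ 2) :=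
    Finset.prod_nonneg fun l hl => (hf l (hS hl)).1
  nlinarith

lemma prod_ratio (y z : ℕ) (hy : 3 ≤ y) (hyz : y ≤ z) (S : Finset ℕ) (hS : S ⊆ primesIn y z) :
    2 / 3 * VV y z ≤ ∏ l ∈ S, (1 - 1 / ((l : ℝ) - 1)) := by
  have hmem : ∀ l ∈ primesIn y z, (4 : ℝ) ≤ l ∧ 4 ≤ l ∧ l ≤ z := by
    intro l hl
    rw [primesIn, mem_filter, mem_Ioc] at hl
    have : 4 ≤ l := by omega
    exact ⟨by exact_mod_cast this, this, hl.1.2⟩
  have h1 : ∏ l ∈ S, (1 - 1 / ((l : ℝ) - 1)) =
      (∏ l ∈ S, (1 - 1 / ((l : ℝ) - 1) ^ 2)) * ∏ l ∈ S, (1 - 1 / (l : ℝ)) := by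
    rw [← Finset.prod_mul_distrib]
    apply Finset.prod_congr rfl
    intro l hl
    have h2 := (hmem l (hS hl)).1
    have h3 : (l : ℝ) - 1 ≠ 0 := by
      intro h
      linarith
    have h4 : (l : ℝ) ≠ 0 := by
      intro h
      linarith
    field_simp
    ring
  have h2 := prod_sq_ge S z (by omega) (fun l hl => by
    rw [mem_Icc]
    exact (hmem l (hS hl)).2)
  have hf : ∀ l ∈ primesIn y z, 0 ≤ 1 - 1 / (l : ℝ) ∧ 1 - 1 / (l : ℝ) ≤ 1 := by
    intro l hl
    have h3 := (hmem l hl).1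
    constructor
    · rw [sub_nonneg, div_le_one (by linarith)]
      linarith
    · have : 0 ≤ 1 / (l : ℝ) := by positivity
      linarith
  have h3 : VV y z ≤ ∏ l ∈ S, (1 - 1 / (l : ℝ)) := by
    rw [VV, ← Finset.prod_sdiff hS]
    have h4 : ∏ l ∈ primesIn y z \ S, (1 - 1 / (l : ℝ)) ≤ 1 :=
      Finset.prod_le_one (fun l hl => (hf l (mem_sdiff.1 hl).1).1)
        (fun l hl => (hf l (mem_sdiff.1 hl).1).2)
    have h5 : 0 ≤ ∏ l ∈ S, (1 - 1 / (l : ℝ)) :=
      Finset.prod_nonneg fun l hl => (hf l (hS hl)).1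
    nlinarith
  have h6 : 0 ≤ VV y z := by
    rw [VV]
    exact Finset.prod_nonneg fun l hl => (hf l hl).1
  rw [h1]
  exact mul_le_mul h2 h3 h6 (by linarith)

/-- **the upper bound** -/
theorem upper : ∃ B : ℕ, ∃ C : ℝ, 0 < C ∧ ∀ (p z Z a : ℕ) (E : Finset ℕ) (b : ℕ → ℕ),
    p.Prime → 3 ≤ z → z < p → 3 ^ B * p ≤ Z → E ⊆ primesIn 3 z → (∀ l ∈ E, ¬ l ∣ b l) →
    (((Ioc Z (16 * Z)).filter (fun q => q.Prime ∧ q ≡ a [MOD p] ∧
      ∀ l ∈ E, ¬ q ≡ b l [MOD l])).card : ℝ) ≤
      C * (Z / (p * Real.log (Z / p)) * (1 + Real.log z / Real.log (Z / p))) *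
        ∏ l ∈ E, (1 - 1 / ((l : ℝ) - 1)) := by
  obtain ⟨B₀, c, C, hc, hC, hF⟩ := b_flu
  obtain ⟨c', C', hc', hC', hV⟩ := b_vbnd
  obtain ⟨B, hB⟩ : ∃ B, B = B₀ + 3 := ⟨_, rfl⟩
  have hB1 : (1 : ℝ) ≤ B := by
    rw [hB]
    push_cast
    linarith [(Nat.cast_nonneg B₀ : (0 : ℝ) ≤ B₀)]
  have hl3 : 0 < Real.log 3 := Real.log_pos (by norm_num)
  refine ⟨B, 64 * (1 + C) * C' * Real.log 3 * B * (1 + 3 * B / c'), by positivity,
    fun p z Z a E b hp hz3 hzp hzZ hE hb => ?_⟩
  have hz3' : (3 : ℝ) ≤ z := by exact_mod_cast hz3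
  have hlz : 0 < Real.log z := Real.log_pos (by linarith)
  have hp0 : (0 : ℝ) < p := by exact_mod_cast hp.pos
  have hrat3 : (3 : ℝ) ^ B ≤ (Z : ℝ) / p := by
    rw [le_div_iff₀ hp0]
    exact_mod_cast hzZ
  have hratio3 : (3 : ℝ) ≤ (Z : ℝ) / p := by
    have h1 : (3 : ℝ) ^ 1 ≤ (3 : ℝ) ^ B := by
      apply pow_le_pow_right₀ (by norm_num)
      omega
    rw [pow_one] at h1
    linarith
  have hratio0 : (0 : ℝ) < (Z : ℝ) / p := by linarith
  obtain ⟨L, hL⟩ : ∃ L, L = Real.log ((Z : ℝ) / p) := ⟨_, rfl⟩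
  have hL0 : 0 < L := by
    rw [hL]
    exact Real.log_pos (by linarith)
  rw [← hL]
  obtain ⟨M, hM⟩ : ∃ M, M = 15 * Z / p + 1 := ⟨_, rfl⟩
  have hM1 : (Z : ℝ) / p ≤ M := by
    rw [div_le_iff₀ hp0]
    have h1 : 15 * Z < (15 * Z / p + 1) * p := by
      have := Nat.div_add_mod (15 * Z) p
      have h2 := Nat.mod_lt (15 * Z) hp.pos
      nlinarith
    rw [hM]
    have h2 : Z ≤ (15 * Z / p + 1) * p := by omega
    exact_mod_cast h2
  have hM2 : (M : ℝ) ≤ 16 * (Z / p) := by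
    have h1 : ((15 * Z / p : ℕ) : ℝ) ≤ ((15 * Z : ℕ) : ℝ) / p := Nat.cast_div_le
    rw [hM]
    push_cast at h1 ⊢
    have h2 : 15 * (Z : ℝ) / p = 15 * (Z / p) := by ring
    linarith
  have hM0 : (0 : ℝ) < M := by linarith
  have hlogM : L ≤ Real.log M := by
    rw [hL]
    exact Real.log_le_log (by linarith) hM1
  have hbig : 3 ^ B ≤ M := by
    have h1 : (3 : ℝ) ^ B ≤ M := hrat3.trans hM1
    exact_mod_cast h1
  obtain ⟨y, hy3, hyM, hlog⟩ := exists_root B M (by omega) hbig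
  have hy0 : (0 : ℝ) < y := by
    have : 0 < y := by omega
    exact_mod_cast this
  have hy3' : (3 : ℝ) ≤ y := by exact_mod_cast hy3
  have hly : 0 < Real.log y := by
    apply Real.log_pos
    linarith
  have hyZ : y ≤ Z := by
    have h3 : (y : ℝ) ^ 3 ≤ M := by
      have h4 : y ^ 3 ≤ M := (Nat.pow_le_pow_right (by omega) (by omega)).trans hyM
      exact_mod_cast h4
    have h5 : (5 : ℝ) ≤ p := by
      have h6 : 4 ≤ p := by omega
      have h7 : p ≠ 4 := by
        rintro rfl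
        exact absurd hp (by norm_num)
      have : 5 ≤ p := by omega
      exact_mod_cast this
    have h6 : (y : ℝ) ≤ Z := by
      have h7 : (M : ℝ) * 5 ≤ 16 * Z := by
        have h8 : (Z : ℝ) / p * p = Z := by field_simp
        nlinarith
      have h9 : 9 * (y : ℝ) ≤ y ^ 3 := by
        have h10 : 9 ≤ (y : ℝ) * y := by nlinarith
        have h11 : (y : ℝ) ^ 3 = (y * y) * y := by ring
        rw [h11]
        exact mul_le_mul_of_nonneg_right h10 hy0.le
      linarith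
    exact_mod_cast h6
  obtain ⟨E', hE'⟩ : ∃ E', E' = E.filter (fun l => l ≤ y) := ⟨_, rfl⟩
  have hE'E : E' ⊆ E := by rw [hE']; exact Finset.filter_subset _ _
  have hEpr : ∀ l ∈ E', l.Prime := by
    intro l hl
    have := hE (hE'E hl)
    rw [primesIn, mem_filter] at this
    exact this.2
  have hcount : ((Ioc Z (16 * Z)).filter (fun q => q.Prime ∧ q ≡ a [MOD p] ∧
      ∀ l ∈ E, ¬ q ≡ b l [MOD l])).card ≤
      ((range M).filter (fun w => ∀ l ∈ (primesIn 3 y).filter (fun l => ¬ l ∣ p),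
        w % l ∉ Om a p Z E' b l)).card := by
    have h1 := count2 a p Z y hp.one_lt.le hyZ E' b hEpr
    rw [← hM] at h1
    refine le_trans (Finset.card_le_card ?_) h1
    intro q hq
    rw [mem_filter] at hq ⊢
    exact ⟨hq.1, hq.2.1, hq.2.2.1, fun l hl => hq.2.2.2 l (hE'E hl)⟩
  have hEP : E' ⊆ (primesIn 3 y).filter (fun l => ¬ l ∣ p) := by
    intro l hl
    have h1 := hE (hE'E hl)
    rw [primesIn, mem_filter, mem_Ioc] at h1
    rw [hE', mem_filter] at hl
    rw [mem_filter, primesIn, mem_filter, mem_Ioc]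
    refine ⟨⟨⟨h1.1.1, hl.2⟩, h1.2⟩, fun h2 => ?_⟩
    rcases (Nat.dvd_prime hp).1 h2 with h3 | h3
    · exact h1.2.one_lt.ne' h3
    · omega
  have hcard : ∀ l ∈ (primesIn 3 y).filter (fun l => ¬ l ∣ p),
      (Om a p Z E' b l).card = if l ∈ E' then 2 else 1 := by
    intro l hl
    rw [mem_filter, primesIn, mem_filter] at hl
    split_ifs with h
    · exact Om_card_two a p Z E' b l hl.1.2 hl.2 h (hb l (hE'E h))
    · exact Om_card_one a p Z E' b l hl.1.2 hl.2 h
  have hFz := hF y M (by omega) ((Nat.pow_le_pow_right (by omega) (by omega)).trans hyM)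
    ((primesIn 3 y).filter (fun l => ¬ l ∣ p)) (fun l => Om a p Z E' b l) (by
      intro l hl
      refine ⟨?_, ?_, ?_, ?_, ?_, ?_⟩
      · rw [mem_filter, primesIn, mem_filter] at hl
        exact hl.1.2
      · rw [mem_filter, primesIn, mem_filter, mem_Ioc] at hl
        have h1 : l ≠ 4 := by
          rintro rfl
          exact absurd hl.1.2 (by norm_num)
        omega
      · rw [mem_filter, primesIn, mem_filter, mem_Ioc] at hl
        exact hl.1.1.2
      · intro r hr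
        unfold Om at hr
        rw [mem_filter, mem_range] at hr
        exact hr.1
      · rw [hcard l hl]
        split_ifs <;> norm_num
      · rw [hcard l hl]
        split_ifs <;> norm_num)
  have hfac : ∀ l ∈ E, 0 ≤ 1 - 1 / ((l : ℝ) - 1) := by
    intro l hl
    have h1 := hE hl
    rw [primesIn, mem_filter, mem_Ioc] at h1
    have h2 : (4 : ℝ) ≤ l := by
      have : 4 ≤ l := by omega
      exact_mod_cast this
    rw [sub_nonneg, div_le_one (by linarith)]
    linarith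
  obtain ⟨Pi, hPi⟩ : ∃ Pi, Pi = ∏ l ∈ E, (1 - 1 / ((l : ℝ) - 1)) := ⟨_, rfl⟩
  obtain ⟨Pj, hPj⟩ : ∃ Pj, Pj = ∏ l ∈ E', (1 - 1 / ((l : ℝ) - 1)) := ⟨_, rfl⟩
  rw [← hPi]
  have hPi0 : 0 ≤ Pi := by
    rw [hPi]
    exact Finset.prod_nonneg hfac
  have hPj0 : 0 ≤ Pj := by
    rw [hPj]
    exact Finset.prod_nonneg fun l hl => hfac l (hE'E hl)
  have hPij : Pj ≤ (1 + 3 / (2 * c') * (Real.log z / Real.log y)) * Pi := by
    by_cases hzy : z ≤ y
    · have h1 : E' = E := by
        rw [hE']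
        apply Finset.filter_true_of_mem
        intro l hl
        have h2 := hE hl
        rw [primesIn, mem_filter, mem_Ioc] at h2
        omega
      rw [hPj, h1, ← hPi]
      have h2 : 0 ≤ 3 / (2 * c') * (Real.log z / Real.log y) := by positivity
      nlinarith
    · rw [not_le] at hzy
      have h1 : Pi = (∏ l ∈ E \ E', (1 - 1 / ((l : ℝ) - 1))) * Pj := by
        rw [hPi, hPj, Finset.prod_sdiff hE'E]
      have h2 : E \ E' ⊆ primesIn y z := by
        intro l hl
        rw [mem_sdiff, hE', mem_filter] at hl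
        have h3 := hE hl.1
        rw [primesIn, mem_filter, mem_Ioc] at h3 ⊢
        refine ⟨⟨?_, h3.1.2⟩, h3.2⟩
        by_contra hcon
        exact hl.2 ⟨hl.1, by omega⟩
      have h3 := prod_ratio y z hy3 hzy.le _ h2
      have h4 := (hV y z hy3 hzy.le).1
      have h5 : 2 / 3 * (c' * Real.log y / Real.log z) * Pj ≤ Pi := by
        rw [h1]
        apply mul_le_mul_of_nonneg_right _ hPj0
        linarith
      have h6 : 3 / (2 * c') * (Real.log z / Real.log y) *
          (2 / 3 * (c' * Real.log y / Real.log z) * Pj) = Pj := by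
        field_simp
      have h7 : 0 ≤ 3 / (2 * c') * (Real.log z / Real.log y) := by positivity
      have h8 := mul_le_mul_of_nonneg_left h5 h7
      rw [h6] at h8
      nlinarith
  have hprod : ∏ l ∈ (primesIn 3 y).filter (fun l => ¬ l ∣ p),
      (1 - ((Om a p Z E' b l).card : ℝ) / l) ≤ C' * Real.log 3 / Real.log y * 2 * Pj := by
    have h1 : ∏ l ∈ (primesIn 3 y).filter (fun l => ¬ l ∣ p),
        (1 - ((Om a p Z E' b l).card : ℝ) / l) =
        (∏ l ∈ (primesIn 3 y).filter (fun l => ¬ l ∣ p), (1 - 1 / (l : ℝ))) *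
        ∏ l ∈ (primesIn 3 y).filter (fun l => ¬ l ∣ p),
          (if l ∈ E' then (1 - 1 / ((l : ℝ) - 1)) else 1) := by
      rw [← Finset.prod_mul_distrib]
      apply Finset.prod_congr rfl
      intro l hl
      rw [hcard l hl]
      rw [mem_filter, primesIn, mem_filter, mem_Ioc] at hl
      have h2 : (4 : ℝ) ≤ l := by
        have : 4 ≤ l := by omega
        exact_mod_cast this
      have h3 : (l : ℝ) - 1 ≠ 0 := by
        intro h
        linarith
      have h4 : (l : ℝ) ≠ 0 := by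
        intro h
        linarith
      split_ifs with h
      · push_cast
        field_simp
        ring
      · push_cast
        ring
    have h2 : ∏ l ∈ (primesIn 3 y).filter (fun l => ¬ l ∣ p),
          (if l ∈ E' then (1 - 1 / ((l : ℝ) - 1)) else 1) = Pj := by
      rw [Finset.prod_ite_mem, Finset.inter_eq_right.2 hEP, ← hPj]
    rw [h1, h2]
    apply mul_le_mul_of_nonneg_right _ hPj0
    refine (prod_le p y hp.one_lt.le).trans ?_
    have h3 := (hV 3 y le_rfl hy3).2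
    have h4 : (p : ℝ) / p.totient ≤ 2 := by
      rw [Nat.totient_prime hp, Nat.cast_sub hp.one_lt.le, Nat.cast_one]
      have h5 : (2 : ℝ) ≤ p := by exact_mod_cast hp.two_le
      rw [div_le_iff₀ (by linarith)]
      linarith
    have h5 : (0 : ℝ) ≤ (p : ℝ) / p.totient := by positivity
    apply mul_le_mul _ h4 h5 (by positivity)
    exact_mod_cast h3
  have hexp : 1 + C * Real.exp (-c * (Real.log M / Real.log y)) ≤ 1 + C := by
    have h1 : Real.exp (-c * (Real.log M / Real.log y)) ≤ 1 := by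
      rw [Real.exp_le_one_iff]
      have h2 : 0 ≤ Real.log M / Real.log y := by
        have : 0 ≤ Real.log M := by linarith
        positivity
      nlinarith
    nlinarith
  have hpnn : 0 ≤ ∏ l ∈ (primesIn 3 y).filter (fun l => ¬ l ∣ p),
      (1 - ((Om a p Z E' b l).card : ℝ) / l) := by
    apply Finset.prod_nonneg
    intro l hl
    rw [hcard l hl]
    rw [mem_filter, primesIn, mem_filter, mem_Ioc] at hl
    have h2 : (4 : ℝ) ≤ l := by
      have : 4 ≤ l := by omega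
      exact_mod_cast this
    rw [sub_nonneg, div_le_one (by linarith)]
    split_ifs
    · push_cast
      linarith
    · push_cast
      linarith
  have h5 : (((Ioc Z (16 * Z)).filter (fun q => q.Prime ∧ q ≡ a [MOD p] ∧
      ∀ l ∈ E, ¬ q ≡ b l [MOD l])).card : ℝ) ≤
      (1 + C) * (16 * (Z / p)) * (C' * Real.log 3 / Real.log y * 2 * Pj) := by
    refine ((Nat.cast_le (α := ℝ)).2 hcount).trans (hFz.trans ?_)
    apply mul_le_mul
    · exact mul_le_mul hexp hM2 hM0.le (by positivity)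
    · exact hprod
    · exact hpnn
    · positivity
  refine h5.trans ?_
  have h7 : (1 + C) * (16 * ((Z : ℝ) / p)) * (C' * Real.log 3 / Real.log y * 2 * Pj) =
      (32 * (1 + C) * C' * Real.log 3) * (Z / p) * ((1 / Real.log y) * Pj) := by
    field_simp
    ring
  have h8 : 1 / Real.log y ≤ 2 * B * (1 / L) := by
    rw [mul_one_div, div_le_div_iff₀ hly hL0]
    linarith
  have h10 : Pj ≤ ((1 + 3 * B / c') * (1 + Real.log z / L)) * Pi := by
    refine hPij.trans ?_
    apply mul_le_mul_of_nonneg_right _ hPi0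
    have h11 : Real.log z / Real.log y ≤ Real.log z * (2 * B * (1 / L)) := by
      have h12 := mul_le_mul_of_nonneg_left h8 hlz.le
      rwa [mul_one_div] at h12
    have h13 : 3 / (2 * c') * (Real.log z / Real.log y) ≤ 3 * B / c' * (Real.log z / L) := by
      refine (mul_le_mul_of_nonneg_left h11 (by positivity)).trans (le_of_eq ?_)
      field_simp
    have h14 : 0 ≤ 3 * B / c' := by positivity
    have h15 : 0 ≤ Real.log z / L := by positivity
    nlinarith
  rw [h7]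
  have h9 : (0 : ℝ) ≤ (32 * (1 + C) * C' * Real.log 3) * (Z / p) := by positivity
  have h16 : (1 / Real.log y) * Pj ≤ (2 * B * (1 / L)) *
      (((1 + 3 * B / c') * (1 + Real.log z / L)) * Pi) :=
    mul_le_mul h8 h10 hPj0 (by positivity)
  refine (mul_le_mul_of_nonneg_left h16 h9).trans (le_of_eq ?_)
  field_simp
  ring

end Pool.Agent.Lib.MP_2a99c0_nt.H73
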